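import Mathlib

/-!
# Super forms: definitions and contraction calculus
-/

namespace Pool.Agent.Helper89.NN

universe u v w

/-- parity sign -/
def sp (F : Type u) [Field F] (a : Bool) : F := if a then -1 else 1

/-- Koszul sign -/
def sg (F : Type u) [Field F] (a b : Bool) : F := if a && b then -1 else 1

section signs
variable {F : Type u} [Field F]

@[simp] lemma sp_mul_sp (a : Bool) : sp F a * sp F a = 1 := by cases a <;> simp [sp]
@[simp] lemma sg_mul_sg (a b : Bool) : sg F a b * sg F a b = 1 := by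
  cases a <;> cases b <;> simp [sg]
lemma sg_comm (a b : Bool) : sg F a b = sg F b a := by cases a <;> cases b <;> simp [sg]
lemma sg_self (a : Bool) : sg F a a = sp F a := by cases a <;> simp [sg, sp]
@[simp] lemma sg_false_left (b : Bool) : sg F false b = 1 := by simp [sg]
@[simp] lemma sg_false_right (b : Bool) : sg F b false = 1 := by simp [sg]
@[simp] lemma sp_false : sp F false = 1 := by simp [sp]
@[simp] lemma sp_true : sp F true = -1 := by simp [sp]
end signs

variable (F : Type u) [Field F] (U : Type v) [AddCommGroup U] [Module F U] (ι : Type w) [Fintype ι]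

/-- A super vector space `U` with an even, super-symmetric, nondegenerate form, dual bases, and an
orthogonal decomposition with projector `π` onto the odd part `V`. -/
structure SS where
  /-- parity -/
  ε : U →ₗ[F] U
  /-- the form -/
  B : U →ₗ[F] U →ₗ[F] F
  /-- a basis -/
  e : ι → U
  /-- the dual basis -/
  f : ι → U
  /-- the parities of the basis vectors -/
  p : ι → Bool
  /-- the basis vectors in `V` -/
  q : ι → Bool
  /-- projector onto `V` -/
  π : U →ₗ[F] U
  ε_e : ∀ i, ε (e i) = sp F (p i) • e i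
  ε_f : ∀ i, ε (f i) = sp F (p i) • f i
  εε : ∀ x, ε (ε x) = x
  B_ε : ∀ x y, B (ε x) (ε y) = B x y
  B_symm : ∀ x y, B x y = B y (ε x)
  zig : ∀ x, ∑ i, B (f i) x • e i = x
  zag : ∀ x, ∑ i, B x (e i) • f i = x
  dual_self : ∀ i, B (f i) (e i) = 1
  dual_ne : ∀ i j, i ≠ j → B (f i) (e j) = 0
  π_e : ∀ i, π (e i) = if q i then e i else 0
  π_f : ∀ i, π (f i) = if q i then f i else 0
  ππ : ∀ x, π (π x) = π x
  B_π : ∀ x y, B (π x) y = B x (π y)
  ε_π : ∀ x, ε (π x) = - π x
  p_q : ∀ i, q i = true → p i = true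

variable {F U ι}

namespace SS

variable (D : SS F U ι)

/-- `x` is homogeneous of parity `a` -/
def Par (a : Bool) (x : U) : Prop := D.ε x = sp F a • x

lemma par_e (i : ι) : D.Par (D.p i) (D.e i) := D.ε_e i
lemma par_f (i : ι) : D.Par (D.p i) (D.f i) := D.ε_f i

/-- the super dimension -/
def δ : F := ∑ i, D.B (D.e i) (D.f i)

/-- the nilpotent endomorphism attached to `v` -/
def N (v : U) : U →ₗ[F] U := (D.B.flip v).smulRight v

lemma N_apply (v x : U) : D.N v x = D.B x v • v := rfl

lemma B_swap {a b : Bool} {x y : U} (hx : D.Par a x) (hy : D.Par b y) :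
    D.B x y = sg F a b * D.B y x := by
  have h1 : D.B x y = sp F a * D.B y x := by
    rw [D.B_symm x y, hx, map_smul, smul_eq_mul]
  by_cases hab : a = b
  · subst hab
    rw [sg_self]; exact h1
  · have h2 := D.B_ε x y
    rw [hx, hy, map_smul, map_smul, LinearMap.smul_apply, smul_eq_mul, smul_eq_mul] at h2
    have h3 : sp F b * sp F a = -1 := by
      cases a <;> cases b <;> simp_all
    have h0 : D.B x y + D.B x y = 0 := by
      have : sp F b * (sp F a * D.B x y) = - D.B x y := by
        rw [← mul_assoc, h3, neg_one_mul]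
      rw [this] at h2
      linear_combination -h2
    have h5 : sg F a b = 1 := by
      cases a <;> cases b <;> simp_all [sg]
    have h6 : sp F a * sp F a = 1 := sp_mul_sp a
    have h7 : sp F a = 1 ∨ sp F a = -1 := by cases a <;> simp [sp]
    rw [h5, one_mul]
    rcases h7 with h7 | h7
    · rw [h1, h7, one_mul]
    · rw [h7, neg_one_mul] at h1
      have e : D.B y x = - D.B x y := by rw [h1, neg_neg]
      rw [e]
      linear_combination h0

/-- the two orders in the Casimir element -/
lemma cup_symm (β : U →ₗ[F] U →ₗ[F] F) :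
    ∑ i, β (D.e i) (D.f i) = ∑ i, sp F (D.p i) * β (D.f i) (D.e i) := by
  have h1 : ∀ i, D.f i = ∑ j, D.B (D.f j) (D.f i) • D.e j := fun i => (D.zig _).symm
  have h2 : ∀ j, D.e j = ∑ i, D.B (D.e j) (D.e i) • D.f i := fun j => (D.zag _).symm
  calc ∑ i, β (D.e i) (D.f i)
      = ∑ i, ∑ j, D.B (D.f j) (D.f i) * β (D.e i) (D.e j) := by
        refine Finset.sum_congr rfl fun i _ => ?_
        conv_lhs => rw [h1 i]
        rw [map_sum]
        exact Finset.sum_congr rfl fun j _ => by rw [map_smul, smul_eq_mul]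
    _ = ∑ j, ∑ i, D.B (D.f j) (D.f i) * β (D.e i) (D.e j) := Finset.sum_comm
    _ = ∑ j, sp F (D.p j) * β (D.f j) (D.e j) := by
        refine Finset.sum_congr rfl fun j _ => ?_
        have h3 : ∑ i, D.B (D.f j) (D.f i) • D.e i = sp F (D.p j) • D.f j := by
          have h4 : ∀ i, D.B (D.f j) (D.f i) • D.e i =
              sp F (D.p j) • (D.B (D.f i) (D.f j) • D.e i) := by
            intro i
            rw [D.B_symm (D.f j) (D.f i), D.ε_f, map_smul, smul_eq_mul, smul_smul]
          rw [Finset.sum_congr rfl fun i _ => h4 i, ← Finset.smul_sum, D.zig]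
        have h5 : β (∑ i, D.B (D.f j) (D.f i) • D.e i) (D.e j) =
            ∑ i, D.B (D.f j) (D.f i) * β (D.e i) (D.e j) := by
          rw [map_sum, LinearMap.sum_apply]
          exact Finset.sum_congr rfl fun i _ => by
            rw [map_smul, LinearMap.smul_apply, smul_eq_mul]
        rw [← h5, h3, map_smul, LinearMap.smul_apply, smul_eq_mul]

/-- contraction with `B (e i) z` -/
lemma zag' (z : U) : ∑ i, D.B (D.e i) z • D.f i = D.ε z := by
  have h1 : ∀ i, D.B (D.e i) z • D.f i = D.ε (D.B z (D.e i) • D.f i) := by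
    intro i
    rw [map_smul, D.ε_f, smul_smul, D.B_symm (D.e i) z, D.ε_e, map_smul, smul_eq_mul, mul_comm]
  rw [Finset.sum_congr rfl fun i _ => h1 i, ← map_sum, D.zag]

lemma zig' (z : U) : ∑ i, D.B z (D.f i) • D.e i = D.ε z := by
  have h1 : ∀ i, D.B z (D.f i) • D.e i = D.ε (D.B (D.f i) z • D.e i) := by
    intro i
    rw [map_smul, D.ε_e, smul_smul, D.B_symm (D.f i) z, D.ε_f, map_smul, smul_eq_mul]
    congr 1
    rw [mul_right_comm, sp_mul_sp, one_mul]
  rw [Finset.sum_congr rfl fun i _ => h1 i, ← map_sum, D.zig]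

end SS

/-- `t` is multilinear and even on lists of length `n`. -/
structure IsForm (D : SS F U ι) (n : ℕ) (t : List U → F) : Prop where
  add : ∀ (l₁ l₂ : List U) (x y : U), l₁.length + l₂.length + 1 = n →
    t (l₁ ++ (x + y) :: l₂) = t (l₁ ++ x :: l₂) + t (l₁ ++ y :: l₂)
  smul : ∀ (l₁ l₂ : List U) (c : F) (x : U), l₁.length + l₂.length + 1 = n →
    t (l₁ ++ (c • x) :: l₂) = c * t (l₁ ++ x :: l₂)
  even : ∀ l : List U, l.length = n → t (l.map D.ε) = t l

namespace IsForm

variable {D : SS F U ι} {n : ℕ} {t : List U → F}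

/-- the linear map in one slot -/
def lin (h : IsForm D n t) (l₁ l₂ : List U) (hl : l₁.length + l₂.length + 1 = n) : U →ₗ[F] F where
  toFun x := t (l₁ ++ x :: l₂)
  map_add' x y := h.add l₁ l₂ x y hl
  map_smul' c x := h.smul l₁ l₂ c x hl

/-- the bilinear map in two slots -/
def lin₂ (h : IsForm D n t) (l₁ l₂ l₃ : List U)
    (hl : l₁.length + l₂.length + l₃.length + 2 = n) : U →ₗ[F] U →ₗ[F] F :=
  LinearMap.mk₂ F (fun x y => t (l₁ ++ x :: (l₂ ++ y :: l₃)))
    (fun x x' y => h.add l₁ _ x x' (by simp; omega))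
    (fun c x y => h.smul l₁ _ c x (by simp; omega))
    (fun x y y' => by
      have := h.add (l₁ ++ x :: l₂) l₃ y y' (by simp; omega)
      simpa using this)
    (fun c x y => by
      have := h.smul (l₁ ++ x :: l₂) l₃ c y (by simp; omega)
      simpa using this)

lemma lin₂_apply (h : IsForm D n t) (l₁ l₂ l₃ : List U)
    (hl : l₁.length + l₂.length + l₃.length + 2 = n) (x y : U) :
    h.lin₂ l₁ l₂ l₃ hl x y = t (l₁ ++ x :: (l₂ ++ y :: l₃)) := rfl

lemma sum (h : IsForm D n t) (l₁ l₂ : List U) (hl : l₁.length + l₂.length + 1 = n)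
    {κ : Type*} (s : Finset κ) (c : κ → F) (x : κ → U) :
    t (l₁ ++ (∑ k ∈ s, c k • x k) :: l₂) = ∑ k ∈ s, c k * t (l₁ ++ x k :: l₂) := by
  show h.lin l₁ l₂ hl _ = _
  rw [map_sum]
  exact Finset.sum_congr rfl fun k _ => by rw [map_smul]; rfl

lemma neg (h : IsForm D n t) (l₁ l₂ : List U) (hl : l₁.length + l₂.length + 1 = n) (x : U) :
    t (l₁ ++ (-x) :: l₂) = - t (l₁ ++ x :: l₂) := by
  show h.lin l₁ l₂ hl _ = _
  rw [map_neg]; rfl

end IsForm

/-- The derivation extending `A`. -/
def der (A : U →ₗ[F] U) : (List U → F) → List U → F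
  | _, [] => 0
  | t, x :: l => t (A x :: l) + der A (fun l' => t (x :: l')) l

/-- `t` is super-symmetric on lists of length `n`. -/
def IsSym (D : SS F U ι) (n : ℕ) (t : List U → F) : Prop :=
  ∀ (l₁ l₂ : List U) (x y : U) (a b : Bool), l₁.length + l₂.length + 2 = n → D.Par a x →
    D.Par b y → t (l₁ ++ x :: y :: l₂) = sg F a b * t (l₁ ++ y :: x :: l₂)

/-- Nested contraction of the last `m` slots of `P` with the first `m` slots of `Q`. -/
def cn (D : SS F U ι) : ℕ → (List U → F) → (List U → F) → List U → List U → F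
  | 0, P, Q, l₁, l₂ => P l₁ * Q l₂
  | m + 1, P, Q, l₁, l₂ => ∑ i, cn D m P Q (l₁ ++ [D.e i]) (D.f i :: l₂)

/-- The operation interchanging the slots `i`, `i + 1`. -/
def sw (D : SS F U ι) (i : ℕ) (t : List U → F) : List U → F := fun l =>
  match l.drop i with
  | x :: y :: l₂ => 2⁻¹ * (t (l.take i ++ y :: x :: l₂) + t (l.take i ++ y :: D.ε x :: l₂) +
      t (l.take i ++ D.ε y :: x :: l₂) - t (l.take i ++ D.ε y :: D.ε x :: l₂))
  | _ => 0

/-- Contraction of the slots `i`, `i + 1`. -/
def ctr (D : SS F U ι) (i : ℕ) (t : List U → F) : List U → F := fun l =>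
  ∑ j, t (l.take i ++ D.e j :: D.f j :: l.drop i)

/-- Insertion of `t'` (`n` slots) after the slot `i` of `t`. -/
def ins (i n : ℕ) (t t' : List U → F) : List U → F := fun l =>
  t (l.take i ++ l.drop (i + n)) * t' ((l.drop i).take n)

/-- The form `B` as a function on lists. -/
def frm (D : SS F U ι) : List U → F := fun l => D.B (l.getD 0 0) (l.getD 1 0)

/-- A family of spaces of forms on the powers of `U`, stable under permutations, products and
contractions. -/
structure AlgForms (D : SS F U ι) (alg : ℕ → (List U → F) → Prop) : Prop where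
  form : ∀ n t, alg n t → IsForm D n t
  congr : ∀ n t t', alg n t → (∀ l, l.length = n → t' l = t l) → alg n t'
  add : ∀ n t t', alg n t → alg n t' → alg n (t + t')
  smul : ∀ n (r : ℚ) t, alg n t → alg n ((r : F) • t)
  one : alg 0 (fun _ => 1)
  diag : alg 2 (frm D)
  ins : ∀ m n i t t', alg m t → alg n t' → i ≤ m → alg (m + n) (ins i n t t')
  swap : ∀ n i t, alg n t → i + 2 ≤ n → alg n (sw D i t)
  contr : ∀ n i t, alg (n + 2) t → i ≤ n → alg n (ctr D i t)

/-- The invariance under `sp(V)`. -/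
def Monodromy (D : SS F U ι) (alg : ℕ → (List U → F) → Prop) : Prop :=
  ∀ n t, alg n t → ∀ v, D.π v = v → ∀ l : List U, l.length = n → der (D.N v) t l = 0

/-- The property (A1). -/
def ScalarOnV (D : SS F U ι) (alg : ℕ → (List U → F) → Prop) : Prop :=
  ∀ t, alg 2 t → ∃ r : F, (∀ v y, D.π v = v → t [v, y] = r * D.B v y) ∧
    ∑ i, t [D.e i, D.f i] = r * D.δ

end Pool.Agent.Helper89.NN
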