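import Pool.Agent.Helper89.NN.Unit

/-!
# Composition of a cycle on `X^n` with a self-correspondence in one factor
-/

namespace Pool.Agent.Helper89.NN

open Pool.Agent.Helper29.CPB TT

universe u v

variable {F : Type u} [Field F] {X Z S : Variety.{u, v} F}

namespace Powers

variable (P : Powers X)

lemma zag (y : X.H) : ∑ j, P.B y (P.e j) • P.f j = y := by
  rw [← sub_eq_zero]
  apply P.duality.nondeg
  intro x
  rw [map_sub, LinearMap.sub_apply, map_sum, LinearMap.sum_apply, sub_eq_zero]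
  conv_rhs => rw [← P.bases.span x, map_sum]
  refine Finset.sum_congr rfl fun j _ => ?_
  rw [map_smul, LinearMap.smul_apply, map_smul, smul_eq_mul, smul_eq_mul, mul_comm]

/-- the sum over dual bases as a bilinear trace -/
lemma formSum {n : ℕ} {t : List X.H → F} (ht : IsEvenForm (parity X.dim X.π) n t)
    (l₁ l₂ : List X.H) (hl : l₁.length + l₂.length + 1 = n) {κ : Type*} (s : Finset κ) (c : κ → F)
    (x : κ → X.H) :
    t (l₁ ++ (∑ k ∈ s, c k • x k) :: l₂) = ∑ k ∈ s, c k * t (l₁ ++ x k :: l₂) := by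
  let L : X.H →ₗ[F] F :=
    { toFun := fun x => t (l₁ ++ x :: l₂)
      map_add' := fun x y => ht.add l₁ l₂ x y hl
      map_smul' := fun c x => ht.smul l₁ l₂ c x hl }
  show L _ = _
  rw [map_sum]
  exact Finset.sum_congr rfl fun k _ => by rw [map_smul]; rfl

/-- Composition with a correspondence in one factor. -/
theorem slot {n i : ℕ} {t : List X.H → F} (ht : P.cyc n t) {g : Module.End F X.H}
    (hg : X.alg 0 g) (hi : i < n) : ∃ t', P.cyc n t' ∧ ∀ l₁ x l₂, l₁.length = i →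
      i + 1 + l₂.length = n → t' (l₁ ++ x :: l₂) = t (l₁ ++ g x :: l₂) := by
  obtain ⟨k, hk, hk'⟩ := P.cycles.corr g hg
  refine ⟨contrForm P.e P.f (i + 1) (prodForm i 2 t k),
    P.cycles.contr n (i + 1) _ (P.cycles.prod n 2 i t k ht hk hi.le) (by omega), ?_⟩
  intro l₁ x l₂ hl₁ hl₂
  have h1 : ∀ j, prodForm i 2 t k ((l₁ ++ x :: l₂).take (i + 1) ++ P.e j :: P.f j ::
      (l₁ ++ x :: l₂).drop (i + 1)) = P.B (g x) (P.e j) * t (l₁ ++ P.f j :: l₂) := by
    intro j
    have e1 : (l₁ ++ x :: l₂).take (i + 1) = l₁ ++ [x] := by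
      rw [← hl₁, List.take_append]; simp
    have e2 : (l₁ ++ x :: l₂).drop (i + 1) = l₂ := by
      rw [← hl₁, List.drop_append]; simp
    rw [e1, e2, List.append_assoc]
    unfold prodForm
    have e3 : (l₁ ++ ([x] ++ P.e j :: P.f j :: l₂)).take i = l₁ := by
      rw [← hl₁]; simp
    have e4 : (l₁ ++ ([x] ++ P.e j :: P.f j :: l₂)).drop i = x :: P.e j :: P.f j :: l₂ := by
      rw [← hl₁]; simp
    have e5 : (l₁ ++ ([x] ++ P.e j :: P.f j :: l₂)).drop (i + 2) = P.f j :: l₂ := by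
      rw [← hl₁, List.drop_append]; simp
    rw [e3, e4, e5]
    show _ * k [x, P.e j] = _
    rw [hk', mul_comm]
  show ∑ j, _ = _
  rw [Finset.sum_congr rfl fun j _ => h1 j,
    ← formSum (P.cycles.form n t ht) l₁ l₂ (by omega) Finset.univ (fun j => P.B (g x) (P.e j)) P.f,
    P.zag]

/-- Composition with a correspondence in the factors `i, …, n - 1`. -/
theorem slots {n : ℕ} (i : ℕ) {t : List X.H → F} (ht : P.cyc n t) {g : Module.End F X.H}
    (hg : X.alg 0 g) (hi : i ≤ n) : ∃ t', P.cyc n t' ∧ ∀ l₁ l₂, l₁.length = i →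
      i + l₂.length = n → t' (l₁ ++ l₂) = t (l₁ ++ l₂.map g) := by
  obtain ⟨d, hd⟩ : ∃ d, n = i + d := ⟨n - i, by omega⟩
  induction d generalizing i t with
  | zero =>
    refine ⟨t, ht, fun l₁ l₂ h1 h2 => ?_⟩
    have : l₂ = [] := List.length_eq_zero_iff.mp (by omega)
    rw [this]
    rfl
  | succ d ih =>
    obtain ⟨t', ht', h'⟩ := ih (i + 1) ht (by omega) (by omega)
    obtain ⟨t'', ht'', h''⟩ := P.slot ht' hg (i := i) (by omega)
    refine ⟨t'', ht'', fun l₁ l₂ h1 h2 => ?_⟩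
    obtain ⟨x, l, rfl⟩ : ∃ x l, l₂ = x :: l := by
      cases l₂ with
      | nil => simp at h2; omega
      | cons x l => exact ⟨x, l, rfl⟩
    rw [h'' l₁ x l h1 (by simp at h2; omega)]
    have h3 := h' (l₁ ++ [g x]) l (by simp [h1]) (by simp at h2; omega)
    simpa using h3

end Powers

end Pool.Agent.Helper89.NN
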