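import Pool.Agent.Helper89.NN.Contra

/-!
# The nilpotence conjecture gives algebraic left inverses of `L` on the even cohomology
-/

namespace Pool.Agent.Helper89.NN

open Pool.Agent.Helper29.CPB TT

universe u v

variable {F : Type u} [Field F] [CharZero F] {X Z S : Variety.{u, v} F}

/-- the nilpotence conjecture for `S^1` is the nilpotence conjecture for `S` -/
theorem nilpotence_one (P : Powers S) (h : P.Nilpotence 1) : Nilpotence S := by
  intro a ha hn
  have ha0 : a ∈ S.corr 0 := ha
  obtain ⟨t, ht, ht'⟩ := P.cycles.corr a ha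
  obtain ⟨N, hN⟩ := h t ht (by
    intro t' ht1
    obtain ⟨b, hb, hb'⟩ := P.cycles.corr' t' ht1
    have hb0 : b ∈ S.corr 0 := hb
    show ∑ i, ∑ j, t [P.e i, P.e j] * t' [P.f j, P.f i] = 0
    have h1 : ∀ i, ∑ j, t [P.e i, P.e j] * t' [P.f j, P.f i] =
        P.B ((b * a) (P.e i)) (P.f i) := by
      intro i
      rw [Module.End.mul_apply]
      conv_rhs => rw [← P.zag (a (P.e i))]
      rw [map_sum, map_sum, LinearMap.sum_apply]
      refine Finset.sum_congr rfl fun j _ => ?_
      rw [ht', hb', map_smul, map_smul, LinearMap.smul_apply, smul_eq_mul]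
    rw [Finset.sum_congr rfl fun i _ => h1 i, ← P.str_eq (S.corr_mul' (by ring) hb0 ha0)]
    exact hn b hb)
  have key : ∀ (m : ℕ) (x y : S.H), powForm P.e P.f 1 t m [x, y] = P.B ((a ^ (m + 1)) x) y := by
    intro m
    induction m with
    | zero => intro x y; rw [zero_add, pow_one]; exact ht' x y
    | succ m ih =>
      intro x y
      show ∑ j, powForm P.e P.f 1 t m [x, P.e j] * t [P.f j, y] = _
      rw [pow_succ' a (m + 1), Module.End.mul_apply]
      conv_rhs => rw [← P.zag ((a ^ (m + 1)) x)]
      rw [map_sum, map_sum, LinearMap.sum_apply]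
      refine Finset.sum_congr rfl fun j _ => ?_
      rw [ih, ht', map_smul, map_smul, LinearMap.smul_apply, smul_eq_mul]
  refine ⟨N + 1, ?_⟩
  apply LinearMap.ext
  intro x
  rw [LinearMap.zero_apply]
  apply P.duality.nondeg
  intro y
  rw [← key]
  exact hN _ rfl

/-- left inverse of `L` on the even cohomology in low degrees -/
theorem exists_even_inverse (P : Powers S) (G : GenericSection Z S 1) (hodd : Odd S.dim)
    {Δ : Set S.H} (hM : IsLefschetz P.B P.cyc G.up G.dn Δ)
    (hL : 2 * Module.finrank F Z.H ^ 2 + Module.finrank F Z.H <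
      Module.finrank F (LinearMap.ker G.dn)) (hNN : ∀ k, P.Nilpotence k) :
    ∃ γ ∈ Z.corr (-1), ∀ j : ℤ, Even j → j + 1 ≤ Z.dim → ∀ z, Z.π j z = z → γ (Z.L z) = z := by
  obtain ⟨e, heI, hee, heS, heN⟩ := exists_idem G P hM.orth (nilpotence_one P (hNN 1))
  let E : PData G P :=
    { odd := hodd
      orth := hM.orth
      p := 1 - e
      alg := (S.corr 0).sub_mem S.corr_one heI.1
      idem := fun x => by
        have h1 : e (e x) = e x := by rw [← Module.End.mul_apply, hee]
        rw [LinearMap.sub_apply, Module.End.one_apply, LinearMap.sub_apply,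
          Module.End.one_apply, map_sub, h1, sub_self, sub_zero]
      symm := SA.sub P (SA.one P) heS
      van := fun y hy => by
        rw [LinearMap.sub_apply, heI.2 y hy, sub_zero, Module.End.one_apply] }
  have hp : ∀ x, E.p x = x - e x := fun _ => rfl
  have heven : ∀ x, S.sgn x = x → e x = x := by
    intro x hx
    have h1 := E.even_zero heN hM hL hNN (E.p x) (E.idem x) (by rw [E.sgn_p, hx])
    rw [hp, sub_eq_zero] at h1
    exact h1.symm
  obtain ⟨γ, hγ, heγ⟩ := heI.exists_γ
  refine ⟨(G.m : F) • γ, ?_, ?_⟩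
  · have := Z.corr_smul (G.m : ℚ) (-1) γ hγ
    push_cast at this
    exact this
  · intro j hj hjd z hz
    have hd := G.dim
    have h1 : S.sgn (G.up z) = G.up z := by
      rw [S.sgn_apply (up_homog G hz), (Int.natAbs_even.mpr hj).neg_one_pow, one_smul]
    have h2 := heven _ h1
    rw [heγ, dn_up_apply, map_smul] at h2
    have h3 : Z.π j (γ (Z.L z)) = γ (Z.L z) := by
      have e1 : Z.π (j + 2) (Z.L z) = Z.L z := Z.corr_homog Z.L_corr (by ring) hz
      exact Z.corr_homog hγ (by ring) e1
    have h4 : (G.m : F) • γ (Z.L z) - z = 0 := by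
      apply G.weak_inj j (by omega)
      · rw [map_sub, map_smul, h3, hz]
      · rw [map_sub, h2, sub_self]
    rw [LinearMap.smul_apply]
    exact sub_eq_zero.mp h4

end Pool.Agent.Helper89.NN
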