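import Pool.Agent.Helper89.NN.Calc

/-!
# Evaluation of the operations on forms, closure of algebraic forms under contraction
-/

namespace Pool.Agent.Helper89.NN

universe u v w

variable {F : Type u} [Field F] {U : Type v} [AddCommGroup U] [Module F U] {ι : Type w} [Fintype ι]
  {D : SS F U ι}

section
variable [CharZero F]

lemma sw_apply {n i : ℕ} {t : List U → F} (h : IsForm D n t) (l₁ l₂ : List U) (x y : U)
    {a b : Bool} (hi : l₁.length = i) (hn : i + l₂.length + 2 = n) (hx : D.Par a x)
    (hy : D.Par b y) : sw D i t (l₁ ++ x :: y :: l₂) = sg F a b * t (l₁ ++ y :: x :: l₂) := by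
  have hβ := h.lin₂_apply l₁ [] l₂ (by simp; omega)
  simp only [List.nil_append] at hβ
  unfold sw
  rw [← hi, List.drop_left, List.take_left]
  show 2⁻¹ * (t _ + t _ + t _ - t _) = _
  rw [← hβ, ← hβ, ← hβ, ← hβ, hx, hy]
  simp only [map_smul, LinearMap.smul_apply, smul_eq_mul]
  have h2 : (2 : F) ≠ 0 := two_ne_zero
  cases a <;> cases b <;> simp [sg, sp] <;> field_simp <;> ring

end

/-- two forms agreeing on the words in the basis are equal -/
lemma IsForm.ext_e {n : ℕ} {t t' : List U → F} (h : IsForm D n t) (h' : IsForm D n t')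
    (he : ∀ l : List ι, l.length = n → t (l.map D.e) = t' (l.map D.e)) :
    ∀ l : List U, l.length = n → t l = t' l := by
  have key : ∀ (l₂ : List U) (l₁ : List ι), l₁.length + l₂.length = n →
      t (l₁.map D.e ++ l₂) = t' (l₁.map D.e ++ l₂) := by
    intro l₂
    induction l₂ with
    | nil => intro l₁ hl; simpa using he l₁ (by simpa using hl)
    | cons x l₂ ih =>
      intro l₁ hl
      rw [← D.zig x, h.sum _ _ (by simp at hl ⊢; omega), h'.sum _ _ (by simp at hl ⊢; omega)]
      refine Finset.sum_congr rfl fun i _ => ?_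
      congr 1
      have := ih (l₁ ++ [i]) (by simp at hl ⊢; omega)
      simpa using this
  intro l hl
  simpa using key l [] (by simpa using hl)

/-- the same with words in both bases -/
lemma IsForm.ext_ef {n : ℕ} {t t' : List U → F} (h : IsForm D n t) (h' : IsForm D n t')
    (he : ∀ l : List U, l.length = n → (∀ x ∈ l, ∃ i, x = D.e i) → t l = t' l) :
    ∀ l : List U, l.length = n → t l = t' l := by
  apply h.ext_e h'
  intro l hl
  refine he _ (by simpa using hl) ?_
  intro x hx
  obtain ⟨i, -, rfl⟩ := List.mem_map.mp hx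
  exact ⟨i, rfl⟩

namespace AlgForms

variable {alg : ℕ → (List U → F) → Prop} (hA : AlgForms D alg)

include hA

lemma zero (n : ℕ) (h : ∃ t, alg n t) : alg n (fun _ => 0) := by
  obtain ⟨t, ht⟩ := h
  refine hA.congr n _ _ (hA.smul n 0 t ht) fun l _ => ?_
  simp

lemma neg {n : ℕ} {t : List U → F} (h : alg n t) : alg n (fun l => - t l) := by
  refine hA.congr n _ _ (hA.smul n (-1) t h) fun l _ => ?_
  simp

lemma sub {n : ℕ} {t t' : List U → F} (h : alg n t) (h' : alg n t') :
    alg n (fun l => t l - t' l) := by
  refine hA.congr n _ _ (hA.add n _ _ h (hA.neg h')) fun l _ => ?_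
  simp [sub_eq_add_neg]

lemma nsmul {n : ℕ} {t : List U → F} (k : ℕ) (h : alg n t) : alg n (fun l => k * t l) := by
  refine hA.congr n _ _ (hA.smul n k t h) fun l _ => ?_
  simp

/-- products, the second factor at the end -/
lemma mul {m n : ℕ} {P Q : List U → F} (hP : alg m P) (hQ : alg n Q) :
    alg (m + n) (fun l => P (l.take m) * Q (l.drop m)) := by
  refine hA.congr _ _ _ (hA.ins m n m P Q hP hQ le_rfl) fun l hl => ?_
  unfold NN.ins
  have h1 : l.drop (m + n) = [] := List.drop_of_length_le (by omega)
  have h2 : (l.drop m).take n = l.drop m := List.take_of_length_le (by simp; omega)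
  rw [h1, h2, List.append_nil]

/-- nested contractions are algebraic -/
lemma cn {n₁ n₂ : ℕ} {P Q : List U → F} (hP : alg n₁ P) (hQ : alg n₂ Q) (m : ℕ) (a b : ℕ)
    (h₁ : a + m = n₁) (h₂ : b + m = n₂) :
    alg (a + b) (fun l => NN.cn D m P Q (l.take a) (l.drop a)) := by
  induction m generalizing a b with
  | zero =>
    have : a = n₁ := by omega
    subst this
    have hb : b = n₂ := by omega
    subst hb
    exact hA.mul hP hQ
  | succ m ih =>
    have h := ih (a + 1) (b + 1) (by omega) (by omega)
    rw [show a + 1 + (b + 1) = (a + b) + 2 by ring] at h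
    refine hA.congr _ _ _ (hA.contr (a + b) a _ h (by omega)) fun l hl => ?_
    unfold ctr
    show ∑ i, _ = ∑ i, _
    refine Finset.sum_congr rfl fun i _ => ?_
    have h3 : (l.take a).length = a := by simp; omega
    have h4 : (l.take a ++ D.e i :: D.f i :: l.drop a).take (a + 1) = l.take a ++ [D.e i] := by
      rw [List.take_append, h3, List.take_take]
      simp
    have h5 : (l.take a ++ D.e i :: D.f i :: l.drop a).drop (a + 1) = D.f i :: l.drop a := by
      rw [List.drop_append, h3]
      simp [List.drop_of_length_le, h3]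
    show _ = NN.cn D m P Q ((l.take a ++ D.e i :: D.f i :: l.drop a).take (a + 1))
      ((l.take a ++ D.e i :: D.f i :: l.drop a).drop (a + 1))
    rw [h4, h5]

end AlgForms

end Pool.Agent.Helper89.NN
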