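import Pool.Agent.Helper89.NN.Basic

/-!
# Contraction calculus for super forms
-/

namespace Pool.Agent.Helper89.NN

universe u v w

variable {F : Type u} [Field F] {U : Type v} [AddCommGroup U] [Module F U] {ι : Type w} [Fintype ι]
  {D : SS F U ι}

lemma cn_cons (m : ℕ) (P Q : List U → F) (x : U) (l₁ l₂ : List U) :
    cn D m P Q (x :: l₁) l₂ = cn D m (fun l => P (x :: l)) Q l₁ l₂ := by
  induction m generalizing l₁ l₂ with
  | zero => rfl
  | succ m ih => exact Finset.sum_congr rfl fun i _ => by rw [List.cons_append, ih]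

lemma cn_append (m : ℕ) (P Q : List U → F) (l₀ l₁ l₂ : List U) :
    cn D m P Q (l₀ ++ l₁) l₂ = cn D m (fun l => P (l₀ ++ l)) Q l₁ l₂ := by
  induction l₀ generalizing P with
  | nil => rfl
  | cons x l₀ ih => rw [List.cons_append, cn_cons, ih]; rfl

lemma cn_congr {m : ℕ} {P P' Q Q' : List U → F} {n₁ n₂ : ℕ} (l₁ l₂ : List U)
    (h₁ : l₁.length + m = n₁) (h₂ : l₂.length + m = n₂)
    (hP : ∀ l, l.length = n₁ → P l = P' l) (hQ : ∀ l, l.length = n₂ → Q l = Q' l) :
    cn D m P Q l₁ l₂ = cn D m P' Q' l₁ l₂ := by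
  induction m generalizing l₁ l₂ with
  | zero => show P l₁ * Q l₂ = P' l₁ * Q' l₂; rw [hP _ (by omega), hQ _ (by omega)]
  | succ m ih =>
    exact Finset.sum_congr rfl fun i _ => ih _ _ (by simp; omega) (by simp; omega)

lemma cn_add_left (m : ℕ) (P P' Q : List U → F) (l₁ l₂ : List U) :
    cn D m (fun l => P l + P' l) Q l₁ l₂ = cn D m P Q l₁ l₂ + cn D m P' Q l₁ l₂ := by
  induction m generalizing l₁ l₂ with
  | zero => exact add_mul _ _ _
  | succ m ih =>
    show ∑ i, _ = ∑ i, _ + ∑ i, _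
    rw [← Finset.sum_add_distrib]
    exact Finset.sum_congr rfl fun i _ => ih _ _

lemma cn_smul_left (m : ℕ) (c : F) (P Q : List U → F) (l₁ l₂ : List U) :
    cn D m (fun l => c * P l) Q l₁ l₂ = c * cn D m P Q l₁ l₂ := by
  induction m generalizing l₁ l₂ with
  | zero => exact mul_assoc _ _ _
  | succ m ih =>
    show ∑ i, _ = _ * ∑ i, _
    rw [Finset.mul_sum]
    exact Finset.sum_congr rfl fun i _ => ih _ _

lemma cn_add_right (m : ℕ) (P Q Q' : List U → F) (l₁ l₂ : List U) :
    cn D m P (fun l => Q l + Q' l) l₁ l₂ = cn D m P Q l₁ l₂ + cn D m P Q' l₁ l₂ := by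
  induction m generalizing l₁ l₂ with
  | zero => exact mul_add _ _ _
  | succ m ih =>
    show ∑ i, _ = ∑ i, _ + ∑ i, _
    rw [← Finset.sum_add_distrib]
    exact Finset.sum_congr rfl fun i _ => ih _ _

lemma cn_smul_right (m : ℕ) (c : F) (P Q : List U → F) (l₁ l₂ : List U) :
    cn D m P (fun l => c * Q l) l₁ l₂ = c * cn D m P Q l₁ l₂ := by
  induction m generalizing l₁ l₂ with
  | zero => exact mul_left_comm _ _ _
  | succ m ih =>
    show ∑ i, _ = _ * ∑ i, _
    rw [Finset.mul_sum]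
    exact Finset.sum_congr rfl fun i _ => ih _ _

lemma cn_zero_left (m : ℕ) (Q : List U → F) (l₁ l₂ : List U) :
    cn D m (fun _ => 0) Q l₁ l₂ = 0 := by
  induction m generalizing l₁ l₂ with
  | zero => exact zero_mul _
  | succ m ih => exact Finset.sum_eq_zero fun i _ => ih _ _

/-- interchange of two slots of the prefix -/
lemma cn_swap_left {n : ℕ} {P : List U → F} (hP : IsSym D n P) (m : ℕ) (Q : List U → F)
    (l₁ l₁' l₂ : List U) (x y : U) {a b : Bool} (hn : l₁.length + l₁'.length + 2 + m = n)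
    (hx : D.Par a x) (hy : D.Par b y) :
    cn D m P Q (l₁ ++ x :: y :: l₁') l₂ = sg F a b * cn D m P Q (l₁ ++ y :: x :: l₁') l₂ := by
  induction m generalizing l₁' l₂ with
  | zero =>
    show P _ * Q _ = _ * (P _ * Q _)
    rw [hP l₁ l₁' x y a b (by omega) hx hy, mul_assoc]
  | succ m ih =>
    show ∑ i, _ = _ * ∑ i, _
    rw [Finset.mul_sum]
    refine Finset.sum_congr rfl fun i _ => ?_
    have := ih (l₁' ++ [D.e i]) (D.f i :: l₂) (by simp; omega)
    simpa using this

/-- interchange of two slots of the suffix -/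
lemma cn_swap_right {n : ℕ} {Q : List U → F} (hQ : IsSym D n Q) (m : ℕ) (P : List U → F)
    (l₁ l₂ l₂' : List U) (x y : U) {a b : Bool} (hn : l₂.length + l₂'.length + 2 + m = n)
    (hx : D.Par a x) (hy : D.Par b y) :
    cn D m P Q l₁ (l₂ ++ x :: y :: l₂') = sg F a b * cn D m P Q l₁ (l₂ ++ y :: x :: l₂') := by
  induction m generalizing l₁ l₂ with
  | zero =>
    show P _ * Q _ = _ * (P _ * Q _)
    rw [hQ l₂ l₂' x y a b (by omega) hx hy]
    ring
  | succ m ih =>
    show ∑ i, _ = _ * ∑ i, _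
    rw [Finset.mul_sum]
    refine Finset.sum_congr rfl fun i _ => ?_
    have := ih (l₁ ++ [D.e i]) (D.f i :: l₂) (by simp; omega)
    simpa using this

/-- the contraction is linear in a slot of the prefix -/
lemma cn_sum_left {n : ℕ} {P : List U → F} (hP : IsForm D n P) (m : ℕ) (Q : List U → F)
    (l₁ l₁' l₂ : List U) (hn : l₁.length + l₁'.length + 1 + m = n)
    {κ : Type*} (s : Finset κ) (c : κ → F) (x : κ → U) :
    cn D m P Q (l₁ ++ (∑ k ∈ s, c k • x k) :: l₁') l₂ =
      ∑ k ∈ s, c k * cn D m P Q (l₁ ++ x k :: l₁') l₂ := by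
  induction m generalizing l₁' l₂ with
  | zero =>
    show P _ * Q _ = _
    rw [hP.sum l₁ l₁' (by omega), Finset.sum_mul]
    exact Finset.sum_congr rfl fun k _ => mul_assoc _ _ _
  | succ m ih =>
    show ∑ i, _ = _
    have h1 : ∀ i, cn D m P Q (l₁ ++ (∑ k ∈ s, c k • x k) :: l₁' ++ [D.e i]) (D.f i :: l₂) =
        ∑ k ∈ s, c k * cn D m P Q (l₁ ++ x k :: l₁' ++ [D.e i]) (D.f i :: l₂) := by
      intro i
      have := ih (l₁' ++ [D.e i]) (D.f i :: l₂) (by simp; omega)
      simpa using this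
    rw [Finset.sum_congr rfl fun i _ => h1 i, Finset.sum_comm]
    exact Finset.sum_congr rfl fun k _ => by rw [← Finset.mul_sum]; rfl

lemma cn_sum_right {n : ℕ} {Q : List U → F} (hQ : IsForm D n Q) (m : ℕ) (P : List U → F)
    (l₁ l₂ l₂' : List U) (hn : l₂.length + l₂'.length + 1 + m = n)
    {κ : Type*} (s : Finset κ) (c : κ → F) (x : κ → U) :
    cn D m P Q l₁ (l₂ ++ (∑ k ∈ s, c k • x k) :: l₂') =
      ∑ k ∈ s, c k * cn D m P Q l₁ (l₂ ++ x k :: l₂') := by
  induction m generalizing l₁ l₂ with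
  | zero =>
    show P _ * Q _ = _
    rw [hQ.sum l₂ l₂' (by omega), Finset.mul_sum]
    exact Finset.sum_congr rfl fun k _ => mul_left_comm _ _ _
  | succ m ih =>
    show ∑ i, _ = _
    have h1 : ∀ i, cn D m P Q (l₁ ++ [D.e i]) (D.f i :: (l₂ ++ (∑ k ∈ s, c k • x k) :: l₂')) =
        ∑ k ∈ s, c k * cn D m P Q (l₁ ++ [D.e i]) (D.f i :: (l₂ ++ x k :: l₂')) := by
      intro i
      have := ih (l₁ ++ [D.e i]) (D.f i :: l₂) (by simp; omega)
      simpa using this
    rw [Finset.sum_congr rfl fun i _ => h1 i, Finset.sum_comm]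
    exact Finset.sum_congr rfl fun k _ => by rw [← Finset.mul_sum]; rfl

/-- The derivation, contracted with a symmetric form. -/
lemma cn_der {n₁ n₂ : ℕ} {P Q : List U → F} (hP : IsSym D n₁ P) (hQ : IsSym D n₂ Q)
    (A : U →ₗ[F] U) (hA : ∀ i, D.Par (D.p i) (A (D.e i))) (m : ℕ) (l₀ l₂ : List U)
    (h₁ : l₀.length + m = n₁) (h₂ : l₂.length + m = n₂) :
    cn D m (fun l => der A (fun l' => P (l₀ ++ l')) l) Q [] l₂ =
      m * ∑ i, cn D (m - 1) P Q (l₀ ++ [A (D.e i)]) (D.f i :: l₂) := by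
  induction m generalizing l₀ l₂ with
  | zero =>
    show der A _ [] * _ = _
    simp [der]
  | succ m ih =>
    have key : ∀ i, cn D m (fun l => der A (fun l' => P (l₀ ++ l')) l) Q ([] ++ [D.e i])
        (D.f i :: l₂) = cn D m P Q (l₀ ++ [A (D.e i)]) (D.f i :: l₂) +
          m * ∑ j, cn D (m - 1) P Q (l₀ ++ [D.e i] ++ [A (D.e j)]) (D.f j :: D.f i :: l₂) := by
      intro i
      rw [List.nil_append, cn_cons]
      have h1 : (fun l => der A (fun l' => P (l₀ ++ l')) (D.e i :: l)) =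
          fun l => P (l₀ ++ A (D.e i) :: l) +
            der A (fun l' => P (l₀ ++ [D.e i] ++ l')) l := by
        funext l
        show P _ + der A _ l = _
        congr 2
        funext l'
        simp
      rw [h1, cn_add_left, ih (l₀ ++ [D.e i]) (D.f i :: l₂) (by simp; omega) (by simp; omega)]
      congr 1
      rw [cn_append m P Q l₀ [A (D.e i)], cn_cons]
    show ∑ i, _ = _
    rw [Finset.sum_congr rfl fun i _ => key i, Finset.sum_add_distrib, ← Finset.mul_sum]
    rcases m with _ | m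
    · simp
    · have h2 : ∑ i, ∑ j, cn D (m + 1 - 1) P Q (l₀ ++ [D.e i] ++ [A (D.e j)])
          (D.f j :: D.f i :: l₂) = ∑ i, cn D (m + 1) P Q (l₀ ++ [A (D.e i)]) (D.f i :: l₂) := by
        rw [Finset.sum_comm]
        refine Finset.sum_congr rfl fun j _ => ?_
        show _ = ∑ i, cn D m P Q _ _
        refine Finset.sum_congr rfl fun i _ => ?_
        have h3 := cn_swap_left hP m Q l₀ [] (D.f j :: D.f i :: l₂) (D.e i) (A (D.e j))
          (by simp; omega) (D.par_e i) (hA j)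
        have h4 := cn_swap_right hQ m P (l₀ ++ A (D.e j) :: D.e i :: []) [] l₂ (D.f j) (D.f i)
          (by simp; omega) (D.par_f j) (D.par_f i)
        simp only [List.nil_append] at h4
        rw [h4, ← mul_assoc, sg_comm (D.p j) (D.p i), sg_mul_sg, one_mul] at h3
        simpa using h3
      rw [h2, show m + 1 + 1 - 1 = m + 1 from rfl]
      push_cast
      ring

end Pool.Agent.Helper89.NN
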