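import Pool.Agent.Helper89.NN.StrZero

/-!
# The end of Lemma B and the chain of contractions
-/

namespace Pool.Agent.Helper89.NN

universe u v w

variable {F : Type u} [Field F] {U : Type v} [AddCommGroup U] [Module F U] {ι : Type w} [Fintype ι]
  {D : SS F U ι}

section calculus

lemma cn_fsum_left {κ : Type*} (s : Finset κ) (m : ℕ) (P : κ → List U → F) (Q : List U → F)
    (l₁ l₂ : List U) :
    cn D m (fun l => ∑ k ∈ s, P k l) Q l₁ l₂ = ∑ k ∈ s, cn D m (P k) Q l₁ l₂ := by
  induction m generalizing l₁ l₂ with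
  | zero => exact Finset.sum_mul _ _ _
  | succ m ih =>
    show ∑ i, _ = ∑ k ∈ s, ∑ i, _
    rw [Finset.sum_comm]
    exact Finset.sum_congr rfl fun i _ => ih _ _

lemma cn_fsum_right {κ : Type*} (s : Finset κ) (m : ℕ) (P : List U → F) (Q : κ → List U → F)
    (l₁ l₂ : List U) :
    cn D m P (fun l => ∑ k ∈ s, Q k l) l₁ l₂ = ∑ k ∈ s, cn D m P (Q k) l₁ l₂ := by
  induction m generalizing l₁ l₂ with
  | zero => exact Finset.mul_sum _ _ _
  | succ m ih =>
    show ∑ i, _ = ∑ k ∈ s, ∑ i, _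
    rw [Finset.sum_comm]
    exact Finset.sum_congr rfl fun i _ => ih _ _

/-- all the elements of the list are homogeneous -/
def Hom (D : SS F U ι) (l : List U) : Prop := ∀ x ∈ l, ∃ a, D.Par a x

lemma move_pair {n : ℕ} {Q : List U → F} (hQ : IsSym D n Q) (l₀ l l' : List U) (x y : U)
    {a : Bool} (hx : D.Par a x) (hy : D.Par a y) (hl : Hom D l)
    (hn : l₀.length + l.length + l'.length + 2 = n) :
    Q (l₀ ++ (l ++ x :: y :: l')) = Q (l₀ ++ x :: y :: (l ++ l')) := by
  induction l generalizing l₀ with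
  | nil => rfl
  | cons z l ih =>
    obtain ⟨c, hz⟩ := hl z (List.mem_cons_self)
    have h1 := ih (l₀ ++ [z]) (fun x hx => hl x (List.mem_cons_of_mem _ hx)) (by simp at hn ⊢; omega)
    have h2 := hQ l₀ (y :: (l ++ l')) z x c a (by simp at hn ⊢; omega) hz hx
    have h3 := hQ (l₀ ++ [x]) (l ++ l') z y c a (by simp at hn ⊢; omega) hz hy
    simp only [List.append_assoc, List.cons_append, List.nil_append] at h1 h2 h3 ⊢
    rw [h1, h2, h3, ← mul_assoc, sg_mul_sg, one_mul]

lemma cn_pair_right {n : ℕ} {Q : List U → F} (hQ : IsSym D n Q) (m : ℕ) (P : List U → F)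
    (l₁ l₂ : List U) (x y : U) {a : Bool} (hx : D.Par a x) (hy : D.Par a y) (hl : Hom D l₂)
    (hn : l₂.length + 2 + m = n) :
    cn D m P Q l₁ (l₂ ++ [x, y]) = cn D m P (fun l => Q (x :: y :: l)) l₁ l₂ := by
  induction m generalizing l₁ l₂ with
  | zero =>
    show P l₁ * Q _ = P l₁ * Q _
    have := move_pair hQ [] l₂ [] x y hx hy hl (by simp; omega)
    simp only [List.nil_append, List.append_nil] at this
    rw [this]
  | succ m ih =>
    refine Finset.sum_congr rfl fun i _ => ?_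
    have := ih (l₁ ++ [D.e i]) (D.f i :: l₂) (by
      intro z hz
      rcases List.mem_cons.mp hz with rfl | hz
      · exact ⟨_, D.par_f i⟩
      · exact hl z hz) (by simp; omega)
    exact this

lemma kap_eq {m : ℕ} {P : List U → F} (hS : IsSym D (m + 2) P) :
    kap D m P = cn D m (ctr D 0 P) (ctr D 0 P) [] [] := by
  have h1 : ctr D 0 P = fun l => ∑ i, P (D.e i :: D.f i :: l) := rfl
  rw [h1, cn_fsum_left]
  unfold kap
  refine Finset.sum_congr rfl fun i _ => ?_
  rw [cn_fsum_right]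
  refine Finset.sum_congr rfl fun j _ => ?_
  show cn D m P P [D.e i, D.f i] [D.e j, D.f j] = _
  rw [cn_cons, cn_cons]
  exact cn_pair_right hS m _ [] [] (D.e j) (D.f j) (D.par_e j) (D.par_f j)
    (fun x hx => absurd hx (by simp)) (by simp; omega)

lemma IsSym.ctr {m : ℕ} {P : List U → F} (hS : IsSym D (m + 2) P) : IsSym D m (ctr D 0 P) := by
  intro l₁ l₂ x y a b hl hx hy
  show ∑ i, P (D.e i :: D.f i :: (l₁ ++ x :: y :: l₂)) =
    sg F a b * ∑ i, P (D.e i :: D.f i :: (l₁ ++ y :: x :: l₂))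
  rw [Finset.mul_sum]
  refine Finset.sum_congr rfl fun i _ => ?_
  have := hS (D.e i :: D.f i :: l₁) l₂ x y a b (by simp; omega) hx hy
  simpa using this

end calculus

section
variable [CharZero F] {alg : ℕ → (List U → F) → Prop}

lemma sw2_explicit (t : List U → F) (x y z w : U) : sw D 2 t [x, y, z, w] =
    2⁻¹ * (t [x, y, w, z] + t [x, y, w, D.ε z] + t [x, y, D.ε w, z] - t [x, y, D.ε w, D.ε z]) :=
  rfl

lemma SK_skew (hA : AlgForms D alg) {t : List U → F} (ht : alg 4 t)
    (hk : ∀ v z w c d, D.π v = v → D.Par c z → D.Par d w → t [v, v, z, w] = 0) :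
    SK D alg (skew D t) := by
  have hf := hA.form _ _ ht
  have h0 := hA.swap 4 0 _ ht (by omega)
  have hf0 := hA.form _ _ h0
  refine ⟨alg_skew hA ht, ?_, ?_, ?_⟩
  · intro x y z w a b hx hy
    have e1 : ∀ z w, sw D 0 t [x, y, z, w] = sg F a b * t [y, x, z, w] := fun z w => sw0 hf hx hy
    have e2 : ∀ z w, sw D 0 t [y, x, z, w] = sg F a b * t [x, y, z, w] := fun z w => by
      rw [sw0 hf hy hx, sg_comm]
    have hg : sg F a b * sg F a b = 1 := sg_mul_sg _ _
    unfold skew
    simp only [sw2_explicit, e1, e2]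
    linear_combination (- t [x, y, z, w] + 2⁻¹ * (t [x, y, w, z] + t [x, y, w, D.ε z] +
      t [x, y, D.ε w, z] - t [x, y, D.ε w, D.ε z])) * hg
  · intro x y z w a b hz hw
    have hg : sg F a b * sg F a b = 1 := sg_mul_sg _ _
    unfold skew
    rw [sw2 hf hz hw, sw2 hf0 hz hw, sw2 hf hw hz, sw2 hf0 hw hz, sg_comm b a]
    linear_combination (- t [x, y, z, w] + sw D 0 t [x, y, z, w]) * hg
  · intro i j a b
    have hPf : ∀ i : Vx D, D.Par true (D.f i) := fun i => by
      have := D.par_f i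
      rwa [pV] at this
    have key : ∀ z w c d, D.Par c z → D.Par d w →
        t [D.f i, D.f j, z, w] + t [D.f j, D.f i, z, w] = 0 := by
      intro z w c d hz hw
      have h1 := hk (D.f i + D.f j) z w c d (by rw [map_add, π_fV, π_fV]) hz hw
      have h2 := hk (D.f i) z w c d (π_fV i) hz hw
      have h3 := hk (D.f j) z w c d (π_fV j) hz hw
      have e1 := hf.add [] [D.f i + D.f j, z, w] (D.f i) (D.f j) rfl
      have e2 := hf.add [D.f i] [z, w] (D.f i) (D.f j) rfl
      have e3 := hf.add [D.f j] [z, w] (D.f i) (D.f j) rfl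
      simp only [List.nil_append, List.cons_append] at e1 e2 e3
      rw [e1, e2, e3, h2, h3] at h1
      linear_combination h1
    have e1 : ∀ z w, sw D 0 t [D.f i, D.f j, z, w] = - t [D.f j, D.f i, z, w] := fun z w => by
      rw [sw0 hf (hPf i) (hPf j)]; simp [sg]
    unfold skew
    rw [sw2 hf (D.par_e a) (D.par_e b), sw2 hf0 (D.par_e a) (D.par_e b), e1, e1]
    linear_combination key _ _ _ _ (D.par_e a) (D.par_e b) -
      sg F (D.p a) (D.p b) * key _ _ _ _ (D.par_e b) (D.par_e a)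

/-- LEMMA B. -/
theorem lemmaB (hA : AlgForms D alg) (hM : Mono D alg) (hV : ScalarOnV D alg)
    (hb : 2 * Fintype.card (Wx D) ^ 2 + Fintype.card (Wx D) < bV D) {m : ℕ} {P : List U → F}
    (hP : alg (m + 2) P) (hS : IsSym D (m + 2) P) :
    ((m + 1 : ℕ) : F) * cn D m (ctr D 0 P) (ctr D 0 P) [] [] =
      (D.δ + m) * cn D (m + 2) P P [] [] := by
  have h1 : SK D alg (skew D (Psi D m P)) := SK_skew hA (alg_Psi hA hP)
    fun v z w c d hv hz hw => Psi_kill hA (hM.monodromy hA) hP hS hv hz hw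
  have h2 := lemmaA hA hM hV hb h1
  rw [str_skew_Psi hA hP hS, kap_eq hS] at h2
  have h3 : (2 : F) ≠ 0 := two_ne_zero
  have h4 := (mul_eq_zero.mp h2).resolve_left h3
  linear_combination h4

/-- The chain: if `δ = 2 - 2k`, the `k`-fold contraction of a symmetric form on `2k` slots
vanishes. -/
theorem chain (hA : AlgForms D alg) (hM : Mono D alg) (hV : ScalarOnV D alg)
    (hb : 2 * Fintype.card (Wx D) ^ 2 + Fintype.card (Wx D) < bV D) {k : ℕ} (hk : 1 ≤ k)
    (hδ : D.δ = 2 - 2 * k) {P : List U → F} (hP : alg (2 * k) P) (hS : IsSym D (2 * k) P) :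
    (ctr D 0)^[k] P [] = 0 := by
  have key : ∀ j : ℕ, j < k → ∀ P, alg (2 * (j + 1)) P → IsSym D (2 * (j + 1)) P →
      (D.δ + (2 * j : ℕ)) * cn D (2 * (j + 1)) P P [] [] = 0 →
      (ctr D 0)^[j + 1] P [] = 0 := by
    intro j
    induction j with
    | zero =>
      intro _ P hP hS h0
      have h1 := lemmaB hA hM hV hb (m := 0) hP hS
      simp only [mul_zero, Nat.cast_zero, add_zero] at h0 h1
      rw [h0] at h1
      have h2 : ctr D 0 P [] * ctr D 0 P [] = 0 := by
        have h3 : cn D 0 (ctr D 0 P) (ctr D 0 P) [] [] = 0 := by simpa using h1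
        exact h3
      exact mul_self_eq_zero.mp h2
    | succ j ih =>
      intro hj P hP hS h0
      have h1 := lemmaB hA hM hV hb (m := 2 * (j + 1)) hP hS
      have h0' : (D.δ + ((2 * (j + 1) : ℕ) : F)) * cn D (2 * (j + 1) + 2) P P [] [] = 0 := h0
      rw [h0'] at h1
      have h2 : cn D (2 * (j + 1)) (ctr D 0 P) (ctr D 0 P) [] [] = 0 := by
        refine (mul_eq_zero.mp h1).resolve_left ?_
        exact_mod_cast (by omega : 2 * (j + 1) + 1 ≠ 0)
      have h3 : (ctr D 0)^[j + 1 + 1] P [] = (ctr D 0)^[j + 1] (ctr D 0 P) [] := rfl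
      rw [h3]
      exact ih (by omega) _ (hA.contr _ 0 _ hP (by omega)) (IsSym.ctr hS) (by rw [h2, mul_zero])
  obtain ⟨j, rfl⟩ : ∃ j, k = j + 1 := ⟨k - 1, by omega⟩
  refine key j (by omega) P hP hS ?_
  have : D.δ + ((2 * j : ℕ) : F) = 0 := by
    rw [hδ]
    push_cast
    ring
  rw [this, zero_mul]

end

end Pool.Agent.Helper89.NN
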