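import Pool.Agent.Helper89.NN.Link
import Pool.Agent.Helper89.NN.Chain
import Pool.Agent.Helper76.NN.Sym

/-!
# The complement of the idempotent has no even part
-/

namespace Pool.Agent.Helper89.NN

open Pool.Agent.Helper29.CPB TT

universe u v

lemma even_of_skew {F : Type*} [Field F] [CharZero F] {U : Type*} [AddCommGroup U] [Module F U]
    [FiniteDimensional F U] (C : U →ₗ[F] U →ₗ[F] F) (hs : ∀ x y, C x y = - C y x)
    (hn : ∀ x, (∀ y, C x y = 0) → x = 0) : Even (Module.finrank F U) := by
  by_contra hodd
  rw [Nat.not_even_iff_odd] at hodd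
  let b := Module.finBasis F U
  let M : Matrix (Fin (Module.finrank F U)) (Fin (Module.finrank F U)) F :=
    fun i j => C (b i) (b j)
  have hM : M.transpose = -M := by
    ext i j
    exact hs _ _
  have hdet : M.det = 0 := by
    have h1 : M.det = - M.det := by
      conv_lhs => rw [← Matrix.det_transpose, hM, Matrix.det_neg, Fintype.card_fin,
        hodd.neg_one_pow, neg_one_mul]
    have h2 : (2 : F) ≠ 0 := two_ne_zero
    have h3 : 2 * M.det = 0 := by linear_combination h1
    exact (mul_eq_zero.mp h3).resolve_left h2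
  obtain ⟨v, hv, hv0⟩ := Matrix.exists_vecMul_eq_zero_iff.mpr hdet
  apply hv
  have h1 : ∑ i, v i • b i = 0 := by
    apply hn
    have h2 : C (∑ i, v i • b i) = 0 := by
      apply b.ext
      intro j
      have h3 := congrFun hv0 j
      rw [map_sum, LinearMap.sum_apply]
      simp only [map_smul, LinearMap.smul_apply, smul_eq_mul, LinearMap.zero_apply]
      exact h3
    intro y
    rw [h2, LinearMap.zero_apply]
  have h4 := Fintype.linearIndependent_iff.mp b.linearIndependent v h1
  exact funext h4

variable {F : Type u} [Field F] [CharZero F] {X Z S : Variety.{u, v} F}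

/-- the sign `-1` on the even degrees above the middle -/
noncomputable def tau (S : Variety.{u, v} F) : Module.End F S.H :=
  ∑ j ∈ Finset.Icc (0 : ℤ) (2 * S.dim), (if Even j ∧ (S.dim : ℤ) < j then (-1 : F) else 1) • S.π j

lemma tau_apply {j : ℤ} {x : S.H} (hx : S.π j x = x) :
    tau S x = (if Even j ∧ (S.dim : ℤ) < j then (-1 : F) else 1) • x := by
  unfold tau
  rw [LinearMap.sum_apply]
  by_cases hi : j ∈ Finset.Icc (0 : ℤ) (2 * S.dim)
  · rw [Finset.sum_eq_single j]
    · rw [LinearMap.smul_apply, hx]
    · intro i _ hji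
      rw [LinearMap.smul_apply, S.π_apply_ne hji hx, smul_zero]
    · intro h
      exact absurd hi h
  · have h0 : x = 0 := S.homog_zero (by
      rw [Finset.mem_Icc, not_and_or] at hi; omega) hx
    subst h0
    simp

lemma tau_tau (x : S.H) : tau S (tau S x) = x := by
  have h : tau S * tau S = 1 := by
    apply S.ext_homog
    intro i x hx
    rw [Module.End.mul_apply, tau_apply hx, map_smul, tau_apply hx, smul_smul,
      Module.End.one_apply]
    split_ifs <;> simp
  rw [← Module.End.mul_apply, h, Module.End.one_apply]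

lemma tau_comm {p : Module.End F S.H} (hp : p ∈ S.corr 0) (x : S.H) :
    p (tau S x) = tau S (p x) := by
  have h : p * tau S = tau S * p := by
    apply S.ext_homog
    intro i x hx
    rw [Module.End.mul_apply, Module.End.mul_apply, tau_apply hx, map_smul,
      tau_apply (S.corr_homog hp (by ring) hx)]
  have := congrArg (fun g => g x) h
  exact this

lemma tau_skew (P : Powers S) (hodd : Odd S.dim) (x y : S.H) :
    P.B x (tau S y) = - P.B y (tau S x) := by
  refine ext_bilin (B := P.B.compl₂ (tau S)) (C := - (P.B.compl₂ (tau S)).flip) ?_ x y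
  intro i j x y hx hy
  show P.B x (tau S y) = - P.B y (tau S x)
  rw [tau_apply hx, tau_apply hy, map_smul, map_smul, smul_eq_mul, smul_eq_mul]
  by_cases hij : i + j = 2 * (S.dim : ℤ)
  · rw [P.duality.comm i j x y hx hy, natAbs_mul_parity hij]
    have hd : Odd (S.dim : ℤ) := by exact_mod_cast hodd
    rcases PData.neg_one_pow_cases (F := F) i with ⟨ha, ha'⟩ | ⟨ha, ha'⟩
    · have hj' : Even j := by
        obtain ⟨c, hc⟩ := ha'
        exact ⟨S.dim - c, by omega⟩
      have hne : i ≠ S.dim := by
        rintro rfl
        exact (Int.not_even_iff_odd.mpr hd) ha'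
      rw [ha]
      by_cases hlt : (S.dim : ℤ) < i
      · rw [if_neg (by omega), if_pos ⟨ha', hlt⟩]; ring
      · rw [if_pos ⟨hj', by omega⟩, if_neg (by omega)]; ring
    · have hj' : ¬ Even j := by
        rw [Int.not_even_iff_odd]
        obtain ⟨c, hc⟩ := ha'
        exact ⟨S.dim - c - 1, by omega⟩
      rw [ha, if_neg (fun h => hj' h.1), if_neg (fun h => Int.not_even_iff_odd.mpr ha' h.1)]
      ring
  · rw [P.duality.deg i j x y hx hy hij, P.duality.deg j i y x hy hx (by omega)]
    ring

namespace PData

variable {G : GenericSection Z S 1} {P : Powers S} (E : PData G P)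

theorem finrank_U_even : Even (Module.finrank F E.U) := by
  let C : E.U →ₗ[F] E.U →ₗ[F] F := P.B.compl₁₂ E.U.subtype (tau S ∘ₗ E.U.subtype)
  have hC : ∀ x y : E.U, C x y = P.B (x : S.H) (tau S (y : S.H)) := fun _ _ => rfl
  apply even_of_skew C
  · intro x y
    rw [hC, hC, tau_skew P E.odd]
  · intro x hx
    apply Subtype.ext
    apply P.duality.nondeg
    intro y
    have h1 := hx (E.pU (tau S y))
    rw [hC, E.pU_coe, ← tau_comm E.alg, tau_tau, E.B_p] at h1
    exact h1

lemma finrank_ker_le : Module.finrank F (LinearMap.ker G.dn) ≤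
    Module.finrank F (LinearMap.range E.πU) := by
  let φ : LinearMap.ker G.dn →ₗ[F] LinearMap.range E.πU :=
    { toFun := fun y => ⟨⟨y.1, E.mem_iff.mpr (E.van _ y.2)⟩,
        ⟨⟨y.1, E.mem_iff.mpr (E.van _ y.2)⟩, Subtype.ext (vanProj_of_ker G y.2)⟩⟩
      map_add' := fun _ _ => rfl
      map_smul' := fun _ _ => rfl }
  apply LinearMap.finrank_le_finrank_of_injective (f := φ)
  intro x y h
  apply Subtype.ext
  exact congrArg (fun z => ((z.1 : E.U) : S.H)) h

lemma finrank_ker_π_le : Module.finrank F (LinearMap.ker E.πU) ≤ Module.finrank F Z.H := by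
  let φ : LinearMap.ker E.πU →ₗ[F] LinearMap.range G.up :=
    { toFun := fun y => ⟨(y.1 : S.H), by
        have h1 : E.πU y.1 = 0 := y.2
        have h2 := congrArg (Subtype.val : E.U → S.H) h1
        rw [E.πU_coe] at h2
        exact (vanProj_zero_iff G).mp h2⟩
      map_add' := fun _ _ => rfl
      map_smul' := fun _ _ => rfl }
  refine (LinearMap.finrank_le_finrank_of_injective (f := φ) ?_).trans
    (LinearMap.finrank_range_le G.up)
  intro x y h
  apply Subtype.ext
  apply Subtype.ext
  exact congrArg (fun z : LinearMap.range G.up => (z : S.H)) h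

/-- Under the nilpotence conjecture for the powers of `S` there is no even part. -/
theorem even_zero (hN : ∀ θ, Id G θ → NT S (θ * E.p)) {Δ : Set S.H}
    (hM : IsLefschetz P.B P.cyc G.up G.dn Δ)
    (hL : 2 * Module.finrank F Z.H ^ 2 + Module.finrank F Z.H <
      Module.finrank F (LinearMap.ker G.dn)) (hNN : ∀ k, P.Nilpotence k) (x : S.H)
    (hx : E.p x = x) (hx' : S.sgn x = x) : x = 0 := by
  classical
  by_contra hx0
  -- a homogeneous isotropic even vector
  obtain ⟨j, hj⟩ : ∃ j, S.π j x ≠ 0 := by
    by_contra hcon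
    push Not at hcon
    exact hx0 (S.eq_zero_of_forall_π hcon)
  set w : S.H := S.π j x with hw
  have hwj : S.π j w = w := S.π_apply_idem j x
  have hpw : E.p w = w := by
    have := S.corr_deg_apply E.alg j x
    rw [mul_zero, add_zero, hx] at this
    exact this
  have hsw : S.sgn w = w := by
    have h1 : S.sgn * S.π j = S.π j * S.sgn := by
      apply S.ext_homog
      intro i y hy
      rw [Module.End.mul_apply, Module.End.mul_apply, S.sgn_apply hy, map_smul]
      by_cases hij : j = i
      · subst hij; rw [hy, S.sgn_apply hy]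
      · rw [S.π_apply_ne hij hy, map_zero, smul_zero]
    have h2 := congrArg (fun g => g x) h1
    simp only [Module.End.mul_apply] at h2
    rw [hw, h2, hx']
  have hje : Even j := by
    rw [← Int.not_odd_iff_even]
    intro ho
    rw [S.sgn_apply hwj, (Int.natAbs_odd.mpr ho).neg_one_pow, neg_one_smul] at hsw
    have h2 : (2 : F) ≠ 0 := two_ne_zero
    have h3 : (2 : F) • w = 0 := by
      rw [two_smul]
      nth_rewrite 1 [← hsw]
      rw [neg_add_cancel]
    exact hj ((smul_eq_zero.mp h3).resolve_left h2)
  have hd : Odd (S.dim : ℤ) := by exact_mod_cast E.odd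
  have hww : P.B w w = 0 := P.duality.deg j j w w hwj hwj (by
    intro h
    have : j = S.dim := by omega
    rw [this] at hje
    exact (Int.not_even_iff_odd.mpr hd) hje)
  -- the super space
  obtain ⟨n, D, h1, h2, h3⟩ := E.exists_D
  have C : Comp E D := ⟨h1, h2, h3⟩
  have hA := C.algForms
  have hMo := C.mono hM
  have hV := C.scalar hN
  have cV : bV D = Module.finrank F (LinearMap.range E.πU) := by
    unfold bV
    rw [← h3]
    exact D.card_q
  have cU : Fintype.card (Fin n) = Module.finrank F E.U := D.card_eq
  have cVW : Fintype.card (Vx D) + Fintype.card (Wx D) = Fintype.card (Fin n) := by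
    have h4 := Fintype.card_subtype_compl (fun i : Fin n => D.q i = true)
    have h5 := Fintype.card_subtype_le (fun i : Fin n => D.q i = true)
    unfold Vx Wx
    omega
  have cW : Fintype.card (Wx D) ≤ Module.finrank F Z.H := by
    have h4 := LinearMap.finrank_range_add_finrank_ker E.πU
    have h5 := E.finrank_ker_π_le
    have h6 : Fintype.card (Vx D) = bV D := rfl
    omega
  have hb : 2 * Fintype.card (Wx D) ^ 2 + Fintype.card (Wx D) < bV D := by
    have h4 := E.finrank_ker_le
    have h5 : Fintype.card (Wx D) ^ 2 ≤ Module.finrank F Z.H ^ 2 := Nat.pow_le_pow_left cW 2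
    omega
  -- the super dimension
  obtain ⟨k, hk1, hδ⟩ : ∃ k : ℕ, 1 ≤ k ∧ D.δ = 2 - 2 * k := by
    set a := Fintype.card {i : Fin n // D.p i = false} with ha
    set b := Fintype.card {i : Fin n // ¬ D.p i = false} with hb'
    have hab : a + b = Fintype.card (Fin n) := by
      have h4 := Fintype.card_subtype_compl (fun i : Fin n => D.p i = false)
      have h5 := Fintype.card_subtype_le (fun i : Fin n => D.p i = false)
      omega
    have hδ : D.δ = (a : F) - b := by
      unfold SS.δ
      rw [Finset.sum_congr rfl fun i _ => B_ef (D := D) i,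
        ← Fintype.sum_subtype_add_sum_subtype (fun i : Fin n => D.p i = false), sub_eq_add_neg]
      congr 1
      · rw [Finset.sum_congr rfl fun (i : {i : Fin n // D.p i = false}) _ => by
          rw [i.2, sp_false], Finset.sum_const, Finset.card_univ, nsmul_eq_mul, mul_one]
      · rw [Finset.sum_congr rfl fun (i : {i : Fin n // ¬ D.p i = false}) _ => by
          rw [(by simpa using i.2 : D.p i = true), sp_true],
          Finset.sum_const, Finset.card_univ, nsmul_eq_mul, mul_neg_one]
    have haW : a ≤ Fintype.card (Wx D) := by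
      apply Fintype.card_le_of_injective (fun i : {i : Fin n // D.p i = false} =>
        (⟨i.1, fun h => by
          have h4 := D.p_q i.1 h
          rw [i.2] at h4
          exact absurd h4 (by simp)⟩ : Wx D))
      intro i i' h
      apply Subtype.ext
      exact congrArg (fun z : Wx D => z.1) h
    have hbV : bV D ≤ b := by
      apply Fintype.card_le_of_injective (fun i : Vx D =>
        (⟨i.1, by rw [D.p_q i.1 i.2]; simp⟩ : {i : Fin n // ¬ D.p i = false}))
      intro i i' h
      apply Subtype.ext
      exact congrArg (fun z : {i : Fin n // ¬ D.p i = false} => z.1) h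
    have hev : Even (a + b) := by
      rw [hab, cU]
      exact E.finrank_U_even
    obtain ⟨m, hm⟩ := hev
    refine ⟨m - a + 1, by omega, ?_⟩
    rw [hδ]
    have h6 : a ≤ m := by omega
    have h7 : b = 2 * m - a := by omega
    rw [h7]
    push_cast [Nat.cast_sub h6, Nat.cast_sub (show a ≤ 2 * m by omega)]
    ring
  -- the numerically trivial symmetrised form
  have hwU : w ∈ E.U := E.mem_iff.mpr hpw
  set wU : E.U := ⟨w, hwU⟩ with hwUd
  obtain ⟨T, ⟨t', ht', hT⟩, hTn, c, hc, hTw⟩ := Pool.Agent.Helper76.NN.exists_T hA k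
    (fun Q hQ hS => chain hA hMo hV hb hk1 hδ hQ hS) wU
    (Subtype.ext (by rw [C.ε_coe]; exact hsw)) (by rw [C.B_coe]; exact hww)
  obtain ⟨T', hT', hTT⟩ := P.slots 0 ht' E.alg (by omega)
  have hTU : ∀ l : List S.H, l.length = 2 * k → T' l = T (l.map E.pU) := by
    intro l hl
    have h4 := hTT [] l rfl (by simpa using hl)
    simp only [List.nil_append] at h4
    rw [h4, hT _ (by simpa using hl), List.map_map]
    rfl
  have hform := P.cycles.form _ _ hT'
  obtain ⟨N, hNil⟩ := hNN k T' hT' (by
    intro Q hQ
    have h4 := C.link (2 * k) hform (P.cycles.form _ _ hQ) hTU [] [] (by simp) (by simp)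
    rw [List.map_nil] at h4
    rw [h4]
    exact hTn _ ⟨Q, hQ, fun l _ => rfl⟩)
  -- contradiction
  obtain ⟨y, hy⟩ : ∃ y, P.B w y ≠ 0 := by
    by_contra hcon
    push Not at hcon
    exact hj (P.duality.nondeg w hcon)
  have hpow := powForm_prod P w k hform c (by
    intro l hl
    rw [hTU _ (by simp; omega), List.map_append, List.map_replicate]
    have h4 : E.pU w = wU := Subtype.ext hpw
    rw [h4, hTw _ (by simpa using hl), List.map_map]
    congr 2
    apply List.map_congr_left
    intro z _
    show D.B wU (E.pU z) = P.B w z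
    rw [C.B_coe, E.pU_coe, E.B_p]) N (List.replicate k y) (by simp)
  rw [hNil _ (by simp; omega)] at hpow
  have h5 : c ^ (N + 1) * (List.map (fun y => P.B w y) (List.replicate k y)).prod ≠ 0 := by
    rw [List.map_replicate, List.prod_replicate]
    exact mul_ne_zero (pow_ne_zero _ hc) (pow_ne_zero _ hy)
  exact h5 hpow.symm

end PData

end Pool.Agent.Helper89.NN
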