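import Pool.Agent.Helper89.NN.Alg

/-!
# Lemma B: the Casimir identity
-/

namespace Pool.Agent.Helper89.NN

universe u v w

variable {F : Type u} [Field F] {U : Type v} [AddCommGroup U] [Module F U] {ι : Type w} [Fintype ι]
  {D : SS F U ι}

/-- supertrace of a 4-form regarded as an operator on `U ⊗ U` -/
def str₄ (D : SS F U ι) (t : List U → F) : F := ∑ i, ∑ j, t [D.e i, D.e j, D.f j, D.f i]

/-- the 4-form `g` of a symmetric form -/
def gf (D : SS F U ι) (m : ℕ) (P : List U → F) : List U → F :=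
  fun l => cn D m P P (l.take 2) (l.drop 2)

/-- the 2-form `k` of a symmetric form -/
def kf (D : SS F U ι) (m : ℕ) (P : List U → F) : List U → F :=
  fun l => cn D (m + 1) P P (l.take 1) (l.drop 1)

/-- the operator `Ψ` -/
def Psi (D : SS F U ι) (m : ℕ) (P : List U → F) : List U → F :=
  fun l => ((m + 1 : ℕ) : F) * sw D 2 (sw D 1 (sw D 0 (gf D m P))) l - ins 1 2 (frm D) (kf D m P) l

/-- four times the skew part of an operator on `U ⊗ U` -/
def skew (D : SS F U ι) (t : List U → F) : List U → F :=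
  fun l => t l - sw D 0 t l - (sw D 2 t l - sw D 2 (sw D 0 t) l)

lemma der_zero (A : U →ₗ[F] U) (l : List U) : der A (fun _ => (0 : F)) l = 0 := by
  induction l with
  | nil => rfl
  | cons x l ih => show 0 + der A _ l = 0; rw [ih, add_zero]

section
variable [CharZero F]

variable {alg : ℕ → (List U → F) → Prop} (hA : AlgForms D alg) {m : ℕ} {P : List U → F}

lemma alg_gf (hA : AlgForms D alg) (hP : alg (m + 2) P) : alg 4 (gf D m P) :=
  hA.cn hP hP m 2 2 (by omega) (by omega)

lemma alg_kf (hA : AlgForms D alg) (hP : alg (m + 2) P) : alg 2 (kf D m P) :=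
  hA.cn hP hP (m + 1) 1 1 (by omega) (by omega)

lemma alg_Psi (hA : AlgForms D alg) (hP : alg (m + 2) P) : alg 4 (Psi D m P) := by
  have h1 := alg_gf hA hP
  have h2 := hA.swap 4 0 _ h1 (by omega)
  have h3 := hA.swap 4 1 _ h2 (by omega)
  have h4 := hA.swap 4 2 _ h3 (by omega)
  exact hA.sub (hA.nsmul (m + 1) h4) (hA.ins 2 2 1 _ _ hA.diag (alg_kf hA hP) (by omega))

lemma alg_skew (hA : AlgForms D alg) {t : List U → F} (ht : alg 4 t) : alg 4 (skew D t) := by
  have h2 := hA.swap 4 0 _ ht (by omega)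
  exact hA.sub (hA.sub ht h2) (hA.sub (hA.swap 4 2 _ ht (by omega))
    (hA.swap 4 2 _ h2 (by omega)))

lemma sw0 {t : List U → F} (h : IsForm D 4 t) {x y z w : U} {a b : Bool} (hx : D.Par a x)
    (hy : D.Par b y) : sw D 0 t [x, y, z, w] = sg F a b * t [y, x, z, w] :=
  sw_apply h [] [z, w] x y rfl (by simp) hx hy

lemma sw1 {t : List U → F} (h : IsForm D 4 t) {x y z w : U} {a b : Bool} (hy : D.Par a y)
    (hz : D.Par b z) : sw D 1 t [x, y, z, w] = sg F a b * t [x, z, y, w] :=
  sw_apply h [x] [w] y z rfl (by simp) hy hz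

lemma sw2 {t : List U → F} (h : IsForm D 4 t) {x y z w : U} {a b : Bool} (hz : D.Par a z)
    (hw : D.Par b w) : sw D 2 t [x, y, z, w] = sg F a b * t [x, y, w, z] :=
  sw_apply h [x, y] [] z w rfl (by simp) hz hw

lemma Psi_apply (hA : AlgForms D alg) (hP : alg (m + 2) P) {x y z w : U} {a b c d : Bool}
    (hx : D.Par a x) (hy : D.Par b y) (hz : D.Par c z) (hw : D.Par d w) :
    Psi D m P [x, y, z, w] = ((m + 1 : ℕ) : F) * (sg F c d * sg F b d * sg F a d *
      gf D m P [w, x, y, z]) - D.B x w * kf D m P [y, z] := by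
  have h1 := alg_gf hA hP
  have h2 := hA.swap 4 0 _ h1 (by omega)
  have h3 := hA.swap 4 1 _ h2 (by omega)
  show ((m + 1 : ℕ) : F) * sw D 2 (sw D 1 (sw D 0 (gf D m P))) [x, y, z, w] - _ = _
  rw [sw2 (hA.form _ _ h3) hz hw, sw1 (hA.form _ _ h2) hy hw, sw0 (hA.form _ _ h1) hx hw]
  congr 1
  ring

/-- the invariance relation -/
lemma inv_rel (hA : AlgForms D alg) (hM : Monodromy D alg) (hP : alg (m + 2) P)
    (hS : IsSym D (m + 2) P) {v : U} (hv : D.π v = v) (a d : U) :
    ((m + 1 : ℕ) : F) * gf D m P [a, v, v, d] = D.B a v * kf D m P [v, d] := by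
  have hεv : D.ε v = - v := by rw [← hv, D.ε_π, hv]
  have hPar : ∀ i, D.Par (D.p i) (D.N v (D.e i)) := by
    intro i
    show D.ε _ = _
    rw [D.N_apply, map_smul, hεv]
    have h1 := D.B_ε (D.e i) v
    rw [D.ε_e, hεv, map_smul, LinearMap.smul_apply, map_neg, smul_eq_mul] at h1
    rw [smul_neg, ← neg_smul, smul_smul]
    congr 1
    linear_combination h1
  have h1 := cn_der hS hS (D.N v) hPar (m + 1) [a] [d] (by simp; omega) (by simp; omega)
  have h2 : cn D (m + 1) (fun l => der (D.N v) P (a :: l)) P [] [d] = 0 := by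
    rw [cn_congr (P' := fun _ => 0) (Q' := P) (n₁ := m + 1) (n₂ := m + 2) [] [d] (by simp)
      (by simp; omega) (fun l hl => hM _ _ hP v hv _ (by simp [hl])) (fun _ _ => rfl),
      cn_zero_left]
  have h3 : (fun l => der (D.N v) P (a :: l)) =
      fun l => P (D.N v a :: l) + der (D.N v) (fun l' => P ([a] ++ l')) l := rfl
  have hform := hA.form _ _ hP
  rw [h3, cn_add_left, h1] at h2
  have h4 : cn D (m + 1) (fun l => P (D.N v a :: l)) P [] [d] =
      D.B a v * kf D m P [v, d] := by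
    rw [← cn_cons (m + 1) P P (D.N v a) [] [d]]
    have := cn_sum_left hform (m + 1) P [] [] [d] (by simp; omega) (Finset.univ : Finset Unit)
      (fun _ => D.B a v) (fun _ => v)
    simp only [Finset.univ_unique, Finset.sum_const, Finset.card_singleton, one_smul,
      List.nil_append] at this
    exact this
  have h5 : ∑ i, cn D (m + 1 - 1) P P ([a] ++ [D.N v (D.e i)]) (D.f i :: [d]) =
      - gf D m P [a, v, v, d] := by
    have h6 : ∀ i, cn D (m + 1 - 1) P P ([a] ++ [D.N v (D.e i)]) (D.f i :: [d]) =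
        D.B (D.e i) v * cn D m P P [a, v] (D.f i :: [d]) := by
      intro i
      have := cn_sum_left hform m P [a] [] (D.f i :: [d]) (by simp; omega)
        (Finset.univ : Finset Unit) (fun _ => D.B (D.e i) v) (fun _ => v)
      simp only [Finset.univ_unique, Finset.sum_const, Finset.card_singleton, one_smul] at this
      exact this
    rw [Finset.sum_congr rfl fun i _ => h6 i]
    have h7 := cn_sum_right hform m P [a, v] [] [d] (by simp; omega) Finset.univ
      (fun i => D.B (D.e i) v) D.f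
    simp only [List.nil_append] at h7
    rw [← h7, D.zag', hεv]
    have h8 := cn_sum_right hform m P [a, v] [] [d] (by simp; omega)
      (Finset.univ : Finset Unit) (fun _ => -1) (fun _ => v)
    simp only [Finset.univ_unique, Finset.sum_const, Finset.card_singleton, one_smul,
      List.nil_append, neg_smul] at h8
    rw [h8]
    show -1 * cn D m P P [a, v] [v, d] = - cn D m P P [a, v] [v, d]
    ring
  rw [h4, h5] at h2
  linear_combination -h2

/-- `Ψ` kills `v ⊗ v` -/
lemma Psi_kill (hA : AlgForms D alg) (hM : Monodromy D alg) (hP : alg (m + 2) P)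
    (hS : IsSym D (m + 2) P) {v : U} (hv : D.π v = v) {z w : U} {c d : Bool} (hz : D.Par c z)
    (hw : D.Par d w) : Psi D m P [v, v, z, w] = 0 := by
  have hεv : D.ε v = - v := by rw [← hv, D.ε_π, hv]
  have hPv : D.Par true v := by show D.ε v = _; rw [hεv]; simp
  rw [Psi_apply hA hP hPv hPv hz hw]
  have h1 := inv_rel hA hM hP hS hv w z
  have h2 : D.B v w = sg F true d * D.B w v := D.B_swap hPv hw
  have h3 : sg F true d * sg F true d = 1 := sg_mul_sg _ _
  cases c with
  | true =>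
    rw [h2]
    linear_combination (sg F true d) * h1 + (sg F true d) * (((m + 1 : ℕ) : F) *
      gf D m P [w, v, v, z]) * h3
  | false =>
    have h4 : kf D m P [v, z] = 0 := by
      have := (hA.form _ _ (alg_kf hA hP)).even [v, z] rfl
      simp only [List.map_cons, List.map_nil] at this
      have h5 := (hA.form _ _ (alg_kf hA hP)).neg [] [D.ε z] rfl v
      simp only [List.nil_append] at h5
      have hz' : D.ε z = z := by have := hz; simpa [SS.Par] using this
      rw [hεv, h5, hz'] at this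
      have h6 : (2 : F) ≠ 0 := two_ne_zero
      have h7 : 2 * kf D m P [v, z] = 0 := by linear_combination -this
      exact (mul_eq_zero.mp h7).resolve_left h6
    rw [h4] at h1 ⊢
    linear_combination (sg F false d * sg F true d * sg F true d) * h1

/-- the two orders in the Casimir element, in two slots of a form -/
lemma cup_symm_form {n : ℕ} {t : List U → F} (h : IsForm D n t) (l₁ l₂ l₃ : List U)
    (hl : l₁.length + l₂.length + l₃.length + 2 = n) :
    ∑ i, t (l₁ ++ D.e i :: (l₂ ++ D.f i :: l₃)) =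
      ∑ i, sp F (D.p i) * t (l₁ ++ D.f i :: (l₂ ++ D.e i :: l₃)) :=
  D.cup_symm (h.lin₂ l₁ l₂ l₃ hl)

/-- the same with a Koszul sign -/
lemma cup_symm_form_sg {n : ℕ} {t : List U → F} (h : IsForm D n t) (l₁ l₂ l₃ : List U)
    (hl : l₁.length + l₂.length + l₃.length + 2 = n) (b : Bool) :
    ∑ i, sg F (D.p i) b * t (l₁ ++ D.e i :: (l₂ ++ D.f i :: l₃)) =
      ∑ i, sg F (D.p i) b * (sp F (D.p i) * t (l₁ ++ D.f i :: (l₂ ++ D.e i :: l₃))) := by
  cases b with
  | false => simpa using cup_symm_form h l₁ l₂ l₃ hl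
  | true =>
    have h1 := D.cup_symm ((h.lin₂ l₁ l₂ l₃ hl).comp D.ε)
    have e1 : ∀ i, sg F (D.p i) true = sp F (D.p i) := fun i => by
      cases D.p i <;> simp [sg, sp]
    have h2 : ∀ i, ((h.lin₂ l₁ l₂ l₃ hl).comp D.ε) (D.e i) (D.f i) =
        sg F (D.p i) true * t (l₁ ++ D.e i :: (l₂ ++ D.f i :: l₃)) := by
      intro i
      rw [LinearMap.comp_apply, D.ε_e, map_smul, LinearMap.smul_apply, e1]
      rfl
    have h3 : ∀ i, sp F (D.p i) * ((h.lin₂ l₁ l₂ l₃ hl).comp D.ε) (D.f i) (D.e i) =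
        sg F (D.p i) true * (sp F (D.p i) * t (l₁ ++ D.f i :: (l₂ ++ D.e i :: l₃))) := by
      intro i
      rw [LinearMap.comp_apply, D.ε_f, map_smul, LinearMap.smul_apply, e1]
      rfl
    rw [Finset.sum_congr rfl fun i _ => h2 i, Finset.sum_congr rfl fun i _ => h3 i] at h1
    exact h1

/-- symmetry of `g` in the last two slots -/
lemma gf_swap (hS : IsSym D (m + 2) P) {x y z w : U} {a b : Bool} (hz : D.Par a z)
    (hw : D.Par b w) : gf D m P [x, y, z, w] = sg F a b * gf D m P [x, y, w, z] :=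
  cn_swap_right hS m P [x, y] [] [] z w (by simp; omega) hz hw

lemma str_gf (D : SS F U ι) (m : ℕ) (P : List U → F) :
    str₄ D (gf D m P) = cn D (m + 2) P P [] [] := rfl

lemma str_kf (D : SS F U ι) (m : ℕ) (P : List U → F) :
    ∑ i, kf D m P [D.e i, D.f i] = cn D (m + 2) P P [] [] := rfl

/-- the full contraction `κ` of `g` -/
def kap (D : SS F U ι) (m : ℕ) (P : List U → F) : F :=
  ∑ i, ∑ j, gf D m P [D.e i, D.f i, D.e j, D.f j]

lemma str_Psi (hA : AlgForms D alg) (hP : alg (m + 2) P) :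
    str₄ D (Psi D m P) = ((m + 1 : ℕ) : F) * kap D m P - D.δ * cn D (m + 2) P P [] [] := by
  have hg := hA.form _ _ (alg_gf hA hP)
  have h1 : ∀ i j, Psi D m P [D.e i, D.e j, D.f j, D.f i] =
      ((m + 1 : ℕ) : F) * (sp F (D.p i) * gf D m P [D.f i, D.e i, D.e j, D.f j]) -
        D.B (D.e i) (D.f i) * kf D m P [D.e j, D.f j] := by
    intro i j
    rw [Psi_apply hA hP (D.par_e i) (D.par_e j) (D.par_f j) (D.par_f i), sg_mul_sg, one_mul,
      sg_self]
  unfold str₄
  rw [Finset.sum_congr rfl fun i _ => Finset.sum_congr rfl fun j _ => h1 i j]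
  simp only [Finset.sum_sub_distrib, ← Finset.mul_sum]
  rw [← Finset.sum_mul, str_kf]
  congr 2
  unfold kap
  have h2 := fun j => cup_symm_form hg [] [] [D.e j, D.f j] rfl
  simp only [List.nil_append] at h2
  rw [Finset.sum_comm, Finset.sum_congr rfl fun i _ => Finset.mul_sum _ _ _, Finset.sum_comm]
  rw [Finset.sum_congr rfl fun j _ => (h2 j).symm]

lemma str_sw0_Psi (hA : AlgForms D alg) (hP : alg (m + 2) P) (hS : IsSym D (m + 2) P) :
    str₄ D (sw D 0 (Psi D m P)) = (m : F) * cn D (m + 2) P P [] [] := by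
  have hg := hA.form _ _ (alg_gf hA hP)
  have hΨ := hA.form _ _ (alg_Psi hA hP)
  have h1 : ∀ i j, sw D 0 (Psi D m P) [D.e i, D.e j, D.f j, D.f i] =
      ((m + 1 : ℕ) : F) * (sg F (D.p i) (D.p j) * (sp F (D.p i) *
        gf D m P [D.f i, D.e j, D.e i, D.f j])) -
        sg F (D.p i) (D.p j) * (D.B (D.e j) (D.f i) * kf D m P [D.e i, D.f j]) := by
    intro i j
    rw [sw0 hΨ (D.par_e i) (D.par_e j),
      Psi_apply hA hP (D.par_e j) (D.par_e i) (D.par_f j) (D.par_f i)]
    have h2 : sg F (D.p j) (D.p i) * sg F (D.p j) (D.p i) = 1 := sg_mul_sg _ _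
    rw [sg_self]
    linear_combination (sg F (D.p i) (D.p j) * ((m + 1 : ℕ) : F) * sp F (D.p i) *
      gf D m P [D.f i, D.e j, D.e i, D.f j]) * h2
  unfold str₄
  rw [Finset.sum_congr rfl fun i _ => Finset.sum_congr rfl fun j _ => h1 i j]
  simp only [Finset.sum_sub_distrib, ← Finset.mul_sum]
  have h3 : ∑ i, ∑ j, sg F (D.p i) (D.p j) * (sp F (D.p i) *
      gf D m P [D.f i, D.e j, D.e i, D.f j]) = cn D (m + 2) P P [] [] := by
    rw [← str_gf, Finset.sum_comm]
    unfold str₄
    conv_rhs => rw [Finset.sum_comm]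
    refine Finset.sum_congr rfl fun j _ => ?_
    have h4 := cup_symm_form_sg hg [] [D.e j] [D.f j] rfl (D.p j)
    simp only [List.nil_append, List.cons_append] at h4
    rw [← h4]
    refine Finset.sum_congr rfl fun i _ => ?_
    rw [gf_swap hS (D.par_f i) (D.par_f j), ← mul_assoc, sg_mul_sg, one_mul]
  have h5 : ∑ i, ∑ j, sg F (D.p i) (D.p j) * (D.B (D.e j) (D.f i) * kf D m P [D.e i, D.f j]) =
      cn D (m + 2) P P [] [] := by
    rw [← str_kf]
    refine Finset.sum_congr rfl fun i _ => ?_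
    rw [Finset.sum_eq_single i]
    · rw [D.B_swap (D.par_e i) (D.par_f i), D.dual_self, mul_one, ← mul_assoc, sg_mul_sg, one_mul]
    · intro j _ hij
      rw [D.B_swap (D.par_e j) (D.par_f i), D.dual_ne i j (Ne.symm hij)]
      ring
    · intro h
      exact absurd (Finset.mem_univ i) h
  rw [h3, h5]
  push_cast
  ring

lemma str_sw2 {t : List U → F} (h : IsForm D 4 t) : str₄ D (sw D 2 t) = str₄ D (sw D 0 t) := by
  unfold str₄
  rw [Finset.sum_comm]
  refine Finset.sum_congr rfl fun j _ => Finset.sum_congr rfl fun i _ => ?_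
  rw [sw2 h (D.par_f j) (D.par_f i), sw0 h (D.par_e j) (D.par_e i)]

lemma str_sw2_sw0 {t : List U → F} (h : IsForm D 4 t) (h' : IsForm D 4 (sw D 0 t)) :
    str₄ D (sw D 2 (sw D 0 t)) = str₄ D t := by
  unfold str₄
  rw [Finset.sum_comm]
  refine Finset.sum_congr rfl fun j _ => Finset.sum_congr rfl fun i _ => ?_
  rw [sw2 h' (D.par_f j) (D.par_f i), sw0 h (D.par_e i) (D.par_e j), ← mul_assoc,
    sg_comm (D.p j), sg_mul_sg, one_mul]

lemma str_skew {t : List U → F} (h : IsForm D 4 t) (h' : IsForm D 4 (sw D 0 t)) :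
    str₄ D (skew D t) = 2 * (str₄ D t - str₄ D (sw D 0 t)) := by
  have h1 : str₄ D (skew D t) = str₄ D t - str₄ D (sw D 0 t) - (str₄ D (sw D 2 t) -
      str₄ D (sw D 2 (sw D 0 t))) := by
    unfold str₄ skew
    simp only [Finset.sum_sub_distrib]
  rw [h1, str_sw2 h, str_sw2_sw0 h h']
  ring

/-- Supertrace of the skew part of `Ψ`. -/
lemma str_skew_Psi (hA : AlgForms D alg) (hP : alg (m + 2) P) (hS : IsSym D (m + 2) P) :
    str₄ D (skew D (Psi D m P)) =
      2 * (((m + 1 : ℕ) : F) * kap D m P - (D.δ + m) * cn D (m + 2) P P [] []) := by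
  have hΨ := alg_Psi hA hP
  rw [str_skew (hA.form _ _ hΨ) (hA.form _ _ (hA.swap 4 0 _ hΨ (by omega))), str_Psi hA hP,
    str_sw0_Psi hA hP hS]
  ring

end

end Pool.Agent.Helper89.NN
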