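import Pool.Agent.Helper17.Sign.Numeric
import Pool.Agent.Helper89.Sgn.Idem

/-!
# Comparison of supertraces of powers
-/

namespace Pool.Agent.Helper89.NN

open Polynomial Module Pool.Agent.Helper17.Sign Pool.Agent.Helper89.Sgn

/-- Multisets with the same power sums have the same nonzero elements. -/
lemma count_eq_of_power_sums {K : Type*} [Field K] [CharZero K] [DecidableEq K] (s t : Multiset K)
    (h : ∀ n, 1 ≤ n → (s.map (· ^ n)).sum = (t.map (· ^ n)).sum) (a : K) (ha : a ≠ 0) :
    s.count a = t.count a := by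
  obtain ⟨w, hw⟩ : ∃ w, w = s ∩ t := ⟨_, rfl⟩
  obtain ⟨u, hu⟩ : ∃ u, u = s - w := ⟨_, rfl⟩
  obtain ⟨v, hv⟩ : ∃ v, v = t - w := ⟨_, rfl⟩
  have hsu : s = u + w := by
    rw [hu]; exact (tsub_add_cancel_of_le (by rw [hw]; exact Multiset.inter_le_left)).symm
  have htv : t = v + w := by
    rw [hv]; exact (tsub_add_cancel_of_le (by rw [hw]; exact Multiset.inter_le_right)).symm
  have huv : ∀ n, 1 ≤ n → (u.map (· ^ n)).sum = (v.map (· ^ n)).sum := by
    intro n hn
    have h1 := h n hn
    rw [hsu, htv] at h1
    simp only [Multiset.map_add, Multiset.sum_add] at h1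
    exact add_right_cancel h1
  have hT : Tser u = Tser v := by
    ext n
    simp only [Tser, PowerSeries.coeff_mk]
    split_ifs with h0
    · rfl
    · exact huv n (Nat.one_le_iff_ne_zero.mpr h0)
  have h1 := logderiv u
  have h2 := logderiv v
  have h3 : Pser u = Pser v := unique_of_logderiv (Pser u) (Pser v) (- Tser u)
    (by rw [h1, mul_neg]) (by rw [h2, hT, mul_neg]) (constCoeff_Pser u) (constCoeff_Pser v)
    (by simp [Tser])
  have h4 : Ppol u = Ppol v := by
    apply Polynomial.coe_injective
    rw [coe_Ppol, coe_Ppol, h3]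
  have hdis : ∀ b, b ∈ u → b ∈ v → False := by
    intro b hb hb'
    rw [hu, hw] at hb
    rw [hv, hw] at hb'
    have e1 := Multiset.count_pos.mpr hb
    have e2 := Multiset.count_pos.mpr hb'
    rw [Multiset.count_sub, Multiset.count_inter] at e1 e2
    omega
  have hroot : ∀ (s : Multiset K), a⁻¹ ∈ (Ppol s).roots → a ∈ s := by
    intro s hs
    have h5 : (Ppol s).eval a⁻¹ = 0 := (Polynomial.mem_roots'.mp hs).2
    unfold Ppol at h5
    rw [Polynomial.eval_multiset_prod, Multiset.prod_eq_zero_iff, Multiset.map_map] at h5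
    obtain ⟨b, hb, hb'⟩ := Multiset.mem_map.mp h5
    simp only [Function.comp_apply, eval_sub, eval_one, eval_mul, eval_C, eval_X] at hb'
    have : b = a := by
      field_simp at hb'
      linear_combination -hb'
    rwa [← this]
  have hne : ∀ s : Multiset K, Ppol s ≠ 0 := by
    intro s hs
    have h5 := constCoeff_Pser s
    rw [← coe_Ppol, hs] at h5
    simp at h5
  have hmem : ∀ s : Multiset K, a ∈ s → a⁻¹ ∈ (Ppol s).roots := by
    intro s hs
    rw [Polynomial.mem_roots (hne s)]
    obtain ⟨q, hq⟩ := dvd_Ppol_of_mem s a hs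
    rw [hq, IsRoot, eval_mul]
    simp [ha]
  have hau : a ∉ u := fun h5 => hdis a h5 (hroot v (by rw [← h4]; exact hmem u h5))
  have hav : a ∉ v := fun h5 => hdis a (hroot u (by rw [h4]; exact hmem v h5)) h5
  rw [hsu, htv, Multiset.count_add, Multiset.count_add, Multiset.count_eq_zero.mpr hau,
    Multiset.count_eq_zero.mpr hav]

lemma sum_eq_of_count {K : Type*} [Field K] [DecidableEq K] (s t : Multiset K)
    (h : ∀ a, a ≠ 0 → s.count a = t.count a) : s.sum = t.sum := by
  have h1 : s.filter (· ≠ 0) = t.filter (· ≠ 0) := by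
    ext a
    rw [Multiset.count_filter, Multiset.count_filter]
    split_ifs with ha
    · exact h a ha
    · rfl
  have h2 : ∀ s : Multiset K, s.sum = (s.filter (· ≠ 0)).sum := by
    intro s
    induction s using Multiset.induction_on with
    | empty => simp
    | cons a s ih =>
      by_cases ha : a = 0
      · subst ha
        simpa using ih
      · rw [Multiset.filter_cons_of_pos (p := (· ≠ 0)) _ ha, Multiset.sum_cons,
          Multiset.sum_cons, ih]
  rw [h2 s, h2 t, h1]

variable {F : Type*} [Field F] [CharZero F]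

/-- If the supertraces of the powers of `b` are `N / 2` times those of `a`, with `N` large, then
the supertrace of `a` vanishes. -/
lemma str_eq_zero {V₀ V₁ W₀ W₁ : Type*} [AddCommGroup V₀] [Module F V₀] [FiniteDimensional F V₀]
    [AddCommGroup V₁] [Module F V₁] [FiniteDimensional F V₁]
    [AddCommGroup W₀] [Module F W₀] [FiniteDimensional F W₀]
    [AddCommGroup W₁] [Module F W₁] [FiniteDimensional F W₁]
    (a₀ : Module.End F V₀) (a₁ : Module.End F V₁) (b₀ : Module.End F W₀) (b₁ : Module.End F W₁)
    (N : ℕ) (hN₀ : 2 * finrank F W₀ < N) (hN₁ : 2 * finrank F W₁ < N)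
    (h : ∀ r, 1 ≤ r → 2 * (LinearMap.trace F _ (b₀ ^ r) - LinearMap.trace F _ (b₁ ^ r)) =
      (N : F) * (LinearMap.trace F _ (a₀ ^ r) - LinearMap.trace F _ (a₁ ^ r))) :
    LinearMap.trace F _ a₀ = LinearMap.trace F _ a₁ := by
  classical
  set K := AlgebraicClosure F
  have key : ∀ a, a ≠ 0 → (eig a₀).count a = (eig a₁).count a := by
    intro a ha
    have h1 := count_eq_of_power_sums (2 • eig b₀ + N • eig a₁) (2 • eig b₁ + N • eig a₀) (by
      intro n hn
      simp only [Multiset.map_add, Multiset.map_nsmul, Multiset.sum_add, Multiset.sum_nsmul,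
        ← trace_pow]
      have h2 := congrArg (algebraMap F K) (h n hn)
      simp only [map_mul, map_sub, map_ofNat, map_natCast] at h2
      simp only [nsmul_eq_mul]
      push_cast
      linear_combination h2) a ha
    simp only [Multiset.count_add, Multiset.count_nsmul] at h1
    have e0 : (eig b₀).count a ≤ finrank F W₀ := by
      rw [← card_eig b₀]; exact Multiset.count_le_card _ _
    have e1 : (eig b₁).count a ≤ finrank F W₁ := by
      rw [← card_eig b₁]; exact Multiset.count_le_card _ _
    generalize (eig b₀).count a = x0 at *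
    generalize (eig b₁).count a = x1 at *
    generalize (eig a₀).count a = y0 at *
    generalize (eig a₁).count a = y1 at *
    rcases lt_trichotomy y0 y1 with h3 | h3 | h3
    · exfalso
      have : N * (y0 + 1) ≤ N * y1 := Nat.mul_le_mul_left _ h3
      nlinarith
    · exact h3
    · exfalso
      have : N * (y1 + 1) ≤ N * y0 := Nat.mul_le_mul_left _ h3
      nlinarith
  have h1 := sum_eq_of_count _ _ key
  apply (algebraMap F K).injective
  have h2 := trace_pow a₀ 1
  have h3 := trace_pow a₁ 1
  simp only [pow_one, Multiset.map_id'] at h2 h3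
  rw [h2, h3, h1]

end Pool.Agent.Helper89.NN
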