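import Pool.Agent.Helper89.NN.Mono
import Pool.Agent.Helper89.NN.LemmaB
import Pool.Agent.Helper89.NN.Mult

/-!
# Lemma A: operators on the super exterior square killing `S²V` have supertrace zero
-/

namespace Pool.Agent.Helper89.NN

universe u v w

variable {F : Type u} [Field F] {U : Type v} [AddCommGroup U] [Module F U] {ι : Type w} [Fintype ι]
  {D : SS F U ι}

/-- the indices of the basis vectors in `V` -/
abbrev Vx (D : SS F U ι) := {i : ι // D.q i = true}

/-- the indices of the basis vectors in the complement `W` -/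
abbrev Wx (D : SS F U ι) := {i : ι // ¬ D.q i = true}

lemma sum_VW (D : SS F U ι) {M : Type*} [AddCommMonoid M] (g : ι → M) :
    ∑ i, g i = ∑ i : Vx D, g i + ∑ i : Wx D, g i :=
  (Fintype.sum_subtype_add_sum_subtype (fun i => D.q i = true) g).symm

lemma sum_VW₂ (D : SS F U ι) {M : Type*} [AddCommMonoid M] (g : ι → ι → M) :
    ∑ i, ∑ j, g i j = (∑ i : Vx D, ∑ j : Vx D, g i j + ∑ i : Vx D, ∑ j : Wx D, g i j) +
      (∑ i : Wx D, ∑ j : Vx D, g i j + ∑ i : Wx D, ∑ j : Wx D, g i j) := by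
  rw [sum_VW D]
  congr 1
  · rw [← Finset.sum_add_distrib]
    exact Finset.sum_congr rfl fun i _ => sum_VW D _
  · rw [← Finset.sum_add_distrib]
    exact Finset.sum_congr rfl fun i _ => sum_VW D _

/-- Algebraic operators on the super exterior square which kill `S²V`. -/
structure SK (D : SS F U ι) (alg : ℕ → (List U → F) → Prop) (t : List U → F) : Prop where
  alg : alg 4 t
  inp : ∀ x y z w a b, D.Par a x → D.Par b y → t [x, y, z, w] = - (sg F a b * t [y, x, z, w])
  out : ∀ x y z w a b, D.Par a z → D.Par b w → t [x, y, z, w] = - (sg F a b * t [x, y, w, z])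
  kill : ∀ (i j : Vx D) (a b : ι), t [D.f i, D.f j, D.e a, D.e b] = 0

/-- composition -/
def comp (D : SS F U ι) (t t' : List U → F) : List U → F :=
  fun l => cn D 2 t t' (l.take 2) (l.drop 2)

lemma comp_apply (t t' : List U → F) (x y z w : U) : comp D t t' [x, y, z, w] =
    ∑ a, ∑ b, t [x, y, D.e a, D.e b] * t' [D.f b, D.f a, z, w] := rfl

variable {alg : ℕ → (List U → F) → Prop}

lemma SK.comp (hA : AlgForms D alg) {t t' : List U → F} (h : SK D alg t) (h' : SK D alg t') :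
    SK D alg (comp D t t') where
  alg := hA.cn h.alg h'.alg 2 2 2 rfl rfl
  inp x y z w a b hx hy := by
    rw [comp_apply, comp_apply, Finset.mul_sum, ← Finset.sum_neg_distrib]
    refine Finset.sum_congr rfl fun i _ => ?_
    rw [Finset.mul_sum, ← Finset.sum_neg_distrib]
    refine Finset.sum_congr rfl fun j _ => ?_
    rw [h.inp x y _ _ a b hx hy]
    ring
  out x y z w a b hz hw := by
    rw [comp_apply, comp_apply, Finset.mul_sum, ← Finset.sum_neg_distrib]
    refine Finset.sum_congr rfl fun i _ => ?_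
    rw [Finset.mul_sum, ← Finset.sum_neg_distrib]
    refine Finset.sum_congr rfl fun j _ => ?_
    rw [h'.out _ _ z w a b hz hw]
    ring
  kill i j a b := by
    rw [comp_apply]
    exact Finset.sum_eq_zero fun c _ => Finset.sum_eq_zero fun d _ => by rw [h.kill, zero_mul]

section
variable [CharZero F]

/-- `x` in `V` or in `W`, as a sign -/
def sv (D : SS F U ι) (i : ι) : F := if D.q i then -1 else 1

/-- a form vanishes if an odd number of its arguments are in `V` -/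
lemma odd_zero (hA : AlgForms D alg) (hM : Mono D alg) {t : List U → F} (ht : alg 4 t)
    (i j a b : ι) (h : sv D i * sv D j * sv D a * sv D b = -1) :
    t [D.f i, D.f j, D.e a, D.e b] = 0 := by
  refine odd_four hA (hM.monodromy hA) ht (D.π_f i) (D.π_f j) (D.π_e a) (D.π_e b) ?_
  unfold sv at h
  have h1 : (1 : F) ≠ -1 := by
    intro h1
    have h2 : (2 : F) ≠ 0 := two_ne_zero
    exact h2 (by linear_combination h1)
  rcases hi : D.q i with _ | _ <;> rcases hj : D.q j with _ | _ <;>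
    rcases ha : D.q a with _ | _ <;> rcases hb : D.q b with _ | _ <;>
    simp [hi, hj, ha, hb, h1] at h ⊢

lemma B_VW (D : SS F U ι) {x y : U} (hx : D.π x = x) (hy : D.π y = 0) : D.B x y = 0 := by
  rw [← hx, D.B_π, hy, map_zero]

lemma B_WV (D : SS F U ι) {x y : U} (hx : D.π x = 0) (hy : D.π y = y) : D.B x y = 0 := by
  rw [← hy, ← D.B_π, hx, map_zero, LinearMap.zero_apply]

lemma π_eV (i : Vx D) : D.π (D.e i) = D.e i := by rw [D.π_e, if_pos i.2]
lemma π_fV (i : Vx D) : D.π (D.f i) = D.f i := by rw [D.π_f, if_pos i.2]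
lemma π_eW (i : Wx D) : D.π (D.e i) = 0 := by rw [D.π_e, if_neg i.2]
lemma π_fW (i : Wx D) : D.π (D.f i) = 0 := by rw [D.π_f, if_neg i.2]

/-- the main relation: `t[v,w,z,y]` for `v`, `y` in `V`, `w`, `z` in `W` -/
lemma rel₁ (hA : AlgForms D alg) (hM : Mono D alg) {t : List U → F} (ht : alg 4 t) {x v y w z : U}
    (hv : D.π v = v) (hw : D.π w = 0) (hz : D.π z = 0) :
    D.B x v * t [v, w, z, y] + D.B y v * t [x, w, z, v] = 0 := by
  have h1 := hM.monodromy hA 4 t ht v hv [x, w, z, y] rfl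
  have hf := hA.form _ _ ht
  simp only [der, D.N_apply, B_WV D hw hv, B_WV D hz hv, add_zero] at h1
  have e1 := hf.smul [] [w, z, y] (D.B x v) v rfl
  have e2 := hf.smul [x] [z, y] 0 v rfl
  have e3 := hf.smul [x, w] [y] 0 v rfl
  have e4 := hf.smul [x, w, z] [] (D.B y v) v rfl
  simp only [List.nil_append, List.cons_append, zero_mul] at e1 e2 e3 e4
  rw [e1, e2, e3, e4] at h1
  linear_combination h1

lemma B_ef (i : ι) : D.B (D.e i) (D.f i) = sp F (D.p i) := by
  rw [D.B_swap (D.par_e i) (D.par_f i), D.dual_self, mul_one, sg_self]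

lemma B_ef_ne {i j : ι} (h : i ≠ j) : D.B (D.e j) (D.f i) = 0 := by
  rw [D.B_swap (D.par_e j) (D.par_f i), D.dual_ne i j h, mul_zero]

lemma pV (i : Vx D) : D.p i = true := D.p_q _ i.2

lemma T1_ne (hA : AlgForms D alg) (hM : Mono D alg) {t : List U → F} (ht : alg 4 t)
    (i b : Vx D) (j a : Wx D) (h : i ≠ b) : t [D.f i, D.f j, D.e a, D.e b] = 0 := by
  have h1 := rel₁ hA hM ht (x := D.e i) (v := D.f i) (y := D.e b) (w := D.f j) (z := D.e a)
    (π_fV i) (π_fW j) (π_eW a)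
  rw [B_ef, pV, B_ef_ne (fun h' => h (Subtype.ext h'))] at h1
  simp only [sp_true] at h1
  linear_combination -h1

lemma T1_eq (hA : AlgForms D alg) (hM : Mono D alg) {t : List U → F} (ht : alg 4 t)
    (i i' : Vx D) (j a : Wx D) :
    t [D.f i, D.f j, D.e a, D.e i] = t [D.f i', D.f j, D.e a, D.e i'] := by
  by_cases h : i = i'
  · rw [h]
  have hne : (i : ι) ≠ i' := fun h' => h (Subtype.ext h')
  set v := D.f i + D.f i' with hv
  have hπ : D.π v = v := by rw [hv, map_add, π_fV, π_fV]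
  have h1 := rel₁ hA hM ht (x := D.e i) (v := v) (y := D.e i) (w := D.f j) (z := D.e a)
    hπ (π_fW j) (π_eW a)
  have h2 := rel₁ hA hM ht (x := D.e i) (v := v) (y := D.e i') (w := D.f j) (z := D.e a)
    hπ (π_fW j) (π_eW a)
  have e1 : D.B (D.e i) v = -1 := by
    rw [hv, map_add, B_ef, pV, B_ef_ne (Ne.symm hne)]; simp
  have e2 : D.B (D.e i') v = -1 := by
    rw [hv, map_add, B_ef, pV, B_ef_ne hne]; simp
  rw [e1] at h1 h2
  rw [e2] at h2
  have hf := hA.form _ _ ht
  have e3 := hf.add [] [D.f j, D.e a, D.e i] (D.f i) (D.f i') rfl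
  have e4 := hf.add [] [D.f j, D.e a, D.e i'] (D.f i) (D.f i') rfl
  simp only [List.nil_append, ← hv] at e3 e4
  rw [e3, T1_ne hA hM ht i' i j a (Ne.symm h)] at h1
  rw [e4, T1_ne hA hM ht i i' j a h] at h2
  linear_combination h2 - h1

/-- the operator `α` on `W` -/
def Am (D : SS F U ι) (i₀ : Vx D) (t : List U → F) : Matrix (Wx D) (Wx D) F :=
  fun a j => 2 * t [D.f i₀, D.f j, D.e a, D.e i₀]

/-- the operator `β` on `W ⊗ W` -/
def Bm (D : SS F U ι) (t : List U → F) : Matrix (Wx D × Wx D) (Wx D × Wx D) F :=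
  fun k i => t [D.f i.1, D.f i.2, D.e k.2, D.e k.1]

lemma T1 (hA : AlgForms D alg) (hM : Mono D alg) {t : List U → F} (ht : alg 4 t)
    (i₀ i : Vx D) (j a : Wx D) : t [D.f i, D.f j, D.e a, D.e i] = 2⁻¹ * Am D i₀ t a j := by
  unfold Am
  rw [T1_eq hA hM ht i i₀]
  field_simp

lemma T2 (hA : AlgForms D alg) (hM : Mono D alg) {t : List U → F} (ht : SK D alg t)
    (i₀ i : Vx D) (j b : Wx D) :
    t [D.f i, D.f j, D.e i, D.e b] = - (sg F true (D.p b) * (2⁻¹ * Am D i₀ t b j)) := by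
  rw [ht.out _ _ _ _ _ _ (D.par_e i) (D.par_e b), T1 hA hM ht.alg i₀, pV]

lemma T2_ne (hA : AlgForms D alg) (hM : Mono D alg) {t : List U → F} (ht : SK D alg t)
    (i a : Vx D) (j b : Wx D) (h : i ≠ a) : t [D.f i, D.f j, D.e a, D.e b] = 0 := by
  rw [ht.out _ _ _ _ _ _ (D.par_e a) (D.par_e b), T1_ne hA hM ht.alg i a j b h, mul_zero,
    neg_zero]

lemma T1' (hA : AlgForms D alg) (hM : Mono D alg) {t : List U → F} (ht : SK D alg t)
    (i₀ i : Vx D) (j a : Wx D) :
    t [D.f j, D.f i, D.e a, D.e i] = - (sg F true (D.p j) * (2⁻¹ * Am D i₀ t a j)) := by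
  rw [ht.inp _ _ _ _ _ _ (D.par_f j) (D.par_f i), T1 hA hM ht.alg i₀, pV, sg_comm]

/-- composition of `α` -/
lemma Am_comp (hA : AlgForms D alg) (hM : Mono D alg) {t t' : List U → F} (h : SK D alg t)
    (h' : SK D alg t') (i₀ : Vx D) : Am D i₀ (comp D t t') = Am D i₀ t' * Am D i₀ t := by
  ext a j
  rw [Matrix.mul_apply]
  show 2 * comp D t t' [D.f i₀, D.f j, D.e a, D.e i₀] = _
  rw [comp_apply, sum_VW₂ D]
  have hVV : ∑ c : Vx D, ∑ d : Vx D, t [D.f i₀, D.f j, D.e c, D.e d] *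
      t' [D.f d, D.f c, D.e a, D.e i₀] = 0 :=
    Finset.sum_eq_zero fun c _ => Finset.sum_eq_zero fun d _ => by rw [h'.kill, mul_zero]
  have hWW : ∑ c : Wx D, ∑ d : Wx D, t [D.f i₀, D.f j, D.e c, D.e d] *
      t' [D.f d, D.f c, D.e a, D.e i₀] = 0 :=
    Finset.sum_eq_zero fun c _ => Finset.sum_eq_zero fun d _ => by
      rw [odd_zero hA hM h.alg _ _ _ _ (by
        unfold sv; rw [if_pos i₀.2, if_neg j.2, if_neg c.2, if_neg d.2]; ring), zero_mul]
  have hVW : ∑ c : Vx D, ∑ d : Wx D, t [D.f i₀, D.f j, D.e c, D.e d] *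
      t' [D.f d, D.f c, D.e a, D.e i₀] =
      ∑ d : Wx D, 2⁻¹ * 2⁻¹ * (Am D i₀ t' a d * Am D i₀ t d j) := by
    rw [Finset.sum_comm]
    refine Finset.sum_congr rfl fun d _ => ?_
    rw [Finset.sum_eq_single i₀]
    · rw [T2 hA hM h i₀, T1' hA hM h' i₀]
      have : sg F true (D.p d) * sg F true (D.p d) = 1 := sg_mul_sg _ _
      linear_combination (2⁻¹ * 2⁻¹ * (Am D i₀ t' a d * Am D i₀ t d j)) * this
    · intro c _ hc
      rw [T2_ne hA hM h i₀ c j d (Ne.symm hc), zero_mul]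
    · intro hn
      exact absurd (Finset.mem_univ _) hn
  have hWV : ∑ c : Wx D, ∑ d : Vx D, t [D.f i₀, D.f j, D.e c, D.e d] *
      t' [D.f d, D.f c, D.e a, D.e i₀] =
      ∑ c : Wx D, 2⁻¹ * 2⁻¹ * (Am D i₀ t' a c * Am D i₀ t c j) := by
    refine Finset.sum_congr rfl fun c _ => ?_
    rw [Finset.sum_eq_single i₀]
    · rw [T1 hA hM h.alg i₀, T1 hA hM h'.alg i₀]
      ring
    · intro d _ hd
      rw [T1_ne hA hM h.alg i₀ d j c (Ne.symm hd), zero_mul]
    · intro hn
      exact absurd (Finset.mem_univ _) hn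
  rw [hVV, hWW, hVW, hWV, zero_add, add_zero, ← Finset.mul_sum]
  have h2 : (2 : F) ≠ 0 := two_ne_zero
  field_simp
  ring

/-- composition of `β` -/
lemma Bm_comp (hA : AlgForms D alg) (hM : Mono D alg) {t t' : List U → F} (h : SK D alg t)
    (h' : SK D alg t') : Bm D (comp D t t') = Bm D t' * Bm D t := by
  ext k i
  rw [Matrix.mul_apply]
  show comp D t t' [D.f i.1, D.f i.2, D.e k.2, D.e k.1] = _
  rw [comp_apply, sum_VW₂ D]
  have hVV : ∑ c : Vx D, ∑ d : Vx D, t [D.f i.1, D.f i.2, D.e c, D.e d] *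
      t' [D.f d, D.f c, D.e k.2, D.e k.1] = 0 :=
    Finset.sum_eq_zero fun c _ => Finset.sum_eq_zero fun d _ => by rw [h'.kill, mul_zero]
  have hVW : ∑ c : Vx D, ∑ d : Wx D, t [D.f i.1, D.f i.2, D.e c, D.e d] *
      t' [D.f d, D.f c, D.e k.2, D.e k.1] = 0 :=
    Finset.sum_eq_zero fun c _ => Finset.sum_eq_zero fun d _ => by
      rw [odd_zero hA hM h.alg _ _ _ _ (by
        unfold sv; rw [if_neg i.1.2, if_neg i.2.2, if_pos c.2, if_neg d.2]; ring), zero_mul]
  have hWV : ∑ c : Wx D, ∑ d : Vx D, t [D.f i.1, D.f i.2, D.e c, D.e d] *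
      t' [D.f d, D.f c, D.e k.2, D.e k.1] = 0 :=
    Finset.sum_eq_zero fun c _ => Finset.sum_eq_zero fun d _ => by
      rw [odd_zero hA hM h.alg _ _ _ _ (by
        unfold sv; rw [if_neg i.1.2, if_neg i.2.2, if_neg c.2, if_pos d.2]; ring), zero_mul]
  rw [hVV, hVW, hWV, zero_add, zero_add, zero_add, Fintype.sum_prod_type, Finset.sum_comm]
  exact Finset.sum_congr rfl fun c _ => Finset.sum_congr rfl fun d _ => mul_comm _ _

/-- the number of basis vectors of `V` -/
def bV (D : SS F U ι) : ℕ := Fintype.card (Vx D)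

lemma str₄_eq {t : List U → F} (h : IsForm D 4 t) : str₄ D t =
    ∑ i, ∑ j, sp F (D.p i) * sp F (D.p j) * t [D.f i, D.f j, D.e j, D.e i] := by
  have h1 : ∀ i, ∑ j, t [D.e i, D.e j, D.f j, D.f i] =
      ∑ j, sp F (D.p j) * t [D.e i, D.f j, D.e j, D.f i] := by
    intro i
    have := cup_symm_form h [D.e i] [] [D.f i] rfl
    simpa using this
  have h2 : ∀ j, ∑ i, t [D.e i, D.f j, D.e j, D.f i] =
      ∑ i, sp F (D.p i) * t [D.f i, D.f j, D.e j, D.e i] := by
    intro j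
    have := cup_symm_form h [] [D.f j, D.e j] [] rfl
    simpa using this
  unfold str₄
  rw [Finset.sum_congr rfl fun i _ => h1 i, Finset.sum_comm]
  conv_rhs => rw [Finset.sum_comm]
  refine Finset.sum_congr rfl fun j _ => ?_
  rw [← Finset.mul_sum, h2, Finset.mul_sum]
  exact Finset.sum_congr rfl fun i _ => by ring

/-- supertrace of an operator in terms of `α` and `β` -/
lemma str_SK (hA : AlgForms D alg) (hM : Mono D alg) {t : List U → F} (h : SK D alg t)
    (i₀ : Vx D) : str₄ D t = - (bV D : F) * ∑ j : Wx D, sp F (D.p j) * Am D i₀ t j j +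
      ∑ k : Wx D × Wx D, sp F (D.p k.1) * sp F (D.p k.2) * Bm D t k k := by
  rw [str₄_eq (hA.form _ _ h.alg), sum_VW₂ D]
  have hVV : ∑ i : Vx D, ∑ j : Vx D, sp F (D.p i) * sp F (D.p j) *
      t [D.f i, D.f j, D.e j, D.e i] = 0 :=
    Finset.sum_eq_zero fun c _ => Finset.sum_eq_zero fun d _ => by rw [h.kill, mul_zero]
  have hVW : ∑ i : Vx D, ∑ j : Wx D, sp F (D.p i) * sp F (D.p j) *
      t [D.f i, D.f j, D.e j, D.e i] =
      - (bV D : F) * (2⁻¹ * ∑ j : Wx D, sp F (D.p j) * Am D i₀ t j j) := by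
    have h1 : ∀ i : Vx D, ∑ j : Wx D, sp F (D.p i) * sp F (D.p j) *
        t [D.f i, D.f j, D.e j, D.e i] =
        - (2⁻¹ * ∑ j : Wx D, sp F (D.p j) * Am D i₀ t j j) := by
      intro i
      rw [Finset.mul_sum, ← Finset.sum_neg_distrib]
      refine Finset.sum_congr rfl fun j _ => ?_
      rw [T1 hA hM h.alg i₀, pV, sp_true]
      ring
    rw [Finset.sum_congr rfl fun i _ => h1 i, Finset.sum_const, Finset.card_univ, nsmul_eq_mul]
    show (bV D : F) * _ = _
    ring
  have hWV : ∑ i : Wx D, ∑ j : Vx D, sp F (D.p i) * sp F (D.p j) *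
      t [D.f i, D.f j, D.e j, D.e i] =
      - (bV D : F) * (2⁻¹ * ∑ j : Wx D, sp F (D.p j) * Am D i₀ t j j) := by
    rw [← hVW, Finset.sum_comm]
    refine Finset.sum_congr rfl fun i _ => Finset.sum_congr rfl fun j _ => ?_
    rw [h.inp _ _ _ _ _ _ (D.par_f j) (D.par_f i), h.out _ _ _ _ _ _ (D.par_e i) (D.par_e j)]
    have : sg F (D.p j) (D.p i) * sg F (D.p i) (D.p j) = 1 := by rw [sg_comm, sg_mul_sg]
    linear_combination (sp F (D.p j) * sp F (D.p i) * t [D.f i, D.f j, D.e j, D.e i]) * this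
  rw [hVV, hVW, hWV, Fintype.sum_prod_type]
  have h2 : (2 : F) ≠ 0 := two_ne_zero
  have h3 : (2 : F)⁻¹ * 2 = 1 := inv_mul_cancel₀ h2
  show 0 + _ + (_ + ∑ i : Wx D, ∑ j : Wx D, sp F (D.p i) * sp F (D.p j) *
    t [D.f i, D.f j, D.e j, D.e i]) = _ + ∑ i : Wx D, ∑ j : Wx D, sp F (D.p i) * sp F (D.p j) *
    t [D.f i, D.f j, D.e j, D.e i]
  linear_combination (- (bV D : F) * ∑ j : Wx D, sp F (D.p j) * Am D i₀ t j j) * h3

/-- the relation from (A1) -/
lemma str_A1 (hA : AlgForms D alg) (hM : Mono D alg) (hV : ScalarOnV D alg) {t : List U → F}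
    (h : SK D alg t) (i₀ : Vx D) :
    2 * str₄ D t = D.δ * ∑ j : Wx D, sp F (D.p j) * Am D i₀ t j j := by
  have hK := hA.contr 2 1 t h.alg (by omega)
  have hKx : ∀ x w, ctr D 1 t [x, w] = ∑ j, t [x, D.e j, D.f j, w] := fun x w => rfl
  obtain ⟨r, hr, hr'⟩ := hV _ hK
  have h1 : r = 2⁻¹ * ∑ j : Wx D, sp F (D.p j) * Am D i₀ t j j := by
    have e1 := hr (D.f i₀) (D.e i₀) (π_fV i₀)
    rw [D.dual_self, mul_one] at e1
    rw [← e1, hKx]
    have e2 := cup_symm_form (hA.form _ _ h.alg) [D.f i₀] [] [D.e i₀] rfl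
    simp only [List.nil_append, List.cons_append] at e2
    rw [e2, sum_VW D]
    have e3 : ∑ i : Vx D, sp F (D.p i) * t [D.f i₀, D.f i, D.e i, D.e i₀] = 0 :=
      Finset.sum_eq_zero fun c _ => by rw [h.kill, mul_zero]
    rw [e3, zero_add, Finset.mul_sum]
    exact Finset.sum_congr rfl fun j _ => by rw [T1 hA hM h.alg i₀]; ring
  have h2 : str₄ D t = r * D.δ := by
    rw [← hr']
    rfl
  rw [h2, h1]
  have h2 : (2 : F) ≠ 0 := two_ne_zero
  field_simp

/-- powers -/
def pw (D : SS F U ι) (t : List U → F) : ℕ → List U → F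
  | 0 => t
  | r + 1 => comp D (pw D t r) t

lemma SK.pw (hA : AlgForms D alg) {t : List U → F} (h : SK D alg t) (r : ℕ) :
    SK D alg (pw D t r) := by
  induction r with
  | zero => exact h
  | succ r ih => exact ih.comp hA h

lemma Am_pw [DecidableEq (Wx D)] (hA : AlgForms D alg) (hM : Mono D alg) {t : List U → F}
    (h : SK D alg t) (i₀ : Vx D) (r : ℕ) : Am D i₀ (pw D t r) = Am D i₀ t ^ (r + 1) := by
  induction r with
  | zero => rw [zero_add, pow_one]; rfl
  | succ r ih =>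
    show Am D i₀ (comp D (NN.pw D t r) t) = _
    rw [Am_comp hA hM (h.pw hA r) h, ih, ← pow_succ']

lemma Bm_pw [DecidableEq (Wx D)] (hA : AlgForms D alg) (hM : Mono D alg) {t : List U → F}
    (h : SK D alg t) (r : ℕ) : Bm D (pw D t r) = Bm D t ^ (r + 1) := by
  induction r with
  | zero => rw [zero_add, pow_one]; rfl
  | succ r ih =>
    show Bm D (comp D (NN.pw D t r) t) = _
    rw [Bm_comp hA hM (h.pw hA r) h, ih, ← pow_succ']

end

end Pool.Agent.Helper89.NN
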