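import Pool.Agent.Helper89.NN.Basic

/-!
# From Picard–Lefschetz transvections to the symplectic Lie algebra

The infinitesimal form of the theorem of Kazhdan and Margulis: let `Δ` be a set of vectors stable
under the transvections attached to its elements and contained in every subspace which is stable
under these transvections and meets `Δ`. A multilinear form invariant under powers of the
transvections is killed by the symplectic Lie algebra of the span of `Δ`.
-/

namespace Pool.Agent.Helper89.NN

universe u v

variable {F : Type u} [Field F] {U : Type v} [AddCommGroup U] [Module F U]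

open Polynomial

lemma exists_poly (A : U →ₗ[F] U) (n : ℕ) (t : List U → F)
    (hadd : ∀ (l₁ l₂ : List U) (x y : U), l₁.length + l₂.length + 1 = n →
      t (l₁ ++ (x + y) :: l₂) = t (l₁ ++ x :: l₂) + t (l₁ ++ y :: l₂))
    (hsmul : ∀ (l₁ l₂ : List U) (c : F) (x : U), l₁.length + l₂.length + 1 = n →
      t (l₁ ++ (c • x) :: l₂) = c * t (l₁ ++ x :: l₂)) (l : List U) (hl : l.length = n) :
    ∃ p : F[X], (∀ c : F, p.eval c = t (l.map (fun x => x + c • A x))) ∧ p.coeff 0 = t l ∧
      p.coeff 1 = der A t l := by
  induction l generalizing n t with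
  | nil => exact ⟨C (t []), by simp, by simp, by simp [der, coeff_C]⟩
  | cons x l ih =>
    obtain ⟨p₁, h₁, h₁', h₁''⟩ := ih (n - 1) (fun l => t (x :: l))
      (fun l₁ l₂ y z h => by
        have := hadd (x :: l₁) l₂ y z (by simp at hl ⊢; omega)
        simpa using this)
      (fun l₁ l₂ c y h => by
        have := hsmul (x :: l₁) l₂ c y (by simp at hl ⊢; omega)
        simpa using this) (by simp at hl; omega)
    obtain ⟨p₂, h₂, h₂', -⟩ := ih (n - 1) (fun l => t (A x :: l))
      (fun l₁ l₂ y z h => by
        have := hadd (A x :: l₁) l₂ y z (by simp at hl ⊢; omega)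
        simpa using this)
      (fun l₁ l₂ c y h => by
        have := hsmul (A x :: l₁) l₂ c y (by simp at hl ⊢; omega)
        simpa using this) (by simp at hl; omega)
    refine ⟨p₁ + X * p₂, ?_, ?_, ?_⟩
    · intro c
      rw [eval_add, eval_mul, eval_X, h₁, h₂, List.map_cons]
      have e1 := hadd [] (l.map (fun x => x + c • A x)) x (c • A x) (by simp at hl ⊢; omega)
      have e2 := hsmul [] (l.map (fun x => x + c • A x)) c (A x) (by simp at hl ⊢; omega)
      simp only [List.nil_append] at e1 e2
      rw [e1, e2]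
    · rw [coeff_add, h₁', coeff_X_mul_zero, add_zero]
    · rw [coeff_add, h₁'', coeff_X_mul, h₂']
      show _ = t (A x :: l) + der A _ l
      rw [add_comm]

/-- `t` is multilinear on the lists of length `n` -/
structure IsML (n : ℕ) (t : List U → F) : Prop where
  add : ∀ (l₁ l₂ : List U) (x y : U), l₁.length + l₂.length + 1 = n →
    t (l₁ ++ (x + y) :: l₂) = t (l₁ ++ x :: l₂) + t (l₁ ++ y :: l₂)
  smul : ∀ (l₁ l₂ : List U) (c : F) (x : U), l₁.length + l₂.length + 1 = n →
    t (l₁ ++ (c • x) :: l₂) = c * t (l₁ ++ x :: l₂)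

lemma IsML.cons {n : ℕ} {t : List U → F} (h : IsML (n + 1) t) (x : U) :
    IsML n (fun l => t (x :: l)) where
  add l₁ l₂ y z hl := by
    have := h.add (x :: l₁) l₂ y z (by simp; omega)
    simpa using this
  smul l₁ l₂ c y hl := by
    have := h.smul (x :: l₁) l₂ c y (by simp; omega)
    simpa using this

lemma IsML.head_add {n : ℕ} {t : List U → F} (h : IsML (n + 1) t) (x y : U) {l : List U}
    (hl : l.length = n) : t ((x + y) :: l) = t (x :: l) + t (y :: l) :=
  h.add [] l x y (by simp; omega)

lemma IsML.head_smul {n : ℕ} {t : List U → F} (h : IsML (n + 1) t) (c : F) (x : U) {l : List U}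
    (hl : l.length = n) : t ((c • x) :: l) = c * t (x :: l) :=
  h.smul [] l c x (by simp; omega)

lemma IsML.head_sub {n : ℕ} {t : List U → F} (h : IsML (n + 1) t) (x y : U) {l : List U}
    (hl : l.length = n) : t ((x - y) :: l) = t (x :: l) - t (y :: l) := by
  rw [show x - y = x + (-1 : F) • y by rw [neg_one_smul, sub_eq_add_neg], h.head_add _ _ hl,
    h.head_smul _ _ hl]
  ring

lemma der_add_map {n : ℕ} {t : List U → F} (h : IsML n t) (A A' : U →ₗ[F] U) {l : List U}
    (hl : l.length = n) : der (A + A') t l = der A t l + der A' t l := by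
  induction l generalizing n t with
  | nil => simp [der]
  | cons x l ih =>
    obtain ⟨n, rfl⟩ : ∃ m, n = m + 1 := ⟨l.length, by simpa using hl.symm⟩
    have hl' : l.length = n := by simpa using hl
    simp only [der]
    rw [LinearMap.add_apply, h.head_add _ _ hl', ih (h.cons x) hl']
    ring

lemma der_smul_map {n : ℕ} {t : List U → F} (h : IsML n t) (c : F) (A : U →ₗ[F] U) {l : List U}
    (hl : l.length = n) : der (c • A) t l = c * der A t l := by
  induction l generalizing n t with
  | nil => simp [der]
  | cons x l ih =>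
    obtain ⟨n, rfl⟩ : ∃ m, n = m + 1 := ⟨l.length, by simpa using hl.symm⟩
    have hl' : l.length = n := by simpa using hl
    simp only [der]
    rw [LinearMap.smul_apply, h.head_smul _ _ hl', ih (h.cons x) hl']
    ring

lemma der_congr (A : U →ₗ[F] U) {n : ℕ} {t t' : List U → F}
    (h : ∀ l : List U, l.length = n → t l = t' l) {l : List U} (hl : l.length = n) :
    der A t l = der A t' l := by
  induction l generalizing n t t' with
  | nil => simp [der]
  | cons x l ih =>
    simp only [der]
    rw [h _ (by simpa using hl)]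
    congr 1
    exact ih (n := l.length) (fun l' hl' => h _ (by rw [← hl]; simp [hl'])) rfl

lemma der_zero_form (A : U →ₗ[F] U) (l : List U) : der A (fun _ => 0) l = 0 := by
  induction l with
  | nil => rfl
  | cons x l ih => simp only [der]; rw [ih, add_zero]

lemma der_add_form (A : U →ₗ[F] U) (t t' : List U → F) (l : List U) :
    der A (fun l => t l + t' l) l = der A t l + der A t' l := by
  induction l generalizing t t' with
  | nil => simp [der]
  | cons x l ih =>
    simp only [der]
    rw [ih]
    ring

/-- the commutator of two derivations -/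
lemma der_bracket {n : ℕ} {t : List U → F} (h : IsML n t) (A A' : U →ₗ[F] U) {l : List U}
    (hl : l.length = n) : der A (der A' t) l - der A' (der A t) l =
      der (A' ∘ₗ A - A ∘ₗ A') t l := by
  induction l generalizing n t with
  | nil => simp [der]
  | cons x l ih =>
    obtain ⟨n, rfl⟩ : ∃ m, n = m + 1 := ⟨l.length, by simpa using hl.symm⟩
    have hl' : l.length = n := by simpa using hl
    simp only [der]
    rw [der_add_form, der_add_form, LinearMap.sub_apply, h.head_sub _ _ hl', ← ih (h.cons x) hl']
    simp only [LinearMap.comp_apply]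
    ring

/-- derivations and linear maps -/
lemma der_map {W : Type*} [AddCommGroup W] [Module F W] (f : U →ₗ[F] W) {A : U →ₗ[F] U}
    {A' : W →ₗ[F] W} (hA : ∀ x, f (A x) = A' (f x)) {n : ℕ} {t : List U → F} {t' : List W → F}
    (h : ∀ l : List U, l.length = n → t l = t' (l.map f)) {l : List U} (hl : l.length = n) :
    der A t l = der A' t' (l.map f) := by
  induction l generalizing n t t' with
  | nil => simp [der]
  | cons x l ih =>
    simp only [der, List.map_cons]
    rw [h _ (by simpa using hl), List.map_cons, hA]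
    congr 1
    exact ih (n := l.length) (fun l' hl' => by rw [h _ (by rw [← hl]; simp [hl']), List.map_cons])
      rfl

/-- the derivation attached to `A` kills `t` -/
def Kill (n : ℕ) (t : List U → F) (A : U →ₗ[F] U) : Prop :=
  ∀ l : List U, l.length = n → der A t l = 0

section kill

variable {n : ℕ} {t : List U → F} (h : IsML n t)

include h

lemma IsML.kill_add {A A' : U →ₗ[F] U} (hA : Kill n t A) (hA' : Kill n t A') :
    Kill n t (A + A') := fun l hl => by rw [der_add_map h _ _ hl, hA l hl, hA' l hl, add_zero]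

lemma IsML.kill_smul {A : U →ₗ[F] U} (c : F) (hA : Kill n t A) : Kill n t (c • A) :=
  fun l hl => by rw [der_smul_map h _ _ hl, hA l hl, mul_zero]

lemma IsML.kill_sub {A A' : U →ₗ[F] U} (hA : Kill n t A) (hA' : Kill n t A') :
    Kill n t (A - A') := by
  rw [show A - A' = A + (-1 : F) • A' by rw [neg_one_smul, sub_eq_add_neg]]
  exact h.kill_add hA (h.kill_smul _ hA')

lemma IsML.kill_bracket {A A' : U →ₗ[F] U} (hA : Kill n t A) (hA' : Kill n t A') :
    Kill n t (A' ∘ₗ A - A ∘ₗ A') := fun l hl => by
  rw [← der_bracket h A A' hl, der_congr A (t' := fun _ => 0) hA' hl,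
    der_congr A' (t' := fun _ => 0) hA hl, der_zero_form, der_zero_form, sub_zero]

lemma IsML.kill_of_smul {A : U →ₗ[F] U} {c : F} (hc : c ≠ 0) (hA : Kill n t (c • A)) :
    Kill n t A := by
  have := h.kill_smul c⁻¹ hA
  rwa [smul_smul, inv_mul_cancel₀ hc, one_smul] at this

/-- invariance under `1 + k A`, `A ^ 2 = 0`, gives the infinitesimal invariance -/
lemma IsML.kill_of_inv [CharZero F] {A : U →ₗ[F] U} (hAA : ∀ x, A (A x) = 0) {k : F} (hk : k ≠ 0)
    (hinv : ∀ l : List U, l.length = n → t (l.map (fun x => x + k • A x)) = t l) :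
    Kill n t A := by
  intro l hl
  obtain ⟨p, hp, -, hp1⟩ := exists_poly A n t h.add h.smul l hl
  rw [← hp1]
  have hiter : ∀ j : ℕ, t (l.map (fun x => x + ((j : F) * k) • A x)) = t l := by
    intro j
    induction j with
    | zero => simp
    | succ j ih =>
      rw [← ih, ← hinv (l.map (fun x => x + ((j : F) * k) • A x)) (by simpa using hl),
        List.map_map]
      congr 1
      apply List.map_congr_left
      intro x _
      simp only [Function.comp_apply, map_add, map_smul, hAA, smul_zero, add_zero]
      rw [add_assoc, ← add_smul]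
      congr 2
      push_cast
      ring
  have hpe : p = C (t l) := by
    apply Polynomial.eq_of_infinite_eval_eq
    have hinj : Function.Injective (fun j : ℕ => (j : F) * k) := by
      intro i j hij
      exact Nat.cast_injective (mul_right_cancel₀ hk hij)
    refine (Set.infinite_range_of_injective hinj).mono ?_
    rintro _ ⟨j, rfl⟩
    show p.eval _ = _
    rw [eval_C, hp]
    exact hiter j
  rw [hpe, coeff_C]
  simp

end kill

/-- `x ↦ B x v • v` -/
def nil (B : U →ₗ[F] U →ₗ[F] F) (v : U) : U →ₗ[F] U := (B.flip v).smulRight v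

/-- `x ↦ B x v • w + B x w • v` -/
def sym (B : U →ₗ[F] U →ₗ[F] F) (v w : U) : U →ₗ[F] U :=
  (B.flip v).smulRight w + (B.flip w).smulRight v

lemma nil_apply (B : U →ₗ[F] U →ₗ[F] F) (v x : U) : nil B v x = B x v • v := rfl

lemma sym_apply (B : U →ₗ[F] U →ₗ[F] F) (v w x : U) : sym B v w x = B x v • w + B x w • v := rfl

lemma sym_comm (B : U →ₗ[F] U →ₗ[F] F) (v w : U) : sym B v w = sym B w v :=
  LinearMap.ext fun x => by rw [sym_apply, sym_apply, add_comm]

lemma sym_self (B : U →ₗ[F] U →ₗ[F] F) (v : U) : sym B v v = (2 : F) • nil B v :=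
  LinearMap.ext fun x => by rw [sym_apply, LinearMap.smul_apply, nil_apply, two_smul]

lemma sym_add (B : U →ₗ[F] U →ₗ[F] F) (v w w' : U) : sym B v (w + w') = sym B v w + sym B v w' :=
  LinearMap.ext fun x => by
    simp only [sym_apply, LinearMap.add_apply, map_add, smul_add, add_smul]; abel

lemma sym_smul (B : U →ₗ[F] U →ₗ[F] F) (c : F) (v w : U) : sym B v (c • w) = c • sym B v w :=
  LinearMap.ext fun x => by
    simp only [sym_apply, LinearMap.smul_apply, map_smul, smul_add, smul_smul, smul_eq_mul]
    rw [mul_comm (B x v) c]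

lemma sym_zero (B : U →ₗ[F] U →ₗ[F] F) (v : U) : sym B v 0 = 0 :=
  LinearMap.ext fun x => by simp [sym_apply]

lemma nil_add (B : U →ₗ[F] U →ₗ[F] F) (v w : U) (c : F) :
    nil B (w + c • v) = nil B w + c • sym B v w + (c * c) • nil B v :=
  LinearMap.ext fun x => by
    simp only [sym_apply, nil_apply, LinearMap.add_apply, LinearMap.smul_apply, map_add, map_smul,
      smul_eq_mul]
    module

/-- the commutator of `sym v w` and `nil u`, for `u`, `v`, `w` in the symplectic part -/
lemma bracket (B : U →ₗ[F] U →ₗ[F] F) {u v w : U} (hv : B v u = - B u v) (hw : B w u = - B u w) :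
    sym B v w ∘ₗ nil B u - nil B u ∘ₗ sym B v w = B u v • sym B w u + B u w • sym B v u :=
  LinearMap.ext fun x => by
    simp only [sym_apply, nil_apply, LinearMap.add_apply, LinearMap.smul_apply, map_add, map_smul,
      LinearMap.sub_apply, LinearMap.comp_apply, hv, hw, smul_add, smul_smul]
    module

section main

variable [CharZero F] {B : U →ₗ[F] U →ₗ[F] F} {Δ : Set U} {n : ℕ} {t : List U → F}

/-- The infinitesimal form of the theorem of Kazhdan and Margulis. -/
theorem kill_span (h : IsML n t) (hanti : ∀ v ∈ Submodule.span F Δ, ∀ x, B v x = - B x v)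
    (hst : ∀ δ ∈ Δ, ∀ y ∈ Δ, y + (((1 : ℤ) : F) * B y δ) • δ ∈ Δ)
    (hconj : ∀ A : Submodule F U, (∀ δ ∈ Δ, ∀ x ∈ A, x + (((1 : ℤ) : F) * B x δ) • δ ∈ A) →
      (∃ y ∈ Δ, y ∈ A) → Δ ⊆ A)
    (hK : ∀ δ ∈ Δ, Kill n t (nil B δ)) : ∀ v ∈ Submodule.span F Δ, Kill n t (nil B v) := by
  have h2 : (2 : F) ≠ 0 := two_ne_zero
  have hant : ∀ δ ∈ Δ, ∀ x, B δ x = - B x δ := fun δ hδ => hanti δ (Submodule.subset_span hδ)
  have hzero : Kill n t (0 : U →ₗ[F] U) := by
    intro l hl
    have := der_smul_map h 0 (0 : U →ₗ[F] U) hl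
    rwa [zero_smul, zero_mul] at this
  -- the subspace of the `y` with `sym B a y` in the Lie algebra
  have span_mem : ∀ (a : U) (R : Set U), (∀ y ∈ R, Kill n t (sym B a y)) →
      ∀ b ∈ Submodule.span F R, Kill n t (sym B a b) := by
    intro a R hR b hb
    induction hb using Submodule.span_induction with
    | mem y hy => exact hR y hy
    | zero => rw [sym_zero]; exact hzero
    | add x y _ _ hx hy => rw [sym_add]; exact h.kill_add hx hy
    | smul c x _ hx => rw [sym_smul]; exact h.kill_smul c hx
  -- non-orthogonal pairs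
  have step1 : ∀ δ ∈ Δ, ∀ y ∈ Δ, B y δ ≠ 0 → Kill n t (sym B δ y) := by
    intro δ hδ y hy hne
    have h1 := hK _ (hst δ hδ y hy)
    rw [Int.cast_one, one_mul, nil_add] at h1
    have h3 := h.kill_sub (h.kill_sub h1 (hK y hy)) (h.kill_smul (B y δ * B y δ) (hK δ hδ))
    refine h.kill_of_smul hne ?_
    convert h3 using 1
    abel
  have step3 : ∀ δ ∈ Δ, ∀ y ∈ Δ, Kill n t (sym B δ y) := by
    intro δ hδ y hy
    refine span_mem δ {z | z ∈ Δ ∧ Kill n t (sym B δ z)} (fun z hz => hz.2) y ?_
    refine hconj (Submodule.span F {z | z ∈ Δ ∧ Kill n t (sym B δ z)}) ?_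
      ⟨δ, hδ, Submodule.subset_span ⟨hδ, ?_⟩⟩ hy
    · intro δ' hδ' x hx
      rw [Int.cast_one, one_mul]
      refine Submodule.add_mem _ hx ?_
      induction hx using Submodule.span_induction with
      | mem z hz =>
        obtain ⟨hz, hkz⟩ := hz
        by_cases h0 : B z δ' = 0
        · rw [h0, zero_smul]; exact Submodule.zero_mem _
        · refine Submodule.smul_mem _ _ (Submodule.subset_span ⟨hδ', ?_⟩)
          have h0' : B δ' z ≠ 0 := by rw [hant δ' hδ']; simpa using h0
          have k1 : Kill n t (sym B z δ') := step1 z hz δ' hδ' h0'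
          have k2 := h.kill_bracket (hK δ' hδ') hkz
          rw [bracket B (hant δ hδ δ') (hant z hz δ')] at k2
          have k3 := h.kill_sub k2 (h.kill_smul (B δ' δ) k1)
          rw [add_sub_cancel_left] at k3
          exact h.kill_of_smul h0' k3
      | zero => rw [map_zero, LinearMap.zero_apply, zero_smul]; exact Submodule.zero_mem _
      | add x y _ _ hx hy =>
        rw [map_add, LinearMap.add_apply, add_smul]
        exact Submodule.add_mem _ hx hy
      | smul c x _ hx =>
        rw [map_smul, LinearMap.smul_apply, smul_assoc]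
        exact Submodule.smul_mem _ _ hx
    · rw [sym_self]
      exact h.kill_smul 2 (hK δ hδ)
  intro v hv
  have h6 := span_mem v Δ (fun y hy => by
    rw [sym_comm]; exact span_mem y Δ (step3 y hy) v hv) v hv
  rw [sym_self] at h6
  exact h.kill_of_smul h2 h6

end main

end Pool.Agent.Helper89.NN
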