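import Pool.Agent.Helper89.NN.Restrict2

/-!
# Contractions over `S` and over `U`, and the iterates of a form
-/

namespace Pool.Agent.Helper89.NN

open Pool.Agent.Helper29.CPB TT

universe u v

section linear

variable {F : Type u} [Field F] {V : Type v} [AddCommGroup V] [Module F V] {ε : Module.End F V}
  {r : ℕ} {e f : Fin r → V} {T Q : List V → F}

lemma linkForm_add_left (m : ℕ) {n : ℕ} (hT : IsEvenForm ε n T) (l₁ l₁' l₂ : List V) (x y : V)
    (hn : l₁.length + l₁'.length + 1 + m = n) :
    linkForm e f m T Q (l₁ ++ (x + y) :: l₁') l₂ = linkForm e f m T Q (l₁ ++ x :: l₁') l₂ +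
      linkForm e f m T Q (l₁ ++ y :: l₁') l₂ := by
  induction m generalizing l₁' l₂ with
  | zero =>
    show T _ * Q _ = T _ * Q _ + T _ * Q _
    rw [hT.add l₁ l₁' x y (by omega), add_mul]
  | succ m ih =>
    show ∑ j, _ = ∑ j, _ + ∑ j, _
    rw [← Finset.sum_add_distrib]
    refine Finset.sum_congr rfl fun j _ => ?_
    have := ih (l₁' ++ [e j]) (f j :: l₂) (by simp; omega)
    simpa using this

lemma linkForm_smul_left (m : ℕ) {n : ℕ} (hT : IsEvenForm ε n T) (l₁ l₁' l₂ : List V) (c : F)
    (x : V) (hn : l₁.length + l₁'.length + 1 + m = n) :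
    linkForm e f m T Q (l₁ ++ (c • x) :: l₁') l₂ =
      c * linkForm e f m T Q (l₁ ++ x :: l₁') l₂ := by
  induction m generalizing l₁' l₂ with
  | zero =>
    show T _ * Q _ = c * (T _ * Q _)
    rw [hT.smul l₁ l₁' c x (by omega), mul_assoc]
  | succ m ih =>
    show ∑ j, _ = _ * ∑ j, _
    rw [Finset.mul_sum]
    refine Finset.sum_congr rfl fun j _ => ?_
    have := ih (l₁' ++ [e j]) (f j :: l₂) (by simp; omega)
    simpa using this

lemma linkForm_add_right (m : ℕ) {n : ℕ} (hQ : IsEvenForm ε n Q) (l₁ l₂ l₂' : List V) (x y : V)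
    (hn : l₂.length + l₂'.length + 1 + m = n) :
    linkForm e f m T Q l₁ (l₂ ++ (x + y) :: l₂') = linkForm e f m T Q l₁ (l₂ ++ x :: l₂') +
      linkForm e f m T Q l₁ (l₂ ++ y :: l₂') := by
  induction m generalizing l₁ l₂ with
  | zero =>
    show T _ * Q _ = T _ * Q _ + T _ * Q _
    rw [hQ.add l₂ l₂' x y (by omega), mul_add]
  | succ m ih =>
    show ∑ j, _ = ∑ j, _ + ∑ j, _
    rw [← Finset.sum_add_distrib]
    refine Finset.sum_congr rfl fun j _ => ?_
    have := ih (l₁ ++ [e j]) (f j :: l₂) (by simp; omega)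
    simpa using this

lemma linkForm_smul_right (m : ℕ) {n : ℕ} (hQ : IsEvenForm ε n Q) (l₁ l₂ l₂' : List V) (c : F)
    (x : V) (hn : l₂.length + l₂'.length + 1 + m = n) :
    linkForm e f m T Q l₁ (l₂ ++ (c • x) :: l₂') =
      c * linkForm e f m T Q l₁ (l₂ ++ x :: l₂') := by
  induction m generalizing l₁ l₂ with
  | zero =>
    show T _ * Q _ = c * (T _ * Q _)
    rw [hQ.smul l₂ l₂' c x (by omega), mul_left_comm]
  | succ m ih =>
    show ∑ j, _ = _ * ∑ j, _
    rw [Finset.mul_sum]
    refine Finset.sum_congr rfl fun j _ => ?_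
    have := ih (l₁ ++ [e j]) (f j :: l₂) (by simp; omega)
    simpa using this

/-- the bilinear form in the two inner slots -/
def linkBil (m : ℕ) {n₁ n₂ : ℕ} (hT : IsEvenForm ε n₁ T) (hQ : IsEvenForm ε n₂ Q) (l₁ l₂ : List V)
    (h₁ : l₁.length + 1 + m = n₁) (h₂ : l₂.length + 1 + m = n₂) : V →ₗ[F] V →ₗ[F] F :=
  LinearMap.mk₂ F (fun x y => linkForm e f m T Q (l₁ ++ [x]) (y :: l₂))
    (fun x x' y => linkForm_add_left m hT l₁ [] (y :: l₂) x x' (by simp; omega))
    (fun c x y => linkForm_smul_left m hT l₁ [] (y :: l₂) c x (by simp; omega))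
    (fun x y y' => linkForm_add_right m hQ (l₁ ++ [x]) [] l₂ y y' (by simp; omega))
    (fun c x y => linkForm_smul_right m hQ (l₁ ++ [x]) [] l₂ c y (by simp; omega))

lemma linkForm_congr (m : ℕ) {n₁ n₂ : ℕ} {T' Q' : List V → F} (l₁ l₂ : List V)
    (h₁ : l₁.length + m = n₁) (h₂ : l₂.length + m = n₂) (hT : ∀ l, l.length = n₁ → T l = T' l)
    (hQ : ∀ l, l.length = n₂ → Q l = Q' l) :
    linkForm e f m T Q l₁ l₂ = linkForm e f m T' Q' l₁ l₂ := by
  induction m generalizing l₁ l₂ with
  | zero => show T _ * Q _ = T' _ * Q' _; rw [hT _ (by omega), hQ _ (by omega)]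
  | succ m ih => exact Finset.sum_congr rfl fun j _ => ih _ _ (by simp; omega) (by simp; omega)

end linear

variable {F : Type u} [Field F] [CharZero F] {X Z S : Variety.{u, v} F}

/-- contraction with a form which is a product of the `B w` -/
lemma linkForm_prod (P : Powers S) (w : S.H) (m : ℕ) {n : ℕ} {T Q : List S.H → F}
    (hQ : IsEvenForm (parity S.dim S.π) n Q) (l₁ l₂ : List S.H) (h₂ : l₂.length + m = n) (C : F)
    (hT : ∀ l : List S.H, l.length = m → T (l₁ ++ l) = C * (l.map (fun y => P.B w y)).prod) :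
    linkForm P.e P.f m T Q l₁ l₂ = C * Q (List.replicate m w ++ l₂) := by
  induction m generalizing l₁ l₂ C with
  | zero =>
    have := hT [] rfl
    simp only [List.append_nil, List.map_nil, List.prod_nil, mul_one] at this
    show T l₁ * Q l₂ = _
    rw [this]
    rfl
  | succ m ih =>
    have h1 : ∀ j, linkForm P.e P.f m T Q (l₁ ++ [P.e j]) (P.f j :: l₂) =
        C * (P.B w (P.e j) * Q (List.replicate m w ++ P.f j :: l₂)) := by
      intro j
      rw [ih (l₁ ++ [P.e j]) (P.f j :: l₂) (by simp; omega) (C * P.B w (P.e j)), mul_assoc]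
      intro l hl
      have := hT (P.e j :: l) (by simpa using hl)
      rw [List.append_assoc, List.singleton_append, this, List.map_cons, List.prod_cons, mul_assoc]
    show ∑ j, _ = _
    rw [Finset.sum_congr rfl fun j _ => h1 j, ← Finset.mul_sum,
      ← Powers.formSum hQ (List.replicate m w) l₂ (by simp; omega) Finset.univ
        (fun j => P.B w (P.e j)) P.f, P.zag]
    congr 2
    rw [List.replicate_succ', List.append_assoc]
    rfl

namespace PData

variable {G : GenericSection Z S 1} {P : Powers S} {E : PData G P} {ι : Type} [Fintype ι]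
  {D : SS F E.U ι} (C : Comp E D)

include C

/-- comparison of the contractions -/
lemma Comp.link (m : ℕ) {n₁ n₂ : ℕ} {T : List E.U → F} {T' Q : List S.H → F}
    (hT : IsEvenForm (parity S.dim S.π) n₁ T') (hQ : IsEvenForm (parity S.dim S.π) n₂ Q)
    (hTT : ∀ l : List S.H, l.length = n₁ → T' l = T (l.map E.pU)) (l₁ l₂ : List E.U)
    (h₁ : l₁.length + m = n₁) (h₂ : l₂.length + m = n₂) :
    linkForm P.e P.f m T' Q (l₁.map Subtype.val) (l₂.map Subtype.val) =
      cn D m T (fun l => Q (l.map Subtype.val)) l₁ l₂ := by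
  have hpT : ∀ (l l' : List S.H) (x : S.H), l.length + l'.length + 1 = n₁ →
      T' (l ++ E.p x :: l') = T' (l ++ x :: l') := by
    intro l l' x hl
    rw [hTT _ (by simp; omega), hTT _ (by simp; omega)]
    simp only [List.map_append, List.map_cons]
    congr 3
    apply Subtype.ext
    rw [E.pU_coe, E.pU_coe, E.idem]
  have hpL : ∀ (m : ℕ) (l l' l₂ : List S.H) (x : S.H), l.length + l'.length + 1 + m = n₁ →
      linkForm P.e P.f m T' Q (l ++ E.p x :: l') l₂ = linkForm P.e P.f m T' Q (l ++ x :: l') l₂ := by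
    intro m
    induction m with
    | zero => intro l l' l₂ x hl; show T' _ * _ = T' _ * _; rw [hpT l l' x (by omega)]
    | succ m ih =>
      intro l l' l₂ x hl
      refine Finset.sum_congr rfl fun j _ => ?_
      have := ih l (l' ++ [P.e j]) (P.f j :: l₂) x (by simp; omega)
      simpa using this
  induction m generalizing l₁ l₂ with
  | zero =>
    show T' _ * Q _ = T _ * Q _
    rw [hTT _ (by simp; omega), List.map_map]
    congr 2
    conv_rhs => rw [← List.map_id l₁]
    apply List.map_congr_left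
    intro x _
    exact E.pU_apply x
  | succ m ih =>
    have h1 : ∀ j, linkForm P.e P.f m T' Q (l₁.map Subtype.val ++ [P.e j])
        (P.f j :: l₂.map Subtype.val) = linkBil (e := P.e) (f := P.f) m hT hQ
          (l₁.map Subtype.val) (l₂.map Subtype.val) (by simp; omega) (by simp; omega)
          (E.p (P.e j)) (P.f j) := by
      intro j
      exact (hpL m _ [] _ _ (by simp; omega)).symm
    show ∑ j, _ = ∑ i, _
    rw [Finset.sum_congr rfl fun j _ => h1 j, C.casimir]
    refine Finset.sum_congr rfl fun i _ => ?_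
    have := ih (l₁ ++ [D.e i]) (D.f i :: l₂) (by simp; omega) (by simp; omega)
    rw [← this]
    simp only [List.map_append, List.map_cons, List.map_nil]
    rfl

end PData

/-- the iterates on `w ⊗ ⋯ ⊗ w` -/
lemma powForm_prod (P : Powers S) (w : S.H) (k : ℕ) {T : List S.H → F}
    (hT : IsEvenForm (parity S.dim S.π) (2 * k) T) (c : F)
    (h : ∀ l : List S.H, l.length = k →
      T (List.replicate k w ++ l) = c * (l.map (fun y => P.B w y)).prod) (N : ℕ) :
    ∀ l : List S.H, l.length = k → powForm P.e P.f k T N (List.replicate k w ++ l) =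
      c ^ (N + 1) * (l.map (fun y => P.B w y)).prod := by
  induction N with
  | zero =>
    intro l hl
    rw [zero_add, pow_one]
    exact h l hl
  | succ N ih =>
    intro l hl
    show linkForm P.e P.f k (powForm P.e P.f k T N) T ((List.replicate k w ++ l).take k)
      ((List.replicate k w ++ l).drop k) = _
    have e1 : (List.replicate k w ++ l).take k = List.replicate k w := by
      rw [List.take_left' (by simp)]
    have e2 : (List.replicate k w ++ l).drop k = l := by
      rw [List.drop_left' (by simp)]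
    rw [e1, e2, linkForm_prod P w k hT _ l (by omega) (c ^ (N + 1)) ih, h l hl, ← mul_assoc,
      ← pow_succ]

end Pool.Agent.Helper89.NN
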