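import Pool.Agent.Helper89.NN.Odd

/-!
# Invariance under the symplectic Lie algebra of `V`
-/

namespace Pool.Agent.Helper89.NN

universe u v w

variable {F : Type u} [Field F] {U : Type v} [AddCommGroup U] [Module F U] {ι : Type w} [Fintype ι]
  {D : SS F U ι}

/-- Invariance under `sp(V)`. -/
def Mono (D : SS F U ι) (alg : ℕ → (List U → F) → Prop) : Prop := Monodromy D alg

lemma Mono.monodromy {alg : ℕ → (List U → F) → Prop} (_ : AlgForms D alg)
    (h : Mono D alg) : Monodromy D alg := h

end Pool.Agent.Helper89.NN
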