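import Pool.Agent.Helper89.NN.Alg

/-!
# Forms with an odd number of arguments in `V` vanish
-/

namespace Pool.Agent.Helper89.NN

universe u v w

variable {F : Type u} [Field F] {U : Type v} [AddCommGroup U] [Module F U] {ι : Type w} [Fintype ι]
  {D : SS F U ι}

lemma SS.exists_B_ne {u : U} (hu : u ≠ 0) : ∃ x, D.B x u ≠ 0 := by
  by_contra h
  push Not at h
  apply hu
  rw [← D.zig u]
  exact Finset.sum_eq_zero fun i _ => by rw [h, zero_smul]

lemma SS.B_π_left (D : SS F U ι) (x : U) {u : U} (hu : D.π u = u) : D.B (D.π x) u = D.B x u := by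
  rw [D.B_π, hu]

lemma SS.exists_V_ne {u : U} (hu : u ≠ 0) (hπ : D.π u = u) : ∃ x, D.π x = x ∧ D.B x u ≠ 0 := by
  obtain ⟨x, hx⟩ := D.exists_B_ne hu
  exact ⟨D.π x, D.ππ x, by rwa [D.B_π_left x hπ]⟩

lemma SS.B_V_anti (D : SS F U ι) (x : U) {v : U} (hv : D.π v = v) : D.B v x = - D.B x v := by
  have hεv : D.ε v = - v := by rw [← hv, D.ε_π, hv]
  rw [D.B_symm v x, hεv, map_neg]

lemma SS.B_V_self [CharZero F] (D : SS F U ι) {v : U} (hv : D.π v = v) : D.B v v = 0 := by
  have h1 := D.B_V_anti v hv
  have h2 : (2 : F) ≠ 0 := two_ne_zero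
  have h3 : 2 * D.B v v = 0 := by linear_combination h1
  exact (mul_eq_zero.mp h3).resolve_left h2

/-- a linear form on `V` invariant under `sp(V)` vanishes -/
lemma one_zero (T : U → F) (h0 : T 0 = 0)
    (h : ∀ u x, D.π u = u → D.B x u * T u = 0) {u : U} (hu : D.π u = u) : T u = 0 := by
  by_cases hu0 : u = 0
  · rw [hu0, h0]
  obtain ⟨x, hx⟩ := D.exists_B_ne hu0
  exact (mul_eq_zero.mp (h u x hu)).resolve_left hx

/-- a trilinear form on `V` invariant under `sp(V)` vanishes -/
lemma three_zero [CharZero F] (T : U → U → U → F)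
    (a₁ : ∀ x x' y z, T (x + x') y z = T x y z + T x' y z)
    (a₂ : ∀ x y y' z, T x (y + y') z = T x y z + T x y' z)
    (a₃ : ∀ x y z z', T x y (z + z') = T x y z + T x y z')
    (s₁ : ∀ c x y z, T (c • x) y z = c * T x y z)
    (h : ∀ u x y z, D.π u = u → D.π x = x → D.π y = y → D.π z = z →
      D.B x u * T u y z + D.B y u * T x u z + D.B z u * T x y u = 0)
    {x y z : U} (hx : D.π x = x) (hy : D.π y = y) (hz : D.π z = z) : T x y z = 0 := by
  have z₁ : ∀ y z, T 0 y z = 0 := fun y z => by
    have := s₁ 0 0 y z
    rwa [zero_smul, zero_mul] at this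
  have z₂ : ∀ x z, T x 0 z = 0 := fun x z => by
    have := a₂ x 0 0 z
    rw [add_zero] at this
    linear_combination -this
  have z₃ : ∀ x y, T x y 0 = 0 := fun x y => by
    have := a₃ x y 0 0
    rw [add_zero] at this
    linear_combination -this
  have h2 : (2 : F) ≠ 0 := two_ne_zero
  -- alternation
  have alt : ∀ u x, D.π u = u → D.π x = x → T u u x = 0 ∧ T u x u = 0 ∧ T x u u = 0 := by
    intro u x hu hx
    by_cases hu0 : u = 0
    · subst hu0
      exact ⟨z₁ _ _, z₁ _ _, z₂ _ _⟩
    have hself := D.B_V_self hu
    by_cases hβ : D.B x u = 0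
    · obtain ⟨y, hy, hyu⟩ := D.exists_V_ne hu0 hu
      have e1 := h u y x u hu hy hx hu
      have e2 := h u y u x hu hy hu hx
      have e3 := h u x y u hu hx hy hu
      rw [hself, hβ] at e1 e2 e3
      refine ⟨?_, ?_, ?_⟩
      · exact (mul_eq_zero.mp (by linear_combination e2)).resolve_left hyu
      · exact (mul_eq_zero.mp (by linear_combination e1)).resolve_left hyu
      · exact (mul_eq_zero.mp (by linear_combination e3)).resolve_left hyu
    · have e1 := h u x x u hu hx hx hu
      have e2 := h u x u x hu hx hu hx
      have e3 := h u u x x hu hu hx hx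
      rw [hself] at e1 e2 e3
      have f1 : T u x u + T x u u = 0 :=
        (mul_eq_zero.mp (by linear_combination e1)).resolve_left hβ
      have f2 : T u u x + T x u u = 0 :=
        (mul_eq_zero.mp (by linear_combination e2)).resolve_left hβ
      have f3 : T u u x + T u x u = 0 :=
        (mul_eq_zero.mp (by linear_combination e3)).resolve_left hβ
      refine ⟨?_, ?_, ?_⟩
      · exact (mul_eq_zero.mp (show 2 * T u u x = 0 by linear_combination f2 + f3 - f1)).resolve_left h2
      · exact (mul_eq_zero.mp (show 2 * T u x u = 0 by linear_combination f1 + f3 - f2)).resolve_left h2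
      · exact (mul_eq_zero.mp (show 2 * T x u u = 0 by linear_combination f1 + f2 - f3)).resolve_left h2
  have hadd : ∀ {x y : U}, D.π x = x → D.π y = y → D.π (x + y) = x + y := fun hx hy => by
    rw [map_add, hx, hy]
  have s12 : ∀ x y z, D.π x = x → D.π y = y → D.π z = z → T x y z = - T y x z := by
    intro x y z hx hy hz
    have e := (alt (x + y) z (hadd hx hy) hz).1
    rw [a₁, a₂, a₂, (alt x z hx hz).1, (alt y z hy hz).1] at e
    linear_combination e
  have s13 : ∀ x y z, D.π x = x → D.π y = y → D.π z = z → T x y z = - T z y x := by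
    intro x y z hx hy hz
    have e := (alt (x + z) y (hadd hx hz) hy).2.1
    rw [a₁, a₃, a₃, (alt x y hx hy).2.1, (alt z y hz hy).2.1] at e
    linear_combination e
  have base : ∀ x y z, D.π x = x → D.π y = y → D.π z = z → D.B y x = 0 → D.B z x = 0 →
      T x y z = 0 := by
    intro x y z hx hy hz h1 h2
    by_cases hx0 : x = 0
    · rw [hx0, z₁]
    obtain ⟨w, hw, hwx⟩ := D.exists_V_ne hx0 hx
    have e := h x w y z hx hw hy hz
    rw [h1, h2] at e
    exact (mul_eq_zero.mp (by linear_combination e)).resolve_left hwx
  have main : ∀ x y z, D.π x = x → D.π y = y → D.π z = z → D.B y z ≠ 0 → T x y z = 0 := by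
    intro x y z hx hy hz hc
    have hzy : D.B z y = - D.B y z := D.B_V_anti y hz
    have hxy : D.B x y = - D.B y x := D.B_V_anti y hx
    have hxz : D.B x z = - D.B z x := D.B_V_anti z hx
    have hyy := D.B_V_self hy
    have hzz := D.B_V_self hz
    set lam : F := D.B z x / D.B y z with hlam
    set mu : F := - (D.B y x / D.B y z) with hmu
    have hl : lam * D.B y z = D.B z x := by rw [hlam]; field_simp
    have hm : mu * D.B y z = - D.B y x := by rw [hmu]; field_simp
    have hx' : D.π (x + lam • y + mu • z) = x + lam • y + mu • z := by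
      rw [map_add, map_add, map_smul, map_smul, hx, hy, hz]
    have e := base (x + lam • y + mu • z) y z hx' hy hz (by
      rw [map_add, map_add, map_smul, map_smul, smul_eq_mul, smul_eq_mul, hyy]
      linear_combination hm) (by
      rw [map_add, map_add, map_smul, map_smul, smul_eq_mul, smul_eq_mul, hzz, hzy]
      linear_combination -hl)
    rw [a₁, a₁, s₁, s₁, (alt y z hy hz).1, (alt z y hz hy).2.1] at e
    linear_combination e
  by_cases h1 : D.B y z = 0
  · by_cases h2 : D.B y x = 0
    · by_cases h3 : D.B z x = 0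
      · exact base x y z hx hy hz h2 h3
      · rw [s12 x y z hx hy hz, main y x z hy hx hz (by
          rw [D.B_V_anti z hx]
          simpa using h3), neg_zero]
    · rw [s13 x y z hx hy hz, main z y x hz hy hx h2, neg_zero]
  · exact main x y z hx hy hz h1

section four

variable {alg : ℕ → (List U → F) → Prop}

lemma inv_four (hA : AlgForms D alg) (hM : Monodromy D alg) {t : List U → F} (ht : alg 4 t)
    {u : U} (hu : D.π u = u) (x y z w : U) :
    D.B x u * t [u, y, z, w] + D.B y u * t [x, u, z, w] + D.B z u * t [x, y, u, w] +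
      D.B w u * t [x, y, z, u] = 0 := by
  have h1 := hM 4 t ht u hu [x, y, z, w] rfl
  have hf := hA.form _ _ ht
  simp only [der, D.N_apply, add_zero] at h1
  have e1 := hf.smul [] [y, z, w] (D.B x u) u rfl
  have e2 := hf.smul [x] [z, w] (D.B y u) u rfl
  have e3 := hf.smul [x, y] [w] (D.B z u) u rfl
  have e4 := hf.smul [x, y, z] [] (D.B w u) u rfl
  simp only [List.nil_append, List.cons_append] at e1 e2 e3 e4
  rw [e1, e2, e3, e4] at h1
  linear_combination h1

/-- a form vanishes if an odd number of its four arguments are in `V` and the others in `W` -/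
lemma odd_four [CharZero F] (hA : AlgForms D alg) (hM : Monodromy D alg) {t : List U → F} (ht : alg 4 t)
    {x y z w : U} {a b c d : Bool} (hx : D.π x = if a then x else 0)
    (hy : D.π y = if b then y else 0) (hz : D.π z = if c then z else 0)
    (hw : D.π w = if d then w else 0) (h : (a ^^ b ^^ c ^^ d) = true) : t [x, y, z, w] = 0 := by
  have hf := hA.form _ _ ht
  have hi := fun (u : U) (hu : D.π u = u) => inv_four hA hM ht hu
  have hW : ∀ {x u : U}, D.π x = 0 → D.π u = u → D.B x u = 0 := by
    intro x u hx hu
    rw [← hu, ← D.B_π, hx, map_zero, LinearMap.zero_apply]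
  have h0 : ∀ (l₁ l₂ : List U), l₁.length + l₂.length + 1 = 4 → t (l₁ ++ 0 :: l₂) = 0 := by
    intro l₁ l₂ hl
    have := hf.smul l₁ l₂ 0 0 hl
    rwa [zero_smul, zero_mul] at this
  rcases a with _ | _ <;> rcases b with _ | _ <;> rcases c with _ | _ <;> rcases d with _ | _ <;>
    simp only [Bool.xor_false, Bool.xor_true, Bool.not_true, Bool.not_false, Bool.false_eq_true,
      if_true, if_false] at h hx hy hz hw
  -- one argument in V
  · exact one_zero (D := D) (fun u => t [x, y, z, u]) (h0 [x, y, z] [] rfl) (fun u s hu => by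
      have := hi u hu x y z s
      rw [hW hx hu, hW hy hu, hW hz hu] at this
      linear_combination this) hw
  · exact one_zero (D := D) (fun u => t [x, y, u, w]) (h0 [x, y] [w] rfl) (fun u s hu => by
      have := hi u hu x y s w
      rw [hW hx hu, hW hy hu, hW hw hu] at this
      linear_combination this) hz
  · exact one_zero (D := D) (fun u => t [x, u, z, w]) (h0 [x] [z, w] rfl) (fun u s hu => by
      have := hi u hu x s z w
      rw [hW hx hu, hW hz hu, hW hw hu] at this
      linear_combination this) hy
  · exact three_zero (D := D) (fun p q r => t [x, p, q, r])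
      (fun p p' q r => hf.add [x] [q, r] p p' rfl) (fun p q q' r => hf.add [x, p] [r] q q' rfl)
      (fun p q r r' => hf.add [x, p, q] [] r r' rfl) (fun k p q r => hf.smul [x] [q, r] k p rfl)
      (fun u p q r hu _ _ _ => by
        have := hi u hu x p q r
        rw [hW hx hu] at this
        linear_combination this) hy hz hw
  · exact one_zero (D := D) (fun u => t [u, y, z, w]) (h0 [] [y, z, w] rfl) (fun u s hu => by
      have := hi u hu s y z w
      rw [hW hy hu, hW hz hu, hW hw hu] at this
      linear_combination this) hx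
  · exact three_zero (D := D) (fun p q r => t [p, y, q, r])
      (fun p p' q r => hf.add [] [y, q, r] p p' rfl)
      (fun p q q' r => hf.add [p, y] [r] q q' rfl)
      (fun p q r r' => hf.add [p, y, q] [] r r' rfl) (fun k p q r => hf.smul [] [y, q, r] k p rfl)
      (fun u p q r hu _ _ _ => by
        have := hi u hu p y q r
        rw [hW hy hu] at this
        linear_combination this) hx hz hw
  · exact three_zero (D := D) (fun p q r => t [p, q, z, r])
      (fun p p' q r => hf.add [] [q, z, r] p p' rfl)
      (fun p q q' r => hf.add [p] [z, r] q q' rfl)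
      (fun p q r r' => hf.add [p, q, z] [] r r' rfl) (fun k p q r => hf.smul [] [q, z, r] k p rfl)
      (fun u p q r hu _ _ _ => by
        have := hi u hu p q z r
        rw [hW hz hu] at this
        linear_combination this) hx hy hw
  · exact three_zero (D := D) (fun p q r => t [p, q, r, w])
      (fun p p' q r => hf.add [] [q, r, w] p p' rfl)
      (fun p q q' r => hf.add [p] [r, w] q q' rfl)
      (fun p q r r' => hf.add [p, q] [w] r r' rfl) (fun k p q r => hf.smul [] [q, r, w] k p rfl)
      (fun u p q r hu _ _ _ => by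
        have := hi u hu p q r w
        rw [hW hw hu] at this
        linear_combination this) hx hy hz

end four

end Pool.Agent.Helper89.NN
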