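import Pool.Agent.Helper89.NN.Slot
import Pool.Agent.Helper89.NN.Mono
import Pool.Agent.Helper22.NN.Basis

/-!
# Restriction of the cycles on the powers of `S` to the image of a symmetric idempotent
-/

namespace Pool.Agent.Helper89.NN

open Pool.Agent.Helper29.CPB TT

universe u v

variable {F : Type u} [Field F] [CharZero F] {X Z S : Variety.{u, v} F}

/-- A symmetric algebraic idempotent which is the identity on the vanishing cohomology. -/
structure PData (G : GenericSection Z S 1) (P : Powers S) where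
  odd : Odd S.dim
  orth : ∀ z y, G.dn y = 0 → P.B (G.up z) y = 0
  p : Module.End F S.H
  alg : p ∈ S.corr 0
  idem : ∀ x, p (p x) = p x
  symm : SA P p
  van : ∀ y, G.dn y = 0 → p y = y

namespace PData

variable {G : GenericSection Z S 1} {P : Powers S} (E : PData G P)

/-- the image of the idempotent -/
abbrev U : Submodule F S.H := LinearMap.range E.p

lemma mem_iff {x : S.H} : x ∈ E.U ↔ E.p x = x :=
  ⟨fun ⟨y, hy⟩ => by rw [← hy, E.idem], fun h => ⟨x, h⟩⟩

lemma p_coe (x : E.U) : E.p x = x := E.mem_iff.mp x.2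

lemma sgn_p (x : S.H) : S.sgn (E.p x) = E.p (S.sgn x) := by
  rw [← Module.End.mul_apply, ← S.commute_sgn E.alg, Module.End.mul_apply]

/-- the parity operator on `U` -/
noncomputable def εU : E.U →ₗ[F] E.U := S.sgn.restrict (fun x hx => by
  rw [E.mem_iff] at hx ⊢
  rw [← E.sgn_p, hx])

lemma εU_coe (x : E.U) : ((E.εU x : E.U) : S.H) = S.sgn x := rfl

/-- the projector onto the vanishing cohomology on `U` -/
noncomputable def πU : E.U →ₗ[F] E.U := (vanProj G).restrict (fun x _ => by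
  rw [E.mem_iff]
  exact E.van _ (vanProj_mem G x))

lemma πU_coe (x : E.U) : ((E.πU x : E.U) : S.H) = vanProj G x := rfl

/-- the form on `U` -/
noncomputable def BU : E.U →ₗ[F] E.U →ₗ[F] F := P.B.compl₁₂ E.U.subtype E.U.subtype

lemma BU_apply (x y : E.U) : E.BU x y = P.B x y := rfl

/-- the projection to `U` -/
noncomputable def pU : S.H →ₗ[F] E.U := E.p.rangeRestrict

lemma pU_coe (x : S.H) : ((E.pU x : E.U) : S.H) = E.p x := rfl

lemma pU_apply (x : E.U) : E.pU x = x := Subtype.ext (E.p_coe x)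

lemma B_p (x : E.U) (y : S.H) : P.B x (E.p y) = P.B x y := by
  rw [← E.symm, E.p_coe]

lemma B_p' (x : S.H) (y : E.U) : P.B (E.p x) y = P.B x y := by
  rw [E.symm, E.p_coe]

/-- the super space `U` -/
theorem exists_D : ∃ (n : ℕ) (D : SS F E.U (Fin n)), D.ε = E.εU ∧ D.B = E.BU ∧ D.π = E.πU := by
  apply exists_SS
  · intro x
    apply Subtype.ext
    rw [E.εU_coe, E.εU_coe, sgn_sgn]
  · intro x y
    rw [E.BU_apply, E.εU_coe, E.εU_coe, dual_sgn P.duality, E.BU_apply]
  · intro x y
    rw [E.BU_apply, E.BU_apply, E.εU_coe, dual_symm P.duality]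
  · intro x hx
    apply Subtype.ext
    apply P.duality.nondeg
    intro y
    rw [← E.B_p]
    exact hx (E.pU y)
  · intro x
    apply Subtype.ext
    rw [E.πU_coe, E.πU_coe, vanProj_idem]
  · intro x y
    rw [E.BU_apply, E.BU_apply, E.πU_coe, E.πU_coe, B_vanProj G P.duality E.orth]
  · intro x
    apply Subtype.ext
    rw [E.εU_coe, E.πU_coe, sgn_ker G E.odd (vanProj_mem G _)]
    rfl

variable {ι : Type} [Fintype ι] (D : SS F E.U ι)

/-- compatibility of the super space with the data -/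
structure Comp : Prop where
  hε : D.ε = E.εU
  hB : D.B = E.BU
  hπ : D.π = E.πU

variable {E D} (C : Comp E D)

include C in
lemma Comp.B_coe (x y : E.U) : D.B x y = P.B x y := by rw [C.hB, E.BU_apply]

include C in
lemma Comp.ε_coe (x : E.U) : ((D.ε x : E.U) : S.H) = S.sgn x := by rw [C.hε, E.εU_coe]

include C in
lemma Comp.π_coe (x : E.U) : ((D.π x : E.U) : S.H) = vanProj G x := by rw [C.hπ, E.πU_coe]

include C in
/-- comparison of the sums over dual bases -/
lemma Comp.casimir (β : S.H →ₗ[F] S.H →ₗ[F] F) :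
    ∑ j, β (E.p (P.e j)) (P.f j) = ∑ i, β (D.e i : S.H) (D.f i : S.H) := by
  have h1 : ∀ j, E.p (P.e j) = ∑ i, P.B (D.f i : S.H) (P.e j) • (D.e i : S.H) := by
    intro j
    have h2 := D.zig (E.pU (P.e j))
    have h3 := congrArg (Subtype.val : E.U → S.H) h2
    rw [E.pU_coe] at h3
    rw [← h3, Submodule.coe_sum]
    refine Finset.sum_congr rfl fun i _ => ?_
    rw [C.B_coe, E.pU_coe, E.B_p]
    rfl
  calc ∑ j, β (E.p (P.e j)) (P.f j)
      = ∑ j, ∑ i, P.B (D.f i : S.H) (P.e j) * β (D.e i : S.H) (P.f j) := by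
        refine Finset.sum_congr rfl fun j _ => ?_
        rw [h1, map_sum, LinearMap.sum_apply]
        exact Finset.sum_congr rfl fun i _ => by
          rw [map_smul, LinearMap.smul_apply, smul_eq_mul]
    _ = ∑ i, ∑ j, P.B (D.f i : S.H) (P.e j) * β (D.e i : S.H) (P.f j) := Finset.sum_comm
    _ = ∑ i, β (D.e i : S.H) (D.f i : S.H) := by
        refine Finset.sum_congr rfl fun i _ => ?_
        conv_rhs => rw [← P.zag (D.f i : S.H), map_sum]
        exact Finset.sum_congr rfl fun j _ => by rw [map_smul, smul_eq_mul]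

variable (E) in
/-- the restrictions to `U` of the cycles -/
def algU (n : ℕ) (t : List E.U → F) : Prop :=
  ∃ t', P.cyc n t' ∧ ∀ l : List E.U, l.length = n → t l = t' (l.map (Subtype.val))

/-- the bilinear form in two slots of a form -/
def slot₂ {n : ℕ} {t : List S.H → F} (h : IsEvenForm (parity S.dim S.π) n t) (l₁ l₂ : List S.H)
    (hl : l₁.length + l₂.length + 2 = n) : S.H →ₗ[F] S.H →ₗ[F] F :=
  LinearMap.mk₂ F (fun x y => t (l₁ ++ x :: y :: l₂))
    (fun x x' y => h.add l₁ _ x x' (by simp; omega))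
    (fun c x y => h.smul l₁ _ c x (by simp; omega))
    (fun x y y' => by
      have := h.add (l₁ ++ [x]) l₂ y y' (by simp; omega)
      simpa using this)
    (fun c x y => by
      have := h.smul (l₁ ++ [x]) l₂ c y (by simp; omega)
      simpa using this)

lemma neg_one_pow_cases (a : ℤ) : ((-1 : F)) ^ a.natAbs = 1 ∧ Even a ∨
    ((-1 : F)) ^ a.natAbs = -1 ∧ Odd a := by
  rcases Int.even_or_odd a with h | h
  · exact Or.inl ⟨(Int.natAbs_even.mpr h).neg_one_pow, h⟩
  · exact Or.inr ⟨(Int.natAbs_odd.mpr h).neg_one_pow, h⟩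

lemma isSwap_apply {n i : ℕ} {t t' : List S.H → F} (ht : IsEvenForm (parity S.dim S.π) n t)
    (ht' : IsEvenForm (parity S.dim S.π) n t') (h : IsSwap S.π n i t t') (l₁ l₂ : List S.H)
    (x y : S.H) (hi : l₁.length = i) (hn : i + l₂.length + 2 = n) :
    t' (l₁ ++ x :: y :: l₂) = 2⁻¹ * (t (l₁ ++ y :: x :: l₂) + t (l₁ ++ y :: S.sgn x :: l₂) +
      t (l₁ ++ S.sgn y :: x :: l₂) - t (l₁ ++ S.sgn y :: S.sgn x :: l₂)) := by
  let β := slot₂ ht l₁ l₂ (by omega)
  let β' := slot₂ ht' l₁ l₂ (by omega)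
  have hβ : ∀ x y, β x y = t (l₁ ++ x :: y :: l₂) := fun _ _ => rfl
  have hβ' : ∀ x y, β' x y = t' (l₁ ++ x :: y :: l₂) := fun _ _ => rfl
  rw [← hβ', ← hβ, ← hβ, ← hβ, ← hβ]
  refine ext_bilin (B := β') (C := (2⁻¹ : F) • (β.flip + β.flip.comp S.sgn +
    (β.comp S.sgn).flip - (β.comp S.sgn).flip.comp S.sgn)) ?_ x y
  intro a b x y hx hy
  show β' x y = 2⁻¹ * (β y x + β y (S.sgn x) + β (S.sgn y) x - β (S.sgn y) (S.sgn x))
  rw [hβ', h l₁ l₂ x y a b hi hn hx hy, ← hβ, S.sgn_apply hx, S.sgn_apply hy]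
  simp only [map_smul, LinearMap.smul_apply, smul_eq_mul]
  have h2 : (2 : F) ≠ 0 := two_ne_zero
  rcases neg_one_pow_cases (F := F) a with ⟨ha, ha'⟩ | ⟨ha, ha'⟩ <;>
    rcases neg_one_pow_cases (F := F) b with ⟨hb, hb'⟩ | ⟨hb, hb'⟩
  · rw [ha, hb, (Int.natAbs_even.mpr (ha'.mul_right b)).neg_one_pow]
    field_simp; ring
  · rw [ha, hb, (Int.natAbs_even.mpr (ha'.mul_right b)).neg_one_pow]
    field_simp; ring
  · rw [ha, hb, (Int.natAbs_even.mpr (hb'.mul_left a)).neg_one_pow]
    field_simp; ring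
  · rw [ha, hb, (Int.natAbs_odd.mpr (ha'.mul hb')).neg_one_pow]
    field_simp; ring

include C in
/-- The restrictions to `U` have all the closure properties. -/
theorem Comp.algForms : AlgForms D E.algU where
  form n t := by
    rintro ⟨t', ht', h⟩
    have hf := P.cycles.form n t' ht'
    refine ⟨?_, ?_, ?_⟩
    · intro l₁ l₂ x y hl
      rw [h _ (by simp; omega), h _ (by simp; omega), h _ (by simp; omega)]
      simp only [List.map_append, List.map_cons]
      exact hf.add _ _ _ _ (by simp; omega)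
    · intro l₁ l₂ c x hl
      rw [h _ (by simp; omega), h _ (by simp; omega)]
      simp only [List.map_append, List.map_cons]
      exact hf.smul _ _ _ _ (by simp; omega)
    · intro l hl
      rw [h _ (by simpa using hl), h _ hl, ← hf.even (l.map Subtype.val) (by simpa using hl)]
      congr 1
      rw [List.map_map, List.map_map]
      apply List.map_congr_left
      intro x _
      exact C.ε_coe x
  congr n t t' := by
    rintro ⟨t₀, ht₀, h⟩ h'
    exact ⟨t₀, ht₀, fun l hl => by rw [h' l hl, h l hl]⟩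
  add n t t' := by
    rintro ⟨t₀, ht₀, h⟩ ⟨t₁, ht₁, h'⟩
    refine ⟨_, P.cycles.add n t₀ t₁ ht₀ ht₁, fun l hl => ?_⟩
    rw [Pi.add_apply, h l hl, h' l hl]
  smul n r t := by
    rintro ⟨t₀, ht₀, h⟩
    refine ⟨_, P.cycles.smul n r t₀ ht₀, fun l hl => ?_⟩
    rw [Pi.smul_apply, h l hl, smul_eq_mul]
  one := ⟨_, P.cycles.one, fun l _ => rfl⟩
  diag := by
    obtain ⟨t, ht, ht'⟩ := P.cycles.corr 1 S.corr_one
    refine ⟨t, ht, ?_⟩
    intro l hl
    match l, hl with
    | [x, y], _ =>
      show D.B x y = t [x.1, y.1]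
      rw [ht', C.B_coe]
      rfl
  ins m n i t t' := by
    rintro ⟨t₀, ht₀, h⟩ ⟨t₁, ht₁, h'⟩ hi
    refine ⟨_, P.cycles.prod m n i t₀ t₁ ht₀ ht₁ hi, fun l hl => ?_⟩
    unfold ins prodForm
    rw [h _ (by simp; omega), h' _ (by simp; omega)]
    simp only [List.map_append, List.map_take, List.map_drop]
  swap n i t := by
    rintro ⟨t₀, ht₀, h⟩ hi
    obtain ⟨t₁, ht₁, h'⟩ := P.cycles.swap n i t₀ ht₀ hi
    refine ⟨t₁, ht₁, fun l hl => ?_⟩
    obtain ⟨l₁, x, y, l₂, rfl, hl₁⟩ : ∃ l₁ x y l₂, l = l₁ ++ x :: y :: l₂ ∧ l₁.length = i := by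
      refine ⟨l.take i, l[i], l[i + 1], l.drop (i + 2), ?_, by simp; omega⟩
      rw [List.cons_getElem_drop_succ, List.cons_getElem_drop_succ, List.take_append_drop]
    unfold sw
    rw [← hl₁, List.drop_left, List.take_left]
    have hlen : l₁.length + l₂.length + 2 = n := by simp at hl; omega
    show 2⁻¹ * (t _ + t _ + t _ - t _) = _
    rw [h _ (by simp; omega), h _ (by simp; omega), h _ (by simp; omega), h _ (by simp; omega)]
    simp only [List.map_append, List.map_cons]
    rw [isSwap_apply (P.cycles.form _ _ ht₀) (P.cycles.form _ _ ht₁) h' _ _ _ _ (by simpa using hl₁)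
      (by simp; omega)]
    simp only [C.ε_coe]
  contr n i t := by
    rintro ⟨t₀, ht₀, h⟩ hi
    obtain ⟨t₁, ht₁, h'⟩ := P.slot ht₀ E.alg (i := i) (by omega)
    refine ⟨_, P.cycles.contr n i t₁ ht₁ hi, fun l hl => ?_⟩
    have h1 : ∀ j : ι, t (l.take i ++ D.e j :: D.f j :: l.drop i) =
        slot₂ (P.cycles.form _ _ ht₀) ((l.map Subtype.val).take i) ((l.map Subtype.val).drop i)
          (by simp; omega) (D.e j : S.H) (D.f j : S.H) := by
      intro j
      rw [h _ (by simp; omega)]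
      simp only [List.map_append, List.map_cons, List.map_take, List.map_drop]
      rfl
    have h2 : ∀ j : Fin P.r, t₁ ((l.map Subtype.val).take i ++ P.e j :: P.f j ::
        (l.map Subtype.val).drop i) =
        slot₂ (P.cycles.form _ _ ht₀) ((l.map Subtype.val).take i) ((l.map Subtype.val).drop i)
          (by simp; omega) (E.p (P.e j)) (P.f j) := by
      intro j
      rw [h' _ _ _ (by simp; omega) (by simp; omega)]
      rfl
    show ∑ j, _ = ∑ j, _
    rw [Finset.sum_congr rfl fun j _ => h1 j, Finset.sum_congr rfl fun j _ => h2 j]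
    exact (C.casimir _).symm

end PData

end Pool.Agent.Helper89.NN
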