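import Pool.Agent.Helper89.NN.Restrict
import Pool.Agent.Helper89.NN.Lie

/-!
# Monodromy and (A1) on `U`
-/

namespace Pool.Agent.Helper89.NN

open Pool.Agent.Helper29.CPB TT

universe u v

variable {F : Type u} [Field F] [CharZero F] {X Z S : Variety.{u, v} F}

/-- supertrace in terms of dual bases -/
lemma Powers.str_eq (P : Powers X) {g : Module.End F X.H} (hg : g ∈ X.corr 0) :
    LinearMap.trace F X.H (g * X.sgn) = ∑ j, P.B (g (P.e j)) (P.f j) := by
  have h1 : g * X.sgn = ∑ j, (P.B (P.f j)).smulRight ((g * X.sgn) (P.e j)) := by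
    apply LinearMap.ext
    intro x
    rw [LinearMap.sum_apply]
    conv_lhs => rw [← P.bases.span x, map_sum]
    exact Finset.sum_congr rfl fun j _ => by rw [map_smul]; rfl
  rw [h1, map_sum]
  refine Finset.sum_congr rfl fun j _ => ?_
  rw [LinearMap.trace_smulRight, dual_symm P.duality (g (P.e j)) (P.f j), X.commute_sgn hg]
  rfl

namespace PData

variable {G : GenericSection Z S 1} {P : Powers S} {E : PData G P} {ι : Type} [Fintype ι]
  {D : SS F E.U ι} (C : Comp E D)

include C

theorem Comp.mono {Δ : Set S.H} (hM : IsLefschetz P.B P.cyc G.up G.dn Δ) : Mono D E.algU := by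
  intro n t ⟨t', ht', h⟩ v hv l hl
  have hv' : (v : S.H) ∈ Submodule.span F Δ := by
    rw [hM.span, LinearMap.mem_ker, ← vanProj_iff, ← C.π_coe, hv]
  have hf := P.cycles.form n t' ht'
  have hML : IsML n t' := ⟨hf.add, hf.smul⟩
  have hanti : ∀ v ∈ Submodule.span F Δ, ∀ x, P.B v x = - P.B x v := by
    intro v hv x
    rw [hM.span, LinearMap.mem_ker] at hv
    rw [dual_symm P.duality v x, sgn_ker G E.odd hv, map_neg]
  have hK : ∀ δ ∈ Δ, Kill n t' (nil P.B δ) := by
    intro δ hδ
    obtain ⟨k, hk, hinv⟩ := hM.cycles n t' ht' δ hδ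
    have hself : P.B δ δ = 0 := by
      have h1 := hanti δ (Submodule.subset_span hδ) δ
      have h2 : (2 : F) ≠ 0 := two_ne_zero
      have h3 : 2 * P.B δ δ = 0 := by linear_combination h1
      exact (mul_eq_zero.mp h3).resolve_left h2
    refine hML.kill_of_inv (k := (k : F)) (fun x => ?_) (Int.cast_ne_zero.mpr hk) fun l hl => ?_
    · rw [nil_apply, nil_apply, map_smul, LinearMap.smul_apply, hself, smul_zero, zero_smul]
    · rw [← hinv l hl]
      congr 1
      apply List.map_congr_left
      intro x _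
      rw [nil_apply, smul_smul]
      rfl
  have key := kill_span hML hanti hM.stable hM.conj hK v hv' (l.map Subtype.val) (by simpa using hl)
  rw [← key]
  exact der_map E.U.subtype (fun x => by
    rw [D.N_apply, nil_apply, C.B_coe]
    rfl) h hl

theorem Comp.scalar (hN : ∀ θ, Id G θ → NT S (θ * E.p)) : ScalarOnV D E.algU := by
  rintro t ⟨t', ht', h⟩
  obtain ⟨g, hg, hg'⟩ := P.cycles.corr' t' ht'
  have hg0 : g ∈ S.corr 0 := hg
  obtain ⟨γ, hγ, c, hc, hc'⟩ := scalar_ker G hg0
  have ht : ∀ x y : E.U, t [x, y] = P.B (g x) y := by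
    intro x y
    rw [h _ rfl]
    exact hg' x y
  refine ⟨c, ?_, ?_⟩
  · intro v y hv
    have h1 : G.dn (v : S.H) = 0 := by
      rw [← vanProj_iff, ← C.π_coe, hv]
    rw [ht, hc' _ h1, map_smul, LinearMap.smul_apply, smul_eq_mul, C.B_coe]
  · set u : Module.End F S.H := g - (c : F) • 1 with hu
    have huI : Id G u := by
      refine ⟨(S.corr 0).sub_mem hg0 (S.corr_smul c 0 1 S.corr_one), fun y hy => ?_⟩
      rw [hu, LinearMap.sub_apply, LinearMap.smul_apply, Module.End.one_apply, hc' y hy, sub_self]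
    have h1 : ∀ i, t [D.e i, D.f i] = (c : F) * D.B (D.e i) (D.f i) +
        (P.B ∘ₗ u) (D.e i : S.H) (D.f i : S.H) := by
      intro i
      rw [ht, C.B_coe, LinearMap.comp_apply, hu, LinearMap.sub_apply, map_sub,
        LinearMap.sub_apply, LinearMap.smul_apply, map_smul, LinearMap.smul_apply, smul_eq_mul,
        Module.End.one_apply, add_sub_cancel]
    rw [Finset.sum_congr rfl fun i _ => h1 i, Finset.sum_add_distrib, ← Finset.mul_sum,
      ← C.casimir]
    have h2 : ∑ j, (P.B ∘ₗ u) (E.p (P.e j)) (P.f j) = 0 := by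
      have h3 := P.str_eq (S.corr_mul' (t := 0) (by ring) huI.1 E.alg)
      have h4 := hN u huI 1 S.corr_one
      rw [one_mul] at h4
      rw [h4] at h3
      exact h3.symm
    rw [h2, add_zero]
    rfl

end PData

end Pool.Agent.Helper89.NN
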