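import Pool.Agent.Helper29.CPB.Statement

/-!
# Cycles on the powers of a variety, the nilpotence conjecture, vanishing cycles

Additions to `Pool.Agent.Helper29.CPB.Statement`. The class `z` of an algebraic cycle of codimension
`n dim X / 2` on `X^n` is regarded as the multilinear form
`t [x₁, …, xₙ] = ∫ z ∪ (x₁ × … × xₙ)`. Forms are functions of lists, only the values on the lists
of length `n` matter.
-/

namespace Pool.Agent.Helper89.NN

open Pool.Agent.Helper29.CPB

universe u v

section Linear

variable {F : Type u} [Field F] {V W : Type v} [AddCommGroup V] [Module F V] [AddCommGroup W]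
  [Module F W]

/-- Poincaré duality for `X` of dimension `n`: the form `B x y = ∫ x ∪ y` is non-degenerate and
graded commutative, and pairs `H^i` with `H^(2n-i)`. -/
structure IsDuality (n : ℕ) (π : ℤ → Module.End F V) (B : V →ₗ[F] V →ₗ[F] F) : Prop where
  nondeg : ∀ x, (∀ y, B x y = 0) → x = 0
  deg : ∀ (i j : ℤ) (x y : V), π i x = x → π j y = y → i + j ≠ 2 * n → B x y = 0
  comm : ∀ (i j : ℤ) (x y : V), π i x = x → π j y = y → B x y = (-1) ^ (i * j).natAbs * B y x

/-- `e` and `f` are dual homogeneous bases: `∑ e j × f j` is the class of the diagonal. -/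
structure IsDualBases (π : ℤ → Module.End F V) (B : V →ₗ[F] V →ₗ[F] F) {r : ℕ} (e f : Fin r → V) :
    Prop where
  homog : ∀ j, ∃ i, π i (e j) = e j
  dual : ∀ i j, B (f i) (e j) = if i = j then 1 else 0
  span : ∀ x, ∑ j, B (f j) x • e j = x

/-- `t` is multilinear on the lists of length `n`, and it is the form of a class of even degree
(`ε` is the parity operator). -/
structure IsEvenForm (ε : Module.End F V) (n : ℕ) (t : List V → F) : Prop where
  add : ∀ (l₁ l₂ : List V) (x y : V), l₁.length + l₂.length + 1 = n →
    t (l₁ ++ (x + y) :: l₂) = t (l₁ ++ x :: l₂) + t (l₁ ++ y :: l₂)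
  smul : ∀ (l₁ l₂ : List V) (c : F) (x : V), l₁.length + l₂.length + 1 = n →
    t (l₁ ++ (c • x) :: l₂) = c * t (l₁ ++ x :: l₂)
  even : ∀ l : List V, l.length = n → t (l.map ε) = t l

/-- `t'` arises from `t` by the interchange of the factors `i`, `i + 1` of `X^n`. -/
def IsSwap (π : ℤ → Module.End F V) (n i : ℕ) (t t' : List V → F) : Prop :=
  ∀ (l₁ l₂ : List V) (x y : V) (a b : ℤ), l₁.length = i → i + l₂.length + 2 = n →
    π a x = x → π b y = y →
    t' (l₁ ++ x :: y :: l₂) = (-1) ^ (a * b).natAbs * t (l₁ ++ y :: x :: l₂)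

/-- Exterior product of `t` and `t'`, the `n` factors of `t'` being placed after the `i`-th factor
of `t`. -/
def prodForm (i n : ℕ) (t t' : List V → F) : List V → F := fun l =>
  t (l.take i ++ l.drop (i + n)) * t' ((l.drop i).take n)

/-- Pull-back along the diagonal of the factors `i`, `i + 1` and push-forward forgetting it. -/
def contrForm {r : ℕ} (e f : Fin r → V) (i : ℕ) (t : List V → F) : List V → F := fun l =>
  ∑ j, t (l.take i ++ e j :: f j :: l.drop i)

/-- The formal properties of the forms `t [x₁, …, xₙ] = ∫ z ∪ (x₁ × … × xₙ)` of the algebraic cycles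
`z` of codimension `n dim X / 2` on the powers `X^n`: they form a `ℚ`-space, are stable under
exterior products, permutations of the factors, and contractions (pull-back along a diagonal,
followed by push-forward); on `X × X` they are the self-correspondences of degree `0` of `X`. -/
structure IsCycles (π : ℤ → Module.End F V) (ε : Module.End F V) (alg : Module.End F V → Prop)
    (B : V →ₗ[F] V →ₗ[F] F) {r : ℕ} (e f : Fin r → V) (cyc : ℕ → (List V → F) → Prop) : Prop where
  form : ∀ n t, cyc n t → IsEvenForm ε n t
  congr : ∀ n t t', cyc n t → (∀ l, l.length = n → t' l = t l) → cyc n t'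
  add : ∀ n t t', cyc n t → cyc n t' → cyc n (fun l => t l + t' l)
  smul : ∀ n (q : ℚ) t, cyc n t → cyc n (fun l => (q : F) * t l)
  one : cyc 0 (fun _ => 1)
  corr : ∀ g, alg g → ∃ t, cyc 2 t ∧ ∀ x y, t [x, y] = B (g x) y
  corr' : ∀ t, cyc 2 t → ∃ g, alg g ∧ ∀ x y, t [x, y] = B (g x) y
  prod : ∀ m n i t t', cyc m t → cyc n t' → i ≤ m → cyc (m + n) (prodForm i n t t')
  swap : ∀ n i t, cyc n t → i + 2 ≤ n → ∃ t', cyc n t' ∧ IsSwap π n i t t'
  contr : ∀ n i t, cyc (n + 2) t → i ≤ n → cyc n (contrForm e f i t)

/-- `∑ t (l₁, e_{j₁}, …, e_{jₘ}) t' (f_{jₘ}, …, f_{j₁}, l₂)`: the last `m` factors of `t` are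
contracted with the first `m` factors of `t'`, in the reverse order. -/
def linkForm {r : ℕ} (e f : Fin r → V) : ℕ → (List V → F) → (List V → F) → List V → List V → F
  | 0, t, t', l₁, l₂ => t l₁ * t' l₂
  | m + 1, t, t', l₁, l₂ => ∑ j, linkForm e f m t t' (l₁ ++ [e j]) (f j :: l₂)

/-- Powers of a self-correspondence `t` of `X^k` of degree `0`, regarded as the form
`t [x₁, …, x_k, y_k, …, y₁]`. -/
def powForm {r : ℕ} (e f : Fin r → V) (k : ℕ) (t : List V → F) : ℕ → List V → F
  | 0 => t
  | N + 1 => fun l => linkForm e f k (powForm e f k t N) t (l.take k) (l.drop k)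

/-- The Picard–Lefschetz formula in odd dimension: the `k`-th power of the transvection attached to
the vanishing cycle `δ`. -/
def transv (B : W →ₗ[F] W →ₗ[F] F) (k : ℤ) (δ x : W) : W := x + ((k : F) * B x δ) • δ

/-- Picard–Lefschetz theory of the generic hyperplane section `S` of `Z`, of odd dimension. `up` and
`dn` are the restriction and the Gysin map, `Δ` is the set of all vanishing cycles. The local
monodromies are the `transv B 1 δ`, `δ ∈ Δ`, or their inverses.
* `orth`: the projection formula.
* `span`: the vanishing cycles span the kernel of the Gysin map.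
* `stable`: the set of the vanishing cycles is stable under the monodromy.
* `conj`: the vanishing cycles are conjugate up to sign under the (profinite) monodromy group, hence
  a subspace stable under the local monodromies which contains one of them contains all of them.
* `cycles`: an algebraic cycle on a power of `S` is defined over a finite extension of the field of
  definition of the generic section, hence its class is invariant under a power of each local
  monodromy. -/
structure IsLefschetz (B : W →ₗ[F] W →ₗ[F] F) (cyc : ℕ → (List W → F) → Prop)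
    (up : V →ₗ[F] W) (dn : W →ₗ[F] V) (Δ : Set W) : Prop where
  orth : ∀ z y, dn y = 0 → B (up z) y = 0
  span : Submodule.span F Δ = LinearMap.ker dn
  stable : ∀ δ ∈ Δ, ∀ y ∈ Δ, transv B 1 δ y ∈ Δ
  conj : ∀ A : Submodule F W, (∀ δ ∈ Δ, ∀ x ∈ A, transv B 1 δ x ∈ A) → (∃ y ∈ Δ, y ∈ A) → Δ ⊆ A
  cycles : ∀ n t, cyc n t → ∀ δ ∈ Δ, ∃ k : ℤ, k ≠ 0 ∧
    ∀ l : List W, l.length = n → t (l.map (transv B k δ)) = t l

end Linear

variable {F : Type u} [Field F]

/-- The algebraic cycles of middle codimension on the powers of `X`. -/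
structure Powers (X : Variety.{u, v} F) where
  /-- the form `∫ x ∪ y` -/
  B : X.H →ₗ[F] X.H →ₗ[F] F
  /-- the number of basis vectors -/
  r : ℕ
  /-- a basis -/
  e : Fin r → X.H
  /-- the dual basis -/
  f : Fin r → X.H
  /-- `cyc n t`: the form `t` is given by an algebraic cycle on `X^n` -/
  cyc : ℕ → (List X.H → F) → Prop
  duality : IsDuality X.dim X.π B
  bases : IsDualBases X.π B e f
  cycles : IsCycles X.π (parity X.dim X.π) (X.alg 0) B e f cyc

/-- The nilpotence conjecture for `X`: a numerically trivial algebraic self-correspondence of degree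
`0` is nilpotent (on the cohomology). -/
def Nilpotence (X : Variety.{u, v} F) : Prop :=
  ∀ a, X.alg 0 a → (∀ b, X.alg 0 b → tr (b * a * parity X.dim X.π) = 0) → IsNilpotent a

/-- The nilpotence conjecture for `X^k`: a self-correspondence of degree `0` of `X^k`, that is a
cycle `t` of codimension `k dim X` on `X^(2k)`, is nilpotent if its intersection numbers with all
cycles of codimension `k dim X` vanish. -/
def Powers.Nilpotence {X : Variety.{u, v} F} (P : Powers X) (k : ℕ) : Prop :=
  ∀ t, P.cyc (2 * k) t →
    (∀ t', P.cyc (2 * k) t' → linkForm P.e P.f (2 * k) t t' [] [] = 0) →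
    ∃ N, ∀ l : List X.H, l.length = 2 * k → powForm P.e P.f k t N l = 0

/-- `S` is a generic member of `|mL|` on `Z`, `m` large: the vanishing cohomology `ker dn` has large
dimension compared with the cohomology of `Z`. -/
structure GenericMember (Z S : Variety.{u, v} F) (P : Powers S) extends GenericSection Z S 1 where
  /-- the vanishing cycles -/
  Δ : Set S.H
  monodromy : IsLefschetz P.B P.cyc up dn Δ
  large : 2 * Module.finrank F Z.H ^ 2 + Module.finrank F Z.H <
    Module.finrank F (LinearMap.ker dn)

/-- A class `𝒱` of varieties (with the cycles on their powers) stable under squares and generic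
hyperplane sections of squares. -/
def SquareSectionClosed (𝒱 : Set (Sigma (Powers (F := F)))) : Prop :=
  ∀ X ∈ 𝒱, ∃ Z ∈ 𝒱, ∃ μ : X.1.H → X.1.H → Z.1.H, SelfProduct X.1 Z.1 μ ∧
    (1 ≤ X.1.dim → ∃ S ∈ 𝒱, Nonempty (GenericMember Z.1 S.1 S.2))

end Pool.Agent.Helper89.NN
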