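import Pool.Agent.Helper89.NN.LemmaA

/-!
# The end of Lemma A
-/

namespace Pool.Agent.Helper89.NN

universe u v w

variable {F : Type u} [Field F] {U : Type v} [AddCommGroup U] [Module F U] {ι : Type w} [Fintype ι]
  {D : SS F U ι}

section matrix

variable {κ : Type*} [Fintype κ] [DecidableEq κ]

/-- `M` respects the parity `P`. -/
def Blk (P : κ → Bool) (M : Matrix κ κ F) : Prop := ∀ a b, P a ≠ P b → M a b = 0

lemma Blk.mul {P : κ → Bool} {M M' : Matrix κ κ F} (h : Blk P M) (h' : Blk P M') :
    Blk P (M * M') := by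
  intro a b hab
  rw [Matrix.mul_apply]
  refine Finset.sum_eq_zero fun k _ => ?_
  by_cases hk : P a = P k
  · rw [h' k b (by rwa [← hk]), mul_zero]
  · rw [h a k hk, zero_mul]

lemma Blk.pow {P : κ → Bool} {M : Matrix κ κ F} (h : Blk P M) (r : ℕ) : Blk P (M ^ (r + 1)) := by
  induction r with
  | zero => simpa using h
  | succ r ih => rw [pow_succ]; exact ih.mul h

/-- the block of parity `c` -/
def blk (P : κ → Bool) (M : Matrix κ κ F) (c : Bool) : Matrix {a // P a = c} {a // P a = c} F :=
  M.submatrix Subtype.val Subtype.val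

lemma blk_mul {P : κ → Bool} {M M' : Matrix κ κ F} (h : Blk P M) (c : Bool) :
    blk P (M * M') c = blk P M c * blk P M' c := by
  ext a b
  show (M * M') a b = _
  rw [Matrix.mul_apply, Matrix.mul_apply,
    ← Fintype.sum_subtype_add_sum_subtype (fun k => P k = c)]
  have : ∑ k : {k // ¬ P k = c}, M a k * M' k b = 0 :=
    Finset.sum_eq_zero fun k _ => by
      rw [h a k (by rw [a.2]; exact fun h' => k.2 h'.symm), zero_mul]
  rw [this, add_zero]
  rfl

lemma blk_pow {P : κ → Bool} {M : Matrix κ κ F} (h : Blk P M) (c : Bool) (r : ℕ) :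
    blk P (M ^ (r + 1)) c = blk P M c ^ (r + 1) := by
  induction r with
  | zero => simp
  | succ r ih => rw [pow_succ, blk_mul (h.pow r), ih, ← pow_succ]

lemma str_blk (P : κ → Bool) (M : Matrix κ κ F) :
    ∑ a, sp F (P a) * M a a = (blk P M false).trace - (blk P M true).trace := by
  rw [← Fintype.sum_subtype_add_sum_subtype (fun k => P k = false)]
  have h1 : ∑ a : {a // P a = false}, sp F (P a) * M a a = (blk P M false).trace := by
    refine Finset.sum_congr rfl fun a _ => ?_
    rw [a.2, sp_false, one_mul]; rfl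
  have h2 : ∑ a : {a // ¬ P a = false}, sp F (P a) * M a a = - (blk P M true).trace := by
    rw [Matrix.trace, ← Finset.sum_neg_distrib]
    refine Fintype.sum_equiv (Equiv.subtypeEquivRight fun a => by simp) _ _ ?_
    intro a
    have : P a = true := by simpa using a.2
    rw [this, sp_true, neg_one_mul]
    rfl
  rw [h1, h2, sub_eq_add_neg]

variable {κ' : Type*} [Fintype κ'] [DecidableEq κ']

/-- Matrix version of `str_eq_zero`. -/
lemma mat_str_eq_zero [CharZero F] (P : κ → Bool) (Q : κ' → Bool) (A : Matrix κ κ F)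
    (B : Matrix κ' κ' F) (hA : Blk P A) (hB : Blk Q B) (N : ℕ) (hN : 2 * Fintype.card κ' < N)
    (h : ∀ r, 2 * ∑ b, sp F (Q b) * (B ^ (r + 1)) b b =
      (N : F) * ∑ a, sp F (P a) * (A ^ (r + 1)) a a) :
    ∑ a, sp F (P a) * A a a = 0 := by
  have hc : ∀ c, Fintype.card {b // Q b = c} ≤ Fintype.card κ' := fun c =>
    Fintype.card_subtype_le _
  rw [str_blk, sub_eq_zero, ← Matrix.trace_toLin'_eq, ← Matrix.trace_toLin'_eq]
  refine str_eq_zero (Matrix.toLin' (blk P A false)) (Matrix.toLin' (blk P A true))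
    (Matrix.toLin' (blk Q B false)) (Matrix.toLin' (blk Q B true)) N ?_ ?_ ?_
  · rw [Module.finrank_fintype_fun_eq_card]
    have := hc false
    omega
  · rw [Module.finrank_fintype_fun_eq_card]
    have := hc true
    omega
  · intro r hr
    obtain ⟨r, rfl⟩ := Nat.exists_eq_succ_of_ne_zero (Nat.one_le_iff_ne_zero.mp hr)
    have h1 := h r
    rw [str_blk, str_blk, blk_pow hA, blk_pow hA, blk_pow hB, blk_pow hB] at h1
    simp only [← Matrix.toLin'_pow, Matrix.trace_toLin'_eq]
    exact h1

end matrix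

section
variable [CharZero F] {alg : ℕ → (List U → F) → Prop}

lemma form_even {n : ℕ} {t : List U → F} (h : IsForm D 4 t) {x y z w : U} {a b c d : Bool}
    (hx : D.Par a x) (hy : D.Par b y) (hz : D.Par c z) (hw : D.Par d w)
    (hs : sp F a * sp F b * sp F c * sp F d = -1) : t [x, y, z, w] = 0 := by
  have h1 := h.even [x, y, z, w] rfl
  simp only [List.map_cons, List.map_nil] at h1
  have e1 := h.smul [] [sp F b • y, sp F c • z, sp F d • w] (sp F a) x rfl
  have e2 := h.smul [x] [sp F c • z, sp F d • w] (sp F b) y rfl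
  have e3 := h.smul [x, y] [sp F d • w] (sp F c) z rfl
  have e4 := h.smul [x, y, z] [] (sp F d) w rfl
  simp only [List.nil_append, List.cons_append] at e1 e2 e3 e4
  have hx' : D.ε x = sp F a • x := hx
  have hy' : D.ε y = sp F b • y := hy
  have hz' : D.ε z = sp F c • z := hz
  have hw' : D.ε w = sp F d • w := hw
  rw [hx', hy', hz', hw', e1, e2, e3, e4] at h1
  have h2 : (2 : F) ≠ 0 := two_ne_zero
  have h3 : 2 * t [x, y, z, w] = 0 := by
    linear_combination (t [x, y, z, w]) * hs - h1
  exact (mul_eq_zero.mp h3).resolve_left h2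

lemma Am_blk (hA : AlgForms D alg) {t : List U → F} (h : alg 4 t) (i₀ : Vx D) :
    Blk (fun j : Wx D => D.p j) (Am D i₀ t) := by
  intro a j haj
  unfold Am
  rw [form_even (n := 4) (hA.form _ _ h) (D.par_f i₀) (D.par_f j) (D.par_e a) (D.par_e i₀),
    mul_zero]
  have haj' : D.p a ≠ D.p j := haj
  rcases ha : D.p a <;> rcases hj : D.p j <;> rcases hi : D.p i₀ <;> simp_all [sp]

lemma Bm_blk (hA : AlgForms D alg) {t : List U → F} (h : alg 4 t) :
    Blk (fun k : Wx D × Wx D => xor (D.p k.1) (D.p k.2)) (Bm D t) := by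
  intro k i hki
  unfold Bm
  rw [form_even (n := 4) (hA.form _ _ h) (D.par_f _) (D.par_f _) (D.par_e _) (D.par_e _)]
  have hki' : xor (D.p k.1) (D.p k.2) ≠ xor (D.p i.1) (D.p i.2) := hki
  rcases h1 : D.p k.1 <;> rcases h2 : D.p k.2 <;> rcases h3 : D.p i.1 <;> rcases h4 : D.p i.2 <;>
    simp_all [sp]

lemma sp_xor (a b : Bool) : sp F (xor a b) = sp F a * sp F b := by
  cases a <;> cases b <;> simp [sp]

/-- the super dimension of `W`, plus `b`, is a natural number -/
lemma delta_eq (D : SS F U ι) (hb : Fintype.card (Wx D) ≤ bV D) :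
    ∃ N : ℕ, (N : F) = D.δ + 2 * bV D ∧ bV D ≤ N + Fintype.card (Wx D) := by
  have h1 : D.δ = - (bV D : F) + ∑ j : Wx D, sp F (D.p j) := by
    unfold SS.δ
    rw [sum_VW D]
    congr 1
    · rw [Finset.sum_congr rfl fun i _ => by rw [B_ef, pV, sp_true], Finset.sum_const,
        Finset.card_univ, nsmul_eq_mul]
      unfold bV
      ring
    · exact Finset.sum_congr rfl fun i _ => B_ef _
  have h2 : ∑ j : Wx D, sp F (D.p j) = (Fintype.card {j : Wx D // D.p j = false} : F) -
      Fintype.card {j : Wx D // ¬ D.p j = false} := by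
    rw [← Fintype.sum_subtype_add_sum_subtype (fun j : Wx D => D.p j = false), sub_eq_add_neg]
    congr 1
    · rw [Finset.sum_congr rfl fun (i : {j : Wx D // D.p j = false}) _ => by rw [i.2, sp_false],
        Finset.sum_const, Finset.card_univ, nsmul_eq_mul, mul_one]
    · rw [Finset.sum_congr rfl fun (i : {j : Wx D // ¬ D.p j = false}) _ => by
          rw [(by simpa using i.2 : D.p i = true), sp_true],
        Finset.sum_const, Finset.card_univ, nsmul_eq_mul, mul_neg_one]
  have h3 : Fintype.card {j : Wx D // D.p j = false} + Fintype.card {j : Wx D // ¬ D.p j = false} =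
      Fintype.card (Wx D) := by
    have h4 := Fintype.card_subtype_compl (fun j : Wx D => D.p j = false)
    have h5 := Fintype.card_subtype_le (fun j : Wx D => D.p j = false)
    omega
  refine ⟨bV D - Fintype.card {j : Wx D // ¬ D.p j = false} +
    Fintype.card {j : Wx D // D.p j = false}, ?_, by omega⟩
  rw [h1, h2]
  push_cast [Nat.cast_sub (show Fintype.card {j : Wx D // ¬ D.p j = false} ≤ bV D by omega)]
  ring

/-- LEMMA A. -/
theorem lemmaA (hA : AlgForms D alg) (hM : Mono D alg) (hV : ScalarOnV D alg)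
    (hb : 2 * Fintype.card (Wx D) ^ 2 + Fintype.card (Wx D) < bV D) {t : List U → F}
    (h : SK D alg t) : str₄ D t = 0 := by
  classical
  have hb0 : 0 < bV D := by omega
  obtain ⟨i₀⟩ : Nonempty (Vx D) := Fintype.card_pos_iff.mp hb0
  obtain ⟨N, hN, hN'⟩ := delta_eq D (by omega)
  have key : ∑ j : Wx D, sp F (D.p j) * Am D i₀ t j j = 0 := by
    refine mat_str_eq_zero (fun j : Wx D => D.p j)
      (fun k : Wx D × Wx D => xor (D.p k.1) (D.p k.2)) (Am D i₀ t) (Bm D t)
      (Am_blk hA h.alg i₀) (Bm_blk hA h.alg) N ?_ ?_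
    · rw [Fintype.card_prod]
      nlinarith
    · intro r
      have h1 := str_SK hA hM (h.pw hA r) i₀
      have h2 := str_A1 hA hM hV (h.pw hA r) i₀
      rw [Am_pw hA hM h, Bm_pw hA hM h] at h1
      rw [Am_pw hA hM h] at h2
      simp only [sp_xor]
      rw [hN]
      linear_combination h2 - 2 * h1
  have h2 := str_A1 hA hM hV h i₀
  rw [key, mul_zero] at h2
  have h3 : (2 : F) ≠ 0 := two_ne_zero
  exact (mul_eq_zero.mp h2).resolve_left h3

end

end Pool.Agent.Helper89.NN
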