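import Pool.Agent.Helper89.NN.Van
import Mathlib.RingTheory.Idempotents

/-!
# The symmetric idempotent attached to a generic hyperplane section
-/

namespace Pool.Agent.Helper89.NN

open Pool.Agent.Helper29.CPB TT

universe u v

variable {F : Type u} [Field F] [CharZero F] {X Z S : Variety.{u, v} F}

/-- numerically trivial -/
def NT (X : Variety.{u, v} F) (a : Module.End F X.H) : Prop :=
  ∀ v ∈ X.corr 0, LinearMap.trace F X.H (v * a * X.sgn) = 0

lemma NT.mul_left {a b : Module.End F X.H} (h : NT X a) (hb : b ∈ X.corr 0) : NT X (b * a) := by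
  intro v hv
  rw [← mul_assoc v b a]
  exact h _ (X.corr_mul' (by ring) hv hb)

lemma NT.mul_right {a b : Module.End F X.H} (h : NT X a) (hb : b ∈ X.corr 0) : NT X (a * b) := by
  intro v hv
  have h1 : v * (a * b) * X.sgn = (v * a * X.sgn) * b := by
    rw [← mul_assoc, mul_assoc _ b X.sgn, X.commute_sgn hb]
    simp only [mul_assoc]
  rw [h1, LinearMap.trace_mul_comm, ← mul_assoc, ← mul_assoc]
  exact h _ (X.corr_mul' (by ring) hb hv)

lemma NT.add {a b : Module.End F X.H} (h : NT X a) (h' : NT X b) : NT X (a + b) := by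
  intro v hv
  rw [mul_add, add_mul, map_add, h v hv, h' v hv, add_zero]

lemma NT.smul {a : Module.End F X.H} (h : NT X a) (c : F) : NT X (c • a) := by
  intro v hv
  rw [mul_smul_comm, smul_mul_assoc, map_smul, h v hv, smul_zero]

lemma NT.sub {a b : Module.End F X.H} (h : NT X a) (h' : NT X b) : NT X (a - b) := by
  intro v hv
  rw [mul_sub, sub_mul, map_sub, h v hv, h' v hv, sub_zero]

lemma NT.nilpotent {a : Module.End F X.H} (h : NT X a) (ha : a ∈ X.corr 0) (hX : Nilpotence X) :
    IsNilpotent a := hX a ha h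

/-- a unit modulo numerically trivial elements -/
theorem exists_unit (X : Variety.{u, v} F) (s : Set (Module.End F X.H))
    (hs0 : ∀ y ∈ s, y ∈ X.corr 0) (hsz : (0 : Module.End F X.H) ∈ s)
    (hadd : ∀ x ∈ s, ∀ y ∈ s, x + y ∈ s) (hsmul : ∀ (q : ℚ), ∀ y ∈ s, (q : F) • y ∈ s)
    (hmul : ∀ x ∈ s, ∀ y ∈ s, x * y ∈ s) :
    ∃ w ∈ s, ∀ θ ∈ s, LinearMap.trace F X.H (θ * (1 - w) * X.sgn) = 0 := by
  let I : Submodule F (Module.End F X.H) := Submodule.span F s
  have hI : ∀ x ∈ I, ∀ y ∈ I, x * y ∈ I := by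
    intro x hx y hy
    have h1 : x * y ∈ I * I := Submodule.mul_mem_mul hx hy
    have h2 : I * I ≤ I := by
      show Submodule.span F s * Submodule.span F s ≤ _
      rw [Submodule.span_mul_span]
      apply Submodule.span_mono
      rintro _ ⟨a, ha, b, hb, rfl⟩
      exact hmul a ha b hb
    exact h2 h1
  have hcomm : ∀ x ∈ I, x * X.sgn = X.sgn * x := by
    intro x hx
    induction hx using Submodule.span_induction with
    | mem x hx => exact X.commute_sgn (hs0 x hx)
    | zero => simp
    | add x y _ _ hx hy => rw [add_mul, mul_add, hx, hy]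
    | smul a x _ hx => rw [smul_mul_assoc, mul_smul_comm, hx]
  obtain ⟨f, hf, hf'⟩ := Pool.Agent.Helper89.CPB.exists_generator_F I hI
  have hzero : ∀ y ∈ I, LinearMap.trace F X.H (y * (1 - f) * X.sgn) = 0 := by
    intro y hy
    have hm : y * (1 - f) ∈ I := by
      rw [mul_sub, mul_one]; exact I.sub_mem hy (hI _ hy _ hf)
    have h1 : IsNilpotent (y * (1 - f) * X.sgn) :=
      Commute.isNilpotent_mul_right (show Commute _ X.sgn from hcomm _ hm) (hf' y hy)
    have h2 := LinearMap.isNilpotent_trace_of_isNilpotent h1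
    rwa [isNilpotent_iff_eq_zero] at h2
  obtain ⟨n, a, g, hfg⟩ := Submodule.mem_span_set'.mp hf
  obtain ⟨l, hl⟩ := Pool.Agent.Helper17.Sign.exists_retraction F
  refine ⟨∑ i, ((l (a i) : ℚ) : F) • (g i : Module.End F X.H), ?_, ?_⟩
  · have key : ∀ t : Finset (Fin n), ∑ i ∈ t, ((l (a i) : ℚ) : F) • (g i : Module.End F X.H) ∈ s := by
      intro t
      classical
      induction t using Finset.induction_on with
      | empty => simpa using hsz
      | insert i t hi ih =>
        rw [Finset.sum_insert hi]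
        exact hadd _ (hsmul _ _ (g i).2) _ ih
    exact key _
  · intro θ hθ
    have hrat : ∀ y ∈ X.corr 0, ∃ q : ℚ, LinearMap.trace F X.H (y * X.sgn) = (q : F) :=
      fun y hy => X.corr_rat y hy
    obtain ⟨q0, hq0⟩ := hrat _ (hs0 _ hθ)
    have hq : ∀ i, ∃ q : ℚ, LinearMap.trace F X.H (θ * (g i : Module.End F X.H) * X.sgn) =
        (q : F) := fun i => hrat _ (hs0 _ (hmul _ hθ _ (g i).2))
    choose q hq using hq
    have h1 := hzero _ (Submodule.subset_span hθ)
    rw [← hfg, mul_sub, mul_one, sub_mul, map_sub, hq0, Finset.mul_sum, Finset.sum_mul,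
      map_sum] at h1
    have h3 : ∑ i, LinearMap.trace F X.H (θ * a i • (g i : Module.End F X.H) * X.sgn) =
        ∑ i, a i * (q i : F) := by
      refine Finset.sum_congr rfl fun i _ => ?_
      rw [mul_smul_comm, smul_mul_assoc, map_smul, hq i, smul_eq_mul]
    rw [h3, sub_eq_zero] at h1
    have h4 : q0 = ∑ i, l (a i) * q i := by
      have h5 := congrArg l h1
      rw [hl, map_sum] at h5
      rw [h5]
      refine Finset.sum_congr rfl fun i _ => ?_
      rw [mul_comm (a i) (q i : F), ← Rat.smul_def, map_smul, smul_eq_mul, mul_comm]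
    rw [mul_sub, mul_one, sub_mul, map_sub, hq0, Finset.mul_sum, Finset.sum_mul,
      map_sum, sub_eq_zero, h4]
    push_cast
    refine Finset.sum_congr rfl fun i _ => ?_
    rw [mul_smul_comm, smul_mul_assoc, map_smul, hq i, smul_eq_mul]

section adjoint
variable {B : X.H →ₗ[F] X.H →ₗ[F] F} (hB : IsDuality X.dim X.π B)

/-- the isomorphism of `H` with its dual -/
noncomputable def toDual' : X.H ≃ₗ[F] Module.Dual F X.H := by
  have hinj : Function.Injective B.flip := by
    rw [injective_iff_map_eq_zero]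
    intro y hy
    exact dual_right hB y fun x => congrArg (fun f => f x) hy
  exact LinearEquiv.ofBijective B.flip ⟨hinj,
    (LinearMap.injective_iff_surjective_of_finrank_eq_finrank
      (Subspace.dual_finrank_eq (K := F) (V := X.H)).symm).mp hinj⟩

lemma toDual'_apply (x z : X.H) : toDual' hB x z = B z x := rfl

include hB

/-- adjoint operators have the same trace -/
lemma trace_adj {f g : Module.End F X.H} (h : ∀ x y, B (g x) y = B x (f y)) :
    LinearMap.trace F X.H g = LinearMap.trace F X.H f := by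
  have h1 : (toDual' hB).symm.conj (Module.Dual.transpose g) = f := by
    apply LinearMap.ext
    intro y
    rw [LinearEquiv.conj_apply_apply, LinearEquiv.symm_symm, LinearEquiv.symm_apply_eq]
    apply LinearMap.ext
    intro x
    rw [toDual'_apply, ← h, Module.Dual.transpose_apply]
    rfl
  rw [← h1, LinearMap.trace_conj', LinearMap.trace_transpose']

end adjoint

section unit

variable (G : GenericSection Z S 1) (P : Powers S)

/-- transposes -/
lemma exists_transp {g : Module.End F S.H} (hg : g ∈ S.corr 0) :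
    ∃ g' ∈ S.corr 0, (∀ x y, P.B (g' x) y = P.B x (g y)) ∧ (∀ x y, P.B (g x) y = P.B x (g' y)) := by
  obtain ⟨t, ht, ht'⟩ := P.cycles.corr g hg
  obtain ⟨t', ht1, ht2⟩ := P.cycles.swap 2 0 t ht (by omega)
  obtain ⟨g', hg', hg2⟩ := P.cycles.corr' t' ht1
  have hg'' : g' ∈ S.corr 0 := hg'
  have key : ∀ x y, P.B (g' x) y = P.B x (g y) := by
    intro x y
    refine ext_bilin (B := P.B.comp g') (C := P.B.compl₂ g) ?_ x y
    intro a b x y hx hy
    show P.B (g' x) y = P.B x (g y)
    have h1 := ht2 [] [] x y a b rfl rfl hx hy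
    simp only [List.nil_append] at h1
    rw [← hg2, h1, ht', dual_symm P.duality x (g y), S.sgn_apply hx, map_smul, smul_eq_mul]
    have hgy := S.corr_homog hg (i := b) (j := b) (by ring) hy
    by_cases hab : a + b = 2 * (S.dim : ℤ)
    · rw [natAbs_mul_parity hab]
    · rw [P.duality.deg b a _ _ hgy hx (by omega), mul_zero, mul_zero]
  refine ⟨g', hg'', key, ?_⟩
  intro x y
  rw [dual_symm P.duality (g x) y, ← Module.End.mul_apply, ← S.commute_sgn hg,
    Module.End.mul_apply, ← key, dual_symm P.duality (g' y) (S.sgn x), dual_sgn P.duality]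

/-- the transpose of a numerically trivial operator is numerically trivial -/
lemma NT.transp {g g' : Module.End F S.H} (hg : g ∈ S.corr 0) (hn : NT S g)
    (h : ∀ x y, P.B (g' x) y = P.B x (g y)) : NT S g' := by
  intro v hv
  obtain ⟨v', hv', h1, h2⟩ := exists_transp P hv
  have hs : ∀ x y, P.B (S.sgn x) y = P.B x (S.sgn y) := by
    intro x y
    have := dual_sgn P.duality x (S.sgn y)
    rwa [sgn_sgn] at this
  rw [trace_adj P.duality (f := S.sgn * g * v') (g := v * g' * S.sgn)]
  · rw [LinearMap.trace_mul_comm, ← S.commute_sgn hg, ← mul_assoc]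
    exact hn v' hv'
  · intro x y
    simp only [Module.End.mul_apply]
    rw [h2, h, hs]

/-- self-adjoint operators -/
def SA (f : Module.End F S.H) : Prop := ∀ x y, P.B (f x) y = P.B x (f y)

lemma SA.one : SA P (1 : Module.End F S.H) := fun _ _ => rfl

lemma SA.sub {f g : Module.End F S.H} (hf : SA P f) (hg : SA P g) : SA P (f - g) := by
  intro x y
  rw [LinearMap.sub_apply, LinearMap.sub_apply, map_sub, LinearMap.sub_apply, map_sub, hf, hg]

lemma SA.pow {f : Module.End F S.H} (hf : SA P f) (n : ℕ) : SA P (f ^ n) := by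
  induction n with
  | zero => exact SA.one P
  | succ n ih =>
    intro x y
    have h1 : (f ^ (n + 1)) x = (f ^ n) (f x) := by rw [pow_succ, Module.End.mul_apply]
    have h2 : (f ^ (n + 1)) y = f ((f ^ n) y) := by rw [pow_succ', Module.End.mul_apply]
    rw [h1, h2, ih, hf]

/-- the ideal of the correspondences which kill the vanishing cohomology -/
def Id (g : Module.End F S.H) : Prop := g ∈ S.corr 0 ∧ ∀ y, G.dn y = 0 → g y = 0

lemma Id.mul_left {g v : Module.End F S.H} (h : Id G g) (hv : v ∈ S.corr 0) : Id G (v * g) :=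
  ⟨S.corr_mul' (by ring) hv h.1, fun y hy => by
    rw [Module.End.mul_apply, h.2 y hy, map_zero]⟩

lemma scalar_ker {v : Module.End F S.H} (hv : v ∈ S.corr 0) : ∃ γ ∈ Z.corr (-1), ∃ c : ℚ,
    (∀ y, v y = G.up (γ (G.dn y)) + (c : F) • y) ∧ (∀ y, G.dn y = 0 → v y = (c : F) • y) := by
  obtain ⟨γ, hγ, c, hc⟩ := G.generic v hv
  have h : ∀ y, v y = G.up (γ (G.dn y)) + (c : F) • y := fun y => by rw [hc]; rfl
  refine ⟨γ, by simpa using hγ, c, h, ?_⟩
  intro y hy
  rw [h, hy, map_zero, map_zero, zero_add]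

lemma Id.mul_right {g v : Module.End F S.H} (h : Id G g) (hv : v ∈ S.corr 0) : Id G (g * v) := by
  obtain ⟨γ, -, c, -, hc⟩ := scalar_ker G hv
  refine ⟨S.corr_mul' (by ring) h.1 hv, fun y hy => ?_⟩
  rw [Module.End.mul_apply, hc y hy, map_smul, h.2 y hy, smul_zero]

lemma Id.add {g v : Module.End F S.H} (h : Id G g) (hv : Id G v) : Id G (g + v) :=
  ⟨(S.corr 0).add_mem h.1 hv.1, fun y hy => by
    rw [LinearMap.add_apply, h.2 y hy, hv.2 y hy, add_zero]⟩

lemma Id.smul {g : Module.End F S.H} (h : Id G g) (q : ℚ) : Id G ((q : F) • g) :=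
  ⟨S.corr_smul q 0 g h.1, fun y hy => by rw [LinearMap.smul_apply, h.2 y hy, smul_zero]⟩

lemma Id.zero : Id G (0 : Module.End F S.H) := ⟨(S.corr 0).zero_mem, fun _ _ => rfl⟩

/-- the elements of the ideal come from `Z` -/
lemma Id.exists_γ {g : Module.End F S.H} (h : Id G g) :
    ∃ γ ∈ Z.corr (-1), ∀ y, g y = G.up (γ (G.dn y)) := by
  obtain ⟨γ, hγ, c, hc, hc'⟩ := scalar_ker G h.1
  obtain ⟨e, he0, -, hde⟩ := G.vanishing
  have h1 := hc' e hde
  rw [h.2 e hde] at h1
  have h2 : (c : F) = 0 := (smul_eq_zero.mp h1.symm).resolve_right he0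
  refine ⟨γ, hγ, fun y => ?_⟩
  rw [hc, h2, zero_smul, add_zero]

lemma Id.transp (horth : ∀ z y, G.dn y = 0 → P.B (G.up z) y = 0) {g g' : Module.End F S.H}
    (h : Id G g) (hg' : g' ∈ S.corr 0) (hgg : ∀ x y, P.B (g' x) y = P.B x (g y)) : Id G g' := by
  refine ⟨hg', fun y hy => ?_⟩
  apply P.duality.nondeg
  intro x
  obtain ⟨γ, -, hγ⟩ := h.exists_γ
  rw [hgg, hγ]
  exact orth' G P.duality horth hy

/-- The symmetric idempotent. -/
theorem exists_idem (horth : ∀ z y, G.dn y = 0 → P.B (G.up z) y = 0) (hN : Nilpotence S) :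
    ∃ e, Id G e ∧ e * e = e ∧ SA P e ∧ ∀ θ, Id G θ → NT S (θ * (1 - e)) := by
  obtain ⟨w, hw, hw2⟩ := exists_unit S {g | Id G g} (fun y hy => hy.1) (Id.zero G)
    (fun x hx y hy => Id.add G hx hy) (fun q y hy => Id.smul G hy q)
    (fun x hx y hy => Id.mul_left G hy hx.1)
  have hw : Id G w := hw
  have hone : ∀ {g : Module.End F S.H}, g ∈ S.corr 0 → 1 - g ∈ S.corr 0 :=
    fun hg => (S.corr 0).sub_mem S.corr_one hg
  have hunit : ∀ θ, Id G θ → NT S (θ * (1 - w)) := by
    intro θ hθ v hv
    have := hw2 (v * θ) (Id.mul_left G hθ hv)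
    rwa [mul_assoc v θ] at this
  obtain ⟨w', hw', h1, h2⟩ := exists_transp P hw.1
  have hwI' : Id G w' := Id.transp G P horth hw hw' h1
  -- `w - w'` is numerically trivial
  have hww' : w' * w ∈ S.corr 0 := S.corr_mul' (by ring) hw' hw.1
  have n1 : NT S (w' - w' * w) := by
    have := hunit w' hwI'
    rwa [mul_sub, mul_one] at this
  have n2 : NT S (w - w' * w) := by
    refine NT.transp P ((S.corr 0).sub_mem hw' hww') n1 ?_
    intro x y
    rw [LinearMap.sub_apply, map_sub, LinearMap.sub_apply, LinearMap.sub_apply, map_sub,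
      Module.End.mul_apply, h2, h1, h2, Module.End.mul_apply]
  have n3 : NT S (w - w') := by
    have := n2.sub n1
    rwa [sub_sub_sub_cancel_right] at this
  -- the symmetric representative
  set x : Module.End F S.H := ((1 / 2 : ℚ) : F) • (w + w') with hx
  have hhalf : ((1 / 2 : ℚ) : F) + ((1 / 2 : ℚ) : F) = 1 := by
    push_cast; ring
  have hxI : Id G x := Id.smul G (Id.add G hw hwI') _
  have hxS : SA P x := by
    intro a b
    rw [hx, LinearMap.smul_apply, map_smul, LinearMap.smul_apply, LinearMap.smul_apply, map_smul,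
      LinearMap.add_apply, map_add, LinearMap.add_apply, h1, h2, LinearMap.add_apply, map_add,
      add_comm]
  have n4 : NT S (w - x) := by
    have h3 : w - x = ((1 / 2 : ℚ) : F) • (w - w') := by
      rw [hx, smul_add, smul_sub]
      have : w = ((1 / 2 : ℚ) : F) • w + ((1 / 2 : ℚ) : F) • w := by
        rw [← add_smul, hhalf, one_smul]
      nth_rewrite 1 [this]
      abel
    rw [h3]
    exact n3.smul _
  have hunit' : ∀ θ, Id G θ → NT S (θ * (1 - x)) := by
    intro θ hθ
    have h3 : θ * (1 - x) = θ * (1 - w) + θ * (w - x) := by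
      rw [← mul_add]; congr 1; abel
    rw [h3]
    exact (hunit θ hθ).add (n4.mul_left hθ.1)
  obtain ⟨n, hn⟩ : IsNilpotent (x - x ^ 2) := by
    have h3 : x - x ^ 2 = x * (1 - x) := by rw [mul_sub, mul_one, pow_two]
    rw [h3]
    exact (hunit' x hxI).nilpotent (S.corr_mul' (by ring) hxI.1 (hone hxI.1)) hN
  have hn' : (x - x ^ 2) ^ (n + 1) = 0 := by rw [pow_succ, hn, zero_mul]
  set N := n + 1 with hN'
  have hidem := isIdempotentElem_one_sub_one_sub_pow_pow x N hn'
  have hxN : Id G (x ^ N) := by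
    rw [hN', pow_succ]
    exact Id.mul_left G hxI (S.corr_pow_zero hxI.1 n)
  have hpow : ∀ y, Id G y → ∀ m : ℕ, Id G (1 - (1 - y) ^ m) := by
    intro y hy m
    induction m with
    | zero => rw [pow_zero, sub_self]; exact Id.zero G
    | succ m ih =>
      have h3 : 1 - (1 - y) ^ (m + 1) = (1 - (1 - y) ^ m) + (1 - y) ^ m * y := by
        rw [pow_succ, mul_sub, mul_one]; abel
      rw [h3]
      exact Id.add G ih (Id.mul_left G hy (S.corr_pow_zero (hone hy.1) m))
  refine ⟨1 - (1 - x ^ N) ^ N, hpow _ hxN N, hidem, ?_, ?_⟩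
  · exact SA.sub P (SA.one P) (SA.pow P (SA.sub P (SA.one P) (SA.pow P hxS N)) N)
  · intro θ hθ
    rw [sub_sub_cancel]
    have h3 : NT S (θ * (1 - x ^ N)) := by
      have h4 : θ * (1 - x ^ N) = θ * (1 - x) * ∑ i ∈ Finset.range N, x ^ i := by
        rw [mul_assoc, mul_neg_geom_sum]
      rw [h4]
      exact (hunit' θ hθ).mul_right (S.corr_sum _ _ fun i _ => S.corr_pow_zero hxI.1 i)
    rw [hN', pow_succ', ← mul_assoc]
    exact h3.mul_right (S.corr_pow_zero (hone hxN.1) n)

end unit

end Pool.Agent.Helper89.NN
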