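import Pool.Agent.Helper89.NN.Statement
import Pool.Agent.Helper89.CPB.HomNum

/-!
# Duality and the vanishing cohomology
-/

namespace Pool.Agent.Helper89.NN

open Pool.Agent.Helper29.CPB TT

universe u v

variable {F : Type u} [Field F] [CharZero F] {X Z S : Variety.{u, v} F}

lemma natAbs_mul_parity {i j n : ℤ} (h : i + j = 2 * n) :
    ((-1 : F)) ^ (i * j).natAbs = (-1) ^ i.natAbs := by
  rcases Int.even_or_odd i with hi | hi
  · rw [(Int.natAbs_even.mpr (hi.mul_right j)).neg_one_pow, (Int.natAbs_even.mpr hi).neg_one_pow]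
  · have hj : Odd j := by
      obtain ⟨c, hc⟩ := hi
      exact ⟨n - c - 1, by omega⟩
    rw [(Int.natAbs_odd.mpr (hi.mul hj)).neg_one_pow, (Int.natAbs_odd.mpr hi).neg_one_pow]

lemma ext_bilin {B C : X.H →ₗ[F] X.H →ₗ[F] F}
    (h : ∀ (i j : ℤ) (x y : X.H), X.π i x = x → X.π j y = y → B x y = C x y) (x y : X.H) :
    B x y = C x y := by
  rw [← sum_π_apply X x, ← sum_π_apply X y]
  simp only [map_sum, LinearMap.sum_apply]
  exact Finset.sum_congr rfl fun i _ => Finset.sum_congr rfl fun j _ =>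
    h _ _ _ _ (X.π_apply_idem _ _) (X.π_apply_idem _ _)

lemma sgn_sgn (x : X.H) : X.sgn (X.sgn x) = x := by
  rw [← Module.End.mul_apply, X.sgn_mul_sgn, Module.End.one_apply]

section duality
variable {B : X.H →ₗ[F] X.H →ₗ[F] F} (hB : IsDuality X.dim X.π B)
include hB

lemma dual_symm (x y : X.H) : B x y = B y (X.sgn x) := by
  refine ext_bilin (B := B) (C := (B.flip.comp X.sgn)) ?_ x y
  intro i j x y hx hy
  show B x y = B y (X.sgn x)
  rw [X.sgn_apply hx, map_smul, smul_eq_mul]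
  by_cases hij : i + j = 2 * (X.dim : ℤ)
  · rw [hB.comm i j x y hx hy, natAbs_mul_parity hij]
  · rw [hB.deg i j x y hx hy hij, hB.deg j i y x hy hx (by omega), mul_zero]

lemma dual_sgn (x y : X.H) : B (X.sgn x) (X.sgn y) = B x y := by
  rw [dual_symm hB (X.sgn x) (X.sgn y), sgn_sgn, dual_symm hB (X.sgn y) x, sgn_sgn]

lemma dual_right (y : X.H) (h : ∀ x, B x y = 0) : y = 0 := by
  have : X.sgn y = 0 := by
    apply hB.nondeg
    intro x
    have h1 := dual_symm hB (X.sgn y) x
    rw [sgn_sgn] at h1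
    rw [h1, h]
  rw [← sgn_sgn y, this, map_zero]

end duality

section vanishing

/-- `L : H^j → H^(j+2)` is surjective for `j + 1 ≥ dim` -/
lemma L_surj_high (X : Variety.{u, v} F) {j : ℤ} (hj : (X.dim : ℤ) ≤ j + 1) {y : X.H}
    (hy : X.π (j + 2) y = y) : ∃ x, X.π j x = x ∧ X.L x = y := by
  by_cases h0 : 2 * (X.dim : ℤ) < j + 2
  · have : y = 0 := X.homog_zero (Or.inr h0) hy
    exact ⟨0, map_zero _, by rw [map_zero, this]⟩
  push Not at h0
  obtain ⟨i, hi⟩ := Int.eq_ofNat_of_zero_le (show 0 ≤ 2 * (X.dim : ℤ) - (j + 2) by omega)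
  obtain ⟨x, hx, hxy⟩ := X.hard_surj i (by omega) y (by
    rw [← hi, show 2 * (X.dim : ℤ) - (2 * X.dim - (j + 2)) = j + 2 by ring]; exact hy)
  obtain ⟨c, hc⟩ : ∃ c, X.dim - i = c + 1 := ⟨X.dim - i - 1, by omega⟩
  refine ⟨(X.L ^ c) x, X.corr_homog (X.Lpow_corr c) (by omega) hx, ?_⟩
  rw [hc, pow_succ', Module.End.mul_apply] at hxy
  exact hxy

variable (G : GenericSection Z S 1)

lemma mF_ne : (G.m : F) ≠ 0 := by
  have := G.m_pos
  exact_mod_cast (by omega : G.m ≠ 0)

lemma dn_up_apply (z : Z.H) : G.dn (G.up z) = (G.m : F) • Z.L z := by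
  have := G.maps.dn_up z
  rwa [pow_one, pow_one] at this

lemma up_homog {i : ℤ} {z : Z.H} (hz : Z.π i z = z) : S.π i (G.up z) = G.up z := by
  rw [← G.maps.up_deg, hz]

lemma dn_homog {i : ℤ} {y : S.H} (hy : S.π i y = y) : Z.π (i + 2) (G.dn y) = G.dn y := by
  have := G.maps.dn_deg i y
  rw [hy] at this
  simpa using this.symm

lemma dn_π {j : ℤ} {y : S.H} (hy : G.dn y = 0) : G.dn (S.π j y) = 0 := by
  rw [G.maps.dn_deg, hy, map_zero]

/-- the Gysin map is injective outside of the middle degree -/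
lemma dn_inj {j : ℤ} (hj : j ≠ S.dim) {y : S.H} (hy : S.π j y = y) (h : G.dn y = 0) : y = 0 := by
  have hd := G.dim
  rcases lt_or_gt_of_ne hj with hlt | hgt
  · obtain ⟨z, hz⟩ := G.weak_onto j hlt y hy
    have hz' : G.up (Z.π j z) = y := by rw [G.maps.up_deg, hz, hy]
    have h1 := dn_up_apply G (Z.π j z)
    rw [hz', h] at h1
    have h2 : Z.L (Z.π j z) = 0 := (smul_eq_zero.mp h1.symm).resolve_left (mF_ne G)
    have h3 : Z.π j z = 0 := Lpow_injective_low Z (c := 1) (i := j) (by push_cast; omega)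
      (Z.π_apply_idem j z) (by rw [pow_one]; exact h2)
    rw [← hz', h3, map_zero]
  · exact G.weak_mono j hgt y hy h

lemma ker_deg {j : ℤ} (hj : j ≠ S.dim) {y : S.H} (h : G.dn y = 0) : S.π j y = 0 :=
  dn_inj G hj (S.π_apply_idem j y) (dn_π G h)

lemma ker_middle {y : S.H} (h : G.dn y = 0) : S.π S.dim y = y := by
  conv_rhs => rw [← sum_π_apply S y]
  symm
  apply Finset.sum_eq_single_of_mem
  · rw [Finset.mem_Icc]; omega
  · intro j _ hj
    exact ker_deg G hj h

lemma isCompl_ker : IsCompl (LinearMap.ker G.dn) (LinearMap.range G.up) := by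
  have hd := G.dim
  constructor
  · rw [Submodule.disjoint_def]
    rintro y hy ⟨z, rfl⟩
    rw [LinearMap.mem_ker] at hy
    have h1 := ker_middle G hy
    rw [← G.maps.up_deg] at h1
    have h2 : G.dn (G.up (Z.π S.dim z)) = 0 := by rw [h1, hy]
    rw [dn_up_apply] at h2
    have h3 := (smul_eq_zero.mp h2).resolve_left (mF_ne G)
    have h4 : Z.π S.dim z = 0 := Lpow_injective_low Z (c := 1) (i := S.dim) (by push_cast; omega)
      (Z.π_apply_idem _ z) (by rw [pow_one]; exact h3)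
    rw [← h1, h4, map_zero]
  · rw [codisjoint_iff_le_sup]
    intro y _
    rw [← sum_π_apply S y]
    refine Submodule.sum_mem _ fun j _ => ?_
    by_cases hj : j < S.dim
    · obtain ⟨z, hz⟩ := G.weak_onto j hj (S.π j y) (S.π_apply_idem j y)
      exact Submodule.mem_sup_right ⟨z, hz⟩
    · obtain ⟨z, hz, hz'⟩ := L_surj_high Z (j := j) (by omega) (y := G.dn (S.π j y))
        (dn_homog G (S.π_apply_idem j y))
      have h1 : S.π j y = (S.π j y - G.up ((G.m : F)⁻¹ • z)) + G.up ((G.m : F)⁻¹ • z) := by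
        rw [sub_add_cancel]
      rw [h1]
      refine Submodule.add_mem _ (Submodule.mem_sup_left ?_) (Submodule.mem_sup_right ⟨_, rfl⟩)
      rw [LinearMap.mem_ker, map_sub, dn_up_apply, map_smul, hz', smul_smul,
        mul_inv_cancel₀ (mF_ne G), one_smul, sub_self]

/-- the projector onto the vanishing cohomology -/
noncomputable def vanProj : Module.End F S.H :=
  (LinearMap.ker G.dn).projection (LinearMap.range G.up) (isCompl_ker G)

lemma vanProj_mem (y : S.H) : G.dn (vanProj G y) = 0 :=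
  Submodule.projection_apply_mem (isCompl_ker G) y

lemma vanProj_of_ker {y : S.H} (h : G.dn y = 0) : vanProj G y = y :=
  Submodule.projection_apply_of_mem_left (isCompl_ker G) h

lemma vanProj_iff {y : S.H} : vanProj G y = y ↔ G.dn y = 0 :=
  ⟨fun h => h ▸ vanProj_mem G y, vanProj_of_ker G⟩

lemma vanProj_zero_iff {y : S.H} : vanProj G y = 0 ↔ ∃ z, G.up z = y :=
  Submodule.projection_apply_eq_zero_iff (isCompl_ker G)

lemma vanProj_up (z : Z.H) : vanProj G (G.up z) = 0 := (vanProj_zero_iff G).mpr ⟨z, rfl⟩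

lemma vanProj_idem (y : S.H) : vanProj G (vanProj G y) = vanProj G y :=
  vanProj_of_ker G (vanProj_mem G y)

lemma sub_vanProj (y : S.H) : ∃ z, G.up z = y - vanProj G y :=
  (vanProj_zero_iff G).mp (by rw [map_sub, vanProj_idem, sub_self])

lemma sgn_ker (hodd : Odd S.dim) {y : S.H} (h : G.dn y = 0) : S.sgn y = - y := by
  rw [S.sgn_apply (ker_middle G h), Int.natAbs_natCast, hodd.neg_one_pow, neg_one_smul]

variable {B : S.H →ₗ[F] S.H →ₗ[F] F} (hB : IsDuality S.dim S.π B)
  (horth : ∀ z y, G.dn y = 0 → B (G.up z) y = 0)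

include hB horth

lemma orth' {z : Z.H} {y : S.H} (h : G.dn y = 0) : B y (G.up z) = 0 := by
  rw [dual_symm hB]
  have h1 : G.dn (S.sgn y) = 0 := by
    have h2 := ker_middle G h
    rw [S.sgn_apply h2, map_smul, h, smul_zero]
  exact horth z _ h1

lemma B_vanProj (x y : S.H) : B (vanProj G x) y = B x (vanProj G y) := by
  obtain ⟨z, hz⟩ := sub_vanProj G x
  obtain ⟨z', hz'⟩ := sub_vanProj G y
  have h1 : B (vanProj G x) (y - vanProj G y) = 0 := by
    rw [← hz']; exact orth' G hB horth (vanProj_mem G x)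
  have h2 : B (x - vanProj G x) (vanProj G y) = 0 := by
    rw [← hz]; exact horth _ _ (vanProj_mem G y)
  rw [map_sub, sub_eq_zero] at h1
  rw [map_sub, LinearMap.sub_apply, sub_eq_zero] at h2
  rw [h1, h2]

end vanishing

end Pool.Agent.Helper89.NN
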